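import Pool.Agent.H97.CT.Stubs

/-!
CT-BSC: the inequality of Blaschke-Santaló and of Cauchy-Schwarz, and the equality case.
-/

set_option autoImplicit false

open Set MeasureTheory Filter Topology Complex
open scoped Real

namespace Pool.Agent.H97.CT

open Pool.Agent.H97.OB Pool.Agent.H97.OC

/-- A differentiable function with zero derivative is constant. -/
theorem const_of_deriv0 (f : ℝ → ℝ) (h : ∀ x, HasDerivAt f 0 x) (x : ℝ) : f x = f 0 :=
  is_const_of_deriv_eq_zero (fun x => (h x).differentiableAt) (fun x => (h x).deriv) x 0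

/-- The equality case: the differential equation for `q`. -/
theorem ode_part (m m1 g : ℝ → ℝ) (κ : ℝ) (hκ : 0 < κ) (hmd : ∀ x, HasDerivAt m (m1 x) x)
    (hgp : ∀ x, 0 < g x) (hgd : ∀ x, HasDerivAt g (- m x * g x) x)
    (hE : ∀ x, EE (m x) (m1 x) * (g x ^ 2) ^ 2 = κ) :
    ∃ A B C : ℝ, 0 < C ∧ A ^ 2 + B ^ 2 < C ^ 2 ∧
      (∀ x, m x * (A * Real.cos (2 * x) + B * Real.sin (2 * x) + C) =
        A * Real.sin (2 * x) - B * Real.cos (2 * x)) ∧
      ∀ x, EE (m x) (m1 x) * (A * Real.cos (2 * x) + B * Real.sin (2 * x) + C) ^ 2 =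
        C ^ 2 - A ^ 2 - B ^ 2 := by
  obtain ⟨q, hq⟩ : ∃ q : ℝ → ℝ, q = fun x => g x ^ 2 := ⟨_, rfl⟩
  have hqp : ∀ x, 0 < q x := fun x => by rw [hq]; exact pow_pos (hgp x) 2
  have hqd : ∀ x, HasDerivAt q (-2 * m x * q x) x := fun x => by
    rw [hq]
    exact ((hgd x).pow 2).congr_deriv (by push_cast; ring)
  have hEq : ∀ x, EE (m x) (m1 x) * q x ^ 2 = κ := fun x => by rw [hq]; exact hE x
  -- the constant 2 C
  have hI : ∀ x, HasDerivAt (fun x => m x ^ 2 * q x + q x + κ / q x) 0 x := by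
    intro x
    have h1 := ((((hmd x).pow 2).mul (hqd x)).add (hqd x)).add
      ((hasDerivAt_const x κ).div (hqd x) (hqp x).ne')
    refine h1.congr_deriv ?_
    have h2 := hEq x
    have h3 := (hqp x).ne'
    unfold EE at h2
    push_cast
    field_simp
    simp only [Pi.pow_apply]
    linear_combination -2 * m x * h2
  obtain ⟨C, hC⟩ : ∃ C : ℝ, ∀ x, m x ^ 2 * q x + q x + κ / q x = 2 * C :=
    ⟨(m 0 ^ 2 * q 0 + q 0 + κ / q 0) / 2, fun x => by
      rw [const_of_deriv0 (fun x => m x ^ 2 * q x + q x + κ / q x) hI x]; ring⟩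
  have hC' : ∀ x, m x ^ 2 * q x ^ 2 + q x ^ 2 + κ = 2 * C * q x := by
    intro x
    have h1 := hC x
    have h3 := (hqp x).ne'
    field_simp at h1
    linear_combination h1
  have hpd : ∀ x, HasDerivAt (fun x => m x * q x) (2 * (q x - C)) x := by
    intro x
    refine ((hmd x).mul (hqd x)).congr_deriv ?_
    refine mul_right_cancel₀ (hqp x).ne' ?_
    have h1 := hC' x
    have h2 := hEq x
    unfold EE at h2
    linear_combination -h1 - h2
  have hc2 : ∀ x : ℝ, HasDerivAt (fun x => Real.cos (2 * x)) (-(2 * Real.sin (2 * x))) x :=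
    fun x => (((hasDerivAt_id' x).const_mul 2).cos).congr_deriv (by ring)
  have hs2 : ∀ x : ℝ, HasDerivAt (fun x => Real.sin (2 * x)) (2 * Real.cos (2 * x)) x :=
    fun x => (((hasDerivAt_id' x).const_mul 2).sin).congr_deriv (by ring)
  have hU : ∀ x, HasDerivAt (fun x => (q x - C) * Real.cos (2 * x) + m x * q x * Real.sin (2 * x))
      0 x := by
    intro x
    refine ((((hqd x).sub_const C).mul (hc2 x)).add ((hpd x).mul (hs2 x))).congr_deriv ?_
    ring
  have hV : ∀ x, HasDerivAt (fun x => (q x - C) * Real.sin (2 * x) - m x * q x * Real.cos (2 * x))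
      0 x := by
    intro x
    refine ((((hqd x).sub_const C).mul (hs2 x)).sub ((hpd x).mul (hc2 x))).congr_deriv ?_
    ring
  obtain ⟨A, hA⟩ : ∃ A : ℝ, ∀ x, (q x - C) * Real.cos (2 * x) + m x * q x * Real.sin (2 * x) = A :=
    ⟨_, fun x => const_of_deriv0 _ hU x⟩
  obtain ⟨B, hB⟩ : ∃ B : ℝ, ∀ x, (q x - C) * Real.sin (2 * x) - m x * q x * Real.cos (2 * x) = B :=
    ⟨_, fun x => const_of_deriv0 _ hV x⟩
  have hsc : ∀ x : ℝ, Real.sin (2 * x) ^ 2 + Real.cos (2 * x) ^ 2 = 1 :=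
    fun x => Real.sin_sq_add_cos_sq _
  have hqf : ∀ x, A * Real.cos (2 * x) + B * Real.sin (2 * x) + C = q x := by
    intro x
    have h1 := hA x
    have h2 := hB x
    have h3 := hsc x
    linear_combination -Real.cos (2 * x) * h1 - Real.sin (2 * x) * h2 + (q x - C) * h3
  have hmf : ∀ x, m x * q x = A * Real.sin (2 * x) - B * Real.cos (2 * x) := by
    intro x
    have h1 := hA x
    have h2 := hB x
    have h3 := hsc x
    linear_combination Real.sin (2 * x) * h1 - Real.cos (2 * x) * h2 - (m x * q x) * h3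
  have hCp : 0 < C := by
    have h1 := hC 0
    have h2 : 0 < q 0 := hqp 0
    have h3 : 0 < m 0 ^ 2 * q 0 + q 0 + κ / q 0 := by positivity
    linarith
  have hκe : C ^ 2 - A ^ 2 - B ^ 2 = κ := by
    have h1 := hC' 0
    have h2 := hqf 0
    have h3 := hmf 0
    have h4 := hsc 0
    have h5 : A ^ 2 + B ^ 2 = (q 0 - C) ^ 2 + (m 0 * q 0) ^ 2 := by
      rw [h3, ← h2]
      linear_combination -(A ^ 2 + B ^ 2) * h4
    linear_combination - h5 - h1
  refine ⟨A, B, C, hCp, by linarith, fun x => ?_, fun x => ?_⟩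
  · rw [hqf x, hmf x]
  · rw [hqf x, hκe, hEq x]

theorem bsC : S_bsC := by
  intro hsant m m1 hm1c hmd hmπ hm0 hEp
  have hmc : Continuous m := continuous_iff_continuousAt.2 fun x => (hmd x).continuousAt
  have hmi : ∀ a b : ℝ, IntervalIntegrable m volume a b := fun a b => hmc.intervalIntegrable a b
  obtain ⟨M, hM⟩ : ∃ M : ℝ → ℝ, M = fun x => ∫ t in (0 : ℝ)..x, m t := ⟨_, rfl⟩
  have hMd : ∀ x, HasDerivAt M (m x) x := fun x => by
    rw [hM]; exact intervalIntegral.integral_hasDerivAt_right (hmi _ _)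
      hmc.stronglyMeasurable.stronglyMeasurableAtFilter hmc.continuousAt
  have hper : Function.Periodic m π := hmπ
  have hπ0 : ∫ t in (0 : ℝ)..π, m t = 0 := by
    have h1 : (∫ t in (0 : ℝ)..π, m t) + ∫ t in π..(2 * π), m t = ∫ t in (0 : ℝ)..(2 * π), m t :=
      intervalIntegral.integral_add_adjacent_intervals (hmi _ _) (hmi _ _)
    have h2 : ∫ t in π..(2 * π), m t = ∫ t in (0 : ℝ)..π, m t := by
      have := hper.intervalIntegral_add_eq π 0
      rw [zero_add, ← two_mul] at this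
      exact this
    rw [hm0, h2] at h1
    linarith
  have hMp : ∀ x, M (x + π) = M x := by
    intro x
    have h1 : (∫ t in (0 : ℝ)..x, m t) + ∫ t in x..(x + π), m t = ∫ t in (0 : ℝ)..(x + π), m t :=
      intervalIntegral.integral_add_adjacent_intervals (hmi _ _) (hmi _ _)
    have h2 := hper.intervalIntegral_add_eq x 0
    rw [zero_add, hπ0] at h2
    rw [h2, add_zero] at h1
    rw [hM]
    exact h1.symm
  obtain ⟨g, hg⟩ : ∃ g : ℝ → ℝ, g = fun x => Real.exp (- M x) := ⟨_, rfl⟩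
  have hgp : ∀ x, 0 < g x := fun x => by rw [hg]; exact Real.exp_pos _
  have hgd : ∀ x, HasDerivAt g (- m x * g x) x := fun x => by
    rw [hg]; exact ((hMd x).fun_neg.exp).congr_deriv (by ring)
  have hgc : Continuous g := continuous_iff_continuousAt.2 fun x => (hgd x).continuousAt
  have hgπ : ∀ x, g (x + π) = g x := fun x => by rw [hg]; simp only [hMp x]
  have hEc : Continuous fun x => EE (m x) (m1 x) := by unfold EE; fun_prop
  have hg1 : ∀ x, HasDerivAt (fun x => - m x * g x) (EE (m x) (m1 x) * g x - g x) x := fun x => by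
    refine (((hmd x).fun_neg).mul (hgd x)).congr_deriv ?_
    unfold EE; ring
  have hS := hsant g (fun x => - m x * g x) (fun x => EE (m x) (m1 x) * g x) (hEc.mul hgc) hgd hg1
    hgp (fun x => mul_pos (hEp x) (hgp x)) hgπ
  -- Cauchy-Schwarz
  have hsqc : Continuous fun x => √(EE (m x) (m1 x)) := hEc.sqrt
  obtain ⟨S, hSd⟩ : ∃ S : ℝ, S = ∫ x in (0 : ℝ)..(2 * π), √(EE (m x) (m1 x)) := ⟨_, rfl⟩
  obtain ⟨P, hP⟩ : ∃ P : ℝ, P = ∫ x in (0 : ℝ)..(2 * π), EE (m x) (m1 x) * g x * g x := ⟨_, rfl⟩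
  obtain ⟨Q, hQ⟩ : ∃ Q : ℝ, Q = ∫ x in (0 : ℝ)..(2 * π), 1 / g x ^ 2 := ⟨_, rfl⟩
  rw [← hP, ← hQ] at hS
  rw [← hSd]
  have h2π : (0 : ℝ) < 2 * π := by positivity
  have hPc : Continuous fun x => EE (m x) (m1 x) * g x * g x := (hEc.mul hgc).mul hgc
  have hQc : Continuous fun x => 1 / g x ^ 2 :=
    continuous_const.div (hgc.pow 2) fun x => (pow_pos (hgp x) 2).ne'
  have hQp : 0 < Q := by
    rw [hQ]
    exact intervalIntegral.intervalIntegral_pos_of_pos (hQc.intervalIntegrable _ _)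
      (fun x => by have := hgp x; positivity) h2π
  have hSp : 0 < S := by
    rw [hSd]
    exact intervalIntegral.intervalIntegral_pos_of_pos (hsqc.intervalIntegrable _ _)
      (fun x => Real.sqrt_pos.2 (hEp x)) h2π
  have hexp : ∀ l : ℝ, ∫ x in (0 : ℝ)..(2 * π), (√(EE (m x) (m1 x)) * g x - l / g x) ^ 2 =
      P - 2 * l * S + l ^ 2 * Q := by
    intro l
    have h1 : ∀ x, (√(EE (m x) (m1 x)) * g x - l / g x) ^ 2 =
        EE (m x) (m1 x) * g x * g x - 2 * l * √(EE (m x) (m1 x)) + l ^ 2 * (1 / g x ^ 2) := by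
      intro x
      have h2 := (hgp x).ne'
      have h3 := Real.sq_sqrt (hEp x).le
      field_simp
      linear_combination (g x) ^ 4 * h3
    simp only [h1]
    have h4 : ∫ x in (0 : ℝ)..(2 * π), (EE (m x) (m1 x) * g x * g x -
        2 * l * √(EE (m x) (m1 x)) + l ^ 2 * (1 / g x ^ 2)) =
        (∫ x in (0 : ℝ)..(2 * π), (EE (m x) (m1 x) * g x * g x -
        2 * l * √(EE (m x) (m1 x)))) + ∫ x in (0 : ℝ)..(2 * π), l ^ 2 * (1 / g x ^ 2) :=
      intervalIntegral.integral_add ((hPc.sub (hsqc.const_mul _)).intervalIntegrable _ _)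
        ((hQc.const_mul _).intervalIntegrable _ _)
    have h5 : ∫ x in (0 : ℝ)..(2 * π), (EE (m x) (m1 x) * g x * g x -
        2 * l * √(EE (m x) (m1 x))) = (∫ x in (0 : ℝ)..(2 * π), EE (m x) (m1 x) * g x * g x) -
        ∫ x in (0 : ℝ)..(2 * π), 2 * l * √(EE (m x) (m1 x)) :=
      intervalIntegral.integral_sub (hPc.intervalIntegrable _ _)
        ((hsqc.const_mul _).intervalIntegrable _ _)
    rw [h4, h5, intervalIntegral.integral_const_mul, intervalIntegral.integral_const_mul,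
      ← hP, ← hQ, ← hSd]
  have hval : P - 2 * (S / Q) * S + (S / Q) ^ 2 * Q = (P * Q - S ^ 2) / Q := by
    field_simp
    ring
  have hnn : 0 ≤ (P * Q - S ^ 2) / Q := by
    rw [← hval, ← hexp]
    exact intervalIntegral.integral_nonneg h2π.le fun x _ => sq_nonneg _
  have hPQ : S ^ 2 ≤ P * Q := by
    have := mul_nonneg hnn hQp.le
    rw [div_mul_cancel₀ _ hQp.ne'] at this
    linarith
  have hle : S ≤ 2 * π := by
    refine abs_le_of_sq_le_sq' ?_ h2π.le |>.2
    calc S ^ 2 ≤ P * Q := hPQ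
      _ ≤ 4 * π ^ 2 := hS
      _ = (2 * π) ^ 2 := by ring
  refine ⟨hle, fun hge => ?_⟩
  have hSe : S = 2 * π := le_antisymm hle hge
  have hzero : ∫ x in (0 : ℝ)..(2 * π), (√(EE (m x) (m1 x)) * g x - S / Q / g x) ^ 2 = 0 := by
    rw [hexp, hval]
    have h1 : P * Q - S ^ 2 ≤ 0 := by rw [hSe]; linarith
    exact le_antisymm (div_nonpos_of_nonpos_of_nonneg h1 hQp.le) hnn
  have hdc : Continuous fun x => (√(EE (m x) (m1 x)) * g x - S / Q / g x) ^ 2 :=
    ((hsqc.mul hgc).sub (continuous_const.div hgc fun x => (hgp x).ne')).pow 2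
  have hzI : ∀ x ∈ Icc (0 : ℝ) (2 * π), √(EE (m x) (m1 x)) * g x - S / Q / g x = 0 := by
    intro x hx
    by_contra hne
    have h1 : 0 < ∫ x in (0 : ℝ)..(2 * π), (√(EE (m x) (m1 x)) * g x - S / Q / g x) ^ 2 :=
      intervalIntegral.integral_pos h2π hdc.continuousOn (fun y _ => sq_nonneg _)
        ⟨x, hx, by positivity⟩
    linarith
  have hm1π : ∀ x, m1 (x + π) = m1 x := by
    intro x
    have h1 : HasDerivAt (fun y => m (y + π)) (m1 (x + π)) x :=
      HasDerivAt.comp_add_const x π (hmd (x + π))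
    have h2 : (fun y => m (y + π)) = m := funext hmπ
    rw [h2] at h1
    exact h1.unique (hmd x)
  have hz : ∀ x, √(EE (m x) (m1 x)) * g x - S / Q / g x = 0 := by
    have hpp : Function.Periodic (fun x => √(EE (m x) (m1 x)) * g x - S / Q / g x) π := by
      intro x
      simp only [hmπ, hm1π, hgπ]
    intro x
    obtain ⟨y, hy, hxy⟩ := hpp.exists_mem_Ico₀ Real.pi_pos x
    have h1 := hzI y ⟨hy.1, by linarith [hy.2, Real.pi_pos]⟩
    rw [hxy]; exact h1
  refine ode_part m m1 g ((S / Q) ^ 2) (by positivity) hmd hgp hgd fun x => ?_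
  have h1 := hz x
  have h2 := (hgp x).ne'
  have h3 : √(EE (m x) (m1 x)) * g x ^ 2 = S / Q := by
    have h4 : √(EE (m x) (m1 x)) * g x = S / Q / g x := by linarith
    rw [pow_two, ← mul_assoc, h4, div_mul_cancel₀ _ h2]
  have h5 := Real.sq_sqrt (hEp x).le
  rw [← h3, mul_pow, h5]

end Pool.Agent.H97.CT
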