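import Pool.Agent.H97.CT.Stubs

set_option autoImplicit false

open Set MeasureTheory Filter Topology Complex
open scoped Real

namespace Pool.Agent.H97.CT

open Pool.Agent.H97.OB Pool.Agent.H97.OC

theorem conj_circ (x : ℝ) : (starRingEnd ℂ) (circ x) = circ (-x) := by
  unfold circ
  rw [← Complex.exp_conj, map_mul, Complex.conj_ofReal, Complex.conj_I]
  congr 1
  push_cast
  ring

theorem conj_range (z : ℂ) : (starRingEnd ℂ) z ∈ range circ ↔ z ∈ range circ := by
  constructor
  · rintro ⟨x, hx⟩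
    refine ⟨-x, ?_⟩
    rw [← conj_circ, hx, Complex.conj_conj]
  · rintro ⟨x, rfl⟩
    exact ⟨-x, (conj_circ x).symm⟩

theorem conj_inside (z : ℂ) : (starRingEnd ℂ) z ∈ inside circ ↔ z ∈ inside circ := by
  have key : ∀ (w : ℂ) (θ : ℝ), (((starRingEnd ℂ) w - circ θ) * exp (-(θ * I))).re =
      ((w - circ (-θ)) * exp (-(((-θ : ℝ) : ℂ) * I))).re := by
    intro w θ
    have h1 : ((starRingEnd ℂ) w - circ θ) * exp (-(θ * I)) =
        (starRingEnd ℂ) ((w - circ (-θ)) * exp (-(((-θ : ℝ) : ℂ) * I))) := by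
      rw [map_mul, map_sub, conj_circ, neg_neg, ← Complex.exp_conj, map_neg, map_mul,
        Complex.conj_ofReal, Complex.conj_I]
      congr 2
      push_cast
      ring
    rw [h1, Complex.conj_re]
  constructor
  · intro h θ
    have h1 := h (-θ)
    rw [key, neg_neg] at h1
    exact h1
  · intro h θ
    rw [key]
    exact h (-θ)

theorem conj_collar : S_conj := by
  intro Y hY
  have hcc : ContDiff ℝ 1 (fun z : ℂ => (starRingEnd ℂ) z) := Complex.conjCLE.contDiff
  refine ⟨?_, ?_, ?_, ?_, ?_, ?_⟩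
  · obtain ⟨U, hU, hsub, hd⟩ := hY.smooth
    refine ⟨(fun z : ℂ => (starRingEnd ℂ) z) ⁻¹' U, hU.preimage hcc.continuous,
      fun z hz => hsub hz, ?_⟩
    exact hd.comp hcc.contDiffOn (fun z hz => hz)
  · intro z h0 h1 h2
    have hdiff : DifferentiableAt ℝ Y ((starRingEnd ℂ) z) := by
      obtain ⟨U, hU, hsub, hd⟩ := hY.smooth
      exact (hd.contDiffAt (hU.mem_nhds (hsub ⟨h0, h1⟩))).differentiableAt (by norm_num)
    have h3 : HasFDerivAt (fun z => Y ((starRingEnd ℂ) z))
        ((fderiv ℝ Y ((starRingEnd ℂ) z)).comp (Complex.conjCLE : ℂ →L[ℝ] ℂ)) z :=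
      hdiff.hasFDerivAt.comp z (Complex.conjCLE : ℂ →L[ℝ] ℂ).hasFDerivAt
    rw [h3.fderiv] at h2
    refine hY.regular _ h0 h1 ?_
    ext1 v
    have h4 := congrArg (fun f : ℂ →L[ℝ] ℝ => f ((starRingEnd ℂ) v)) h2
    simpa using h4
  · intro c h0 h1
    have h2 : {z | Y ((starRingEnd ℂ) z) ≤ c} = (fun z => (starRingEnd ℂ) z) '' {z | Y z ≤ c} := by
      ext z
      constructor
      · intro hz
        exact ⟨(starRingEnd ℂ) z, hz, Complex.conj_conj z⟩
      · rintro ⟨w, hw, rfl⟩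
        show Y _ ≤ c
        rw [Complex.conj_conj]; exact hw
    rw [h2]
    exact (hY.compact c h0 h1).image hcc.continuous
  · intro c h0 h1
    exact (hY.convex c h0 h1).is_linear_preimage (f := fun z => (starRingEnd ℂ) z)
      (Complex.conjCLE : ℂ →L[ℝ] ℂ).toLinearMap.isLinear
  · intro z
    rw [hY.leaf_zero, conj_range]
  · intro z
    rw [hY.inner, conj_inside]

end Pool.Agent.H97.CT
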