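import Pool.Agent.H97.OC.Defs

/-!
# Collars of the unit circle with arbitrary projective involutions

The affine plane is `ℂ` and `γ` is the unit circle.  The involutions `σ_p` of the tangent lines are
arbitrary projective involutions.
-/

set_option autoImplicit false

open Set Complex MeasureTheory
open scoped Real

namespace Pool.Agent.H97.CT

open Pool.Agent.H97.OB Pool.Agent.H97.OC

/-- The unit circle, parametrised by the direction angle of the outer normal. -/
noncomputable def circ (θ : ℝ) : ℂ := exp (θ * I)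

/-- The involution `σ_p`, `p = γ θ`, of the tangent line at `p`, which exchanges the two points of
every leaf of the collar, is projective.  In the coordinate inverse to the signed distance from `p`
the projective transformations of the tangent line which fix `p` are the maps `x ↦ α x + β`; such a
map is an involution other than the identity if and only if it is `x ↦ 2 m - x`; it sends the point
with signed distance `-s` to the point with signed distance `t` if and only if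
`1 / t = 2 m + 1 / s`. -/
def SigmaProjective (γ : ℝ → ℂ) (Y : ℂ → ℝ) (θ : ℝ) : Prop :=
  ∃ m : ℝ, ∀ s t : ℝ, 0 < s → 0 < t → Y (γ θ - s * tang θ) = Y (γ θ + t * tang θ) →
    Y (γ θ + t * tang θ) ≤ 1 → 1 / t = 2 * m + 1 / s

/-- Every point `z` of the outer leaf `{Y = 1}` is a vertex of a quadrilateral `z, w, -z, -w` with
vertices on that leaf whose sides touch `γ`: two steps lead from `z` to `-z`. -/
def OuterLeafSymmetricFourPeriodic (γ : ℝ → ℂ) (Y : ℂ → ℝ) : Prop :=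
  ∀ z, Y z = 1 → ∃ w, Y w = 1 ∧ Y (-z) = 1 ∧ Next γ z w ∧ Next γ w (-z)

/-! ### Analytic data -/

/-- `E = 1 + m² - m'` -/
def EE (m m1 : ℝ) : ℝ := 1 + m ^ 2 - m1

/-- Density of the Hopf functional: `w` is the harmonic mean of the two tangent lengths
`w / (1 + m w)`, `w / (1 - m w)`. -/
noncomputable def PsiC (E m w : ℝ) : ℝ :=
  2 * √E * Real.arctan (√E * w) - Real.arctan (w / (1 + m * w)) - Real.arctan (w / (1 - m * w))

/-- Its derivative with respect to `w`. -/
noncomputable def QC (E m w : ℝ) : ℝ :=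
  2 * E / (1 + E * w ^ 2) - 1 / ((1 + m * w) ^ 2 + w ^ 2) - 1 / ((1 - m * w) ^ 2 + w ^ 2)

/-- The nonnegative density; `u` is the derivative of `w` along the leaf, `m1` that of `m`. -/
noncomputable def NC (m m1 w u : ℝ) : ℝ :=
  2 * (u + m * w - m * EE m m1 * w ^ 3) ^ 2 /
    (w ^ 2 * (((1 + m * w) ^ 2 + w ^ 2 + u - m1 * w ^ 2) *
      ((1 - m * w) ^ 2 + w ^ 2 - u - m1 * w ^ 2)) * (1 + EE m m1 * w ^ 2))

/-- The tangent length in the positive direction. -/
noncomputable def tp (m w : ℝ) : ℝ := w / (1 + m * w)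

/-- The tangent length in the negative direction. -/
noncomputable def tm (m w : ℝ) : ℝ := w / (1 - m * w)

/-- The collar of the unit circle in polar coordinates.  `m x` is the constant of the projective
involution at `circ x`, `m1` its derivative; `w c x` the harmonic mean of the tangent lengths
`tp`, `tm` of the leaf `{Y = c}` on the tangent line at `circ x`, `u`, `v` its derivatives in `x` and
`c`; `G c φ` the inverse of the polar radius of the leaf, `G1` its derivative in `φ`, `-G2` its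
derivative in `c`. -/
structure FolC (Y : ℂ → ℝ) (m m1 : ℝ → ℝ) (G G1 G2 w u v : ℝ → ℝ → ℝ) : Prop where
  mc : Continuous m1
  md : ∀ x, HasDerivAt m (m1 x) x
  mp : ∀ x, m (x + 2 * π) = m x
  m1p : ∀ x, m1 (x + 2 * π) = m1 x
  leaf : ∀ c, 0 < c → c ≤ 1 → ∀ z, Y z = c ↔ ∃ φ : ℝ, z = exp (φ * I) / (G c φ : ℂ)
  Gpos : ∀ c, 0 < c → c ≤ 1 → ∀ φ, 0 < G c φ
  Gper : ∀ c, 0 < c → c ≤ 1 → ∀ φ, G c (φ + 2 * π) = G c φ
  G2per : ∀ c, 0 < c → c ≤ 1 → ∀ φ, G2 c (φ + 2 * π) = G2 c φ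
  Gd : ∀ c, 0 < c → c ≤ 1 → ∀ φ, HasDerivAt (G c) (G1 c φ) φ
  G1c : ∀ c, 0 < c → c ≤ 1 → Continuous (G1 c)
  G2c : ∀ c, 0 < c → c ≤ 1 → Continuous (G2 c)
  wc : ContinuousOn (fun x : ℝ × ℝ => w x.1 x.2) (Icc 0 1 ×ˢ univ)
  w0 : ∀ x, w 0 x = 0
  wpos : ∀ c, 0 < c → c ≤ 1 → ∀ x, 0 < w c x ∧ |m x| * w c x < 1
  wper : ∀ c, 0 < c → c ≤ 1 → ∀ x, w c (x + 2 * π) = w c x
  wd : ∀ c, 0 < c → c ≤ 1 → ∀ x, HasDerivAt (w c) (u c x) x
  uc : ∀ c, 0 < c → c ≤ 1 → Continuous (u c)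
  posp : ∀ c, 0 < c → c ≤ 1 → ∀ x,
    0 < (1 + m x * w c x) ^ 2 + w c x ^ 2 + u c x - m1 x * w c x ^ 2
  posm : ∀ c, 0 < c → c ≤ 1 → ∀ x,
    0 < (1 - m x * w c x) ^ 2 + w c x ^ 2 - u c x - m1 x * w c x ^ 2
  wv : ∀ c, 0 < c → c < 1 → ∀ x, HasDerivAt (fun c => w c x) (v c x) c
  vc : ContinuousOn (fun x : ℝ × ℝ => v x.1 x.2) (Ioo 0 1 ×ˢ univ)
  vpos : ∀ c, 0 < c → c < 1 → ∀ x, 0 < v c x
  plus : ∀ c, 0 < c → c ≤ 1 → ∀ x,
    G c (x + Real.arctan (tp (m x) (w c x))) = Real.cos (Real.arctan (tp (m x) (w c x)))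
  minus : ∀ c, 0 < c → c ≤ 1 → ∀ x,
    G c (x - Real.arctan (tm (m x) (w c x))) = Real.cos (Real.arctan (tm (m x) (w c x)))
  G2plus : ∀ c, 0 < c → c < 1 → ∀ x,
    G2 c (x + Real.arctan (tp (m x) (w c x))) *
      ((1 + m x * w c x) ^ 2 + w c x ^ 2 + u c x - m1 x * w c x ^ 2) =
      v c x * Real.sin (Real.arctan (tp (m x) (w c x)))
  G2minus : ∀ c, 0 < c → c < 1 → ∀ x,
    G2 c (x - Real.arctan (tm (m x) (w c x))) *
      ((1 - m x * w c x) ^ 2 + w c x ^ 2 - u c x - m1 x * w c x ^ 2) =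
      v c x * Real.sin (Real.arctan (tm (m x) (w c x)))
  pt : ∀ c, 0 < c → c ≤ 1 → ∀ x, Y (circ x + tp (m x) (w c x) * tang x) = c ∧
    Y (circ x - tm (m x) (w c x) * tang x) = c
  next : ∀ z w', Y z = 1 → Y w' = 1 → Next circ z w' → ∃ x : ℝ,
    z = circ x - tm (m x) (w 1 x) * tang x ∧ w' = circ x + tp (m x) (w 1 x) * tang x

end Pool.Agent.H97.CT
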