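import Pool.Agent.H97.CT.Stubs

/-!
# CT-FOUR: the leaf of symmetric 4-periodic orbits (helper85)
-/

set_option autoImplicit false

open Set MeasureTheory Filter Topology Complex
open scoped Real

namespace Pool.Agent.H97.CT

open Pool.Agent.H97.OB Pool.Agent.H97.OC

namespace Four

/-- polar form -/
noncomputable def pol (φ p : ℝ) : ℂ := exp (φ * I) / ((Real.cos p : ℝ) : ℂ)

lemma pol_plus (x t : ℝ) : circ x + t * tang x = pol (x + Real.arctan t) (Real.arctan t) := by
  have hc : 0 < Real.cos (Real.arctan t) := Real.cos_arctan_pos t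
  have hcC : ((Real.cos (Real.arctan t) : ℝ) : ℂ) ≠ 0 := by exact_mod_cast hc.ne'
  have h1 : t * Real.cos (Real.arctan t) = Real.sin (Real.arctan t) := by
    have := Real.tan_mul_cos hc.ne'
    rwa [Real.tan_arctan] at this
  unfold pol circ tang
  rw [eq_div_iff hcC]
  have h2 : exp (((x + Real.arctan t : ℝ) : ℂ) * I) = exp (x * I) *
      (((Real.cos (Real.arctan t) : ℝ) : ℂ) + ((Real.sin (Real.arctan t) : ℝ) : ℂ) * I) := by
    push_cast
    rw [add_mul, exp_add, ← Complex.exp_mul_I]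
  rw [h2, ← h1]
  push_cast
  ring

lemma pol_minus (x t : ℝ) : circ x - t * tang x = pol (x - Real.arctan t) (Real.arctan t) := by
  have h := pol_plus x (-t)
  rw [Real.arctan_neg] at h
  have h1 : pol (x + -Real.arctan t) (-Real.arctan t) = pol (x - Real.arctan t) (Real.arctan t) := by
    unfold pol
    rw [Real.cos_neg, sub_eq_add_neg]
  rw [h1] at h
  rw [← h]
  push_cast
  ring

lemma pol_neg (φ p : ℝ) : -pol φ p = pol (φ + π) p := by
  unfold pol
  have : exp (((φ + π : ℝ) : ℂ) * I) = -exp (φ * I) := by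
    push_cast
    rw [add_mul, exp_add, exp_pi_mul_I]
    ring
  rw [this]
  ring

lemma pol_inj {φ ψ p q : ℝ} (hp0 : 0 < p) (hp1 : p < π / 2) (hq0 : 0 < q) (hq1 : q < π / 2)
    (h : pol φ p = pol ψ q) : p = q ∧ ∃ k : ℤ, φ = ψ + k * (2 * π) := by
  have hcp : 0 < Real.cos p := Real.cos_pos_of_mem_Ioo ⟨by linarith, hp1⟩
  have hcq : 0 < Real.cos q := Real.cos_pos_of_mem_Ioo ⟨by linarith, hq1⟩
  have hcos : Real.cos p = Real.cos q := by
    have h1 := congrArg norm h
    unfold pol at h1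
    rw [norm_div, norm_div, Complex.norm_exp_ofReal_mul_I, Complex.norm_exp_ofReal_mul_I,
      Complex.norm_real, Complex.norm_real, Real.norm_eq_abs, Real.norm_eq_abs,
      abs_of_pos hcp, abs_of_pos hcq] at h1
    rw [div_eq_div_iff hcp.ne' hcq.ne'] at h1
    linarith
  have hpq : p = q := Real.injOn_cos ⟨hp0.le, by linarith [Real.pi_pos]⟩
    ⟨hq0.le, by linarith [Real.pi_pos]⟩ hcos
  refine ⟨hpq, ?_⟩
  subst hpq
  unfold pol at h
  have hcC : ((Real.cos p : ℝ) : ℂ) ≠ 0 := by exact_mod_cast hcp.ne'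
  have h2 := (div_left_inj' hcC).1 h
  rw [Complex.exp_eq_exp_iff_exists_int] at h2
  obtain ⟨k, hk⟩ := h2
  refine ⟨k, ?_⟩
  have h3 : (φ : ℂ) * I = ((ψ + k * (2 * π) : ℝ) : ℂ) * I := by
    rw [hk]
    push_cast
    ring
  have h4 := mul_right_cancel₀ I_ne_zero h3
  exact_mod_cast h4

lemma deriv_arc {m w : ℝ → ℝ} {m1 u x : ℝ} (hm : HasDerivAt m m1 x) (hw : HasDerivAt w u x)
    (hp : 0 < 1 + m x * w x) :
    HasDerivAt (fun x => Real.arctan (w x / (1 + m x * w x)))
      ((u - m1 * w x ^ 2) / ((1 + m x * w x) ^ 2 + w x ^ 2)) x := by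
  have h1 : HasDerivAt (fun x => 1 + m x * w x) (m1 * w x + m x * u) x := (hm.mul hw).const_add 1
  have h2 := (hw.div h1 hp.ne').arctan
  refine h2.congr_deriv ?_
  have hd : 0 < (1 + m x * w x) ^ 2 + w x ^ 2 := by positivity
  simp only [Pi.div_apply]
  have h3 : (1 : ℝ) + (w x / (1 + m x * w x)) ^ 2 =
      ((1 + m x * w x) ^ 2 + w x ^ 2) / (1 + m x * w x) ^ 2 := by
    rw [eq_div_iff (pow_ne_zero 2 hp.ne'), div_pow, add_mul,
      div_mul_cancel₀ _ (pow_ne_zero 2 hp.ne')]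
    ring
  rw [h3, one_div_div, div_mul_div_comm, div_eq_div_iff (mul_ne_zero hd.ne' (pow_ne_zero 2 hp.ne'))
    hd.ne']
  ring

lemma arc_mem {t : ℝ} (ht : 0 < t) : 0 < Real.arctan t ∧ Real.arctan t < π / 2 :=
  ⟨Real.arctan_pos.2 ht, Real.arctan_lt_pi_div_two t⟩

end Four

open Four in
theorem four : S_four := by
  intro Y m m1 G G1 G2 w u v F H4
  -- positivity
  have hw0 : ∀ x, 0 < w 1 x := fun x => (F.wpos 1 one_pos le_rfl x).1
  have hmw : ∀ x, |m x * w 1 x| < 1 := by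
    intro x
    rw [abs_mul, abs_of_pos (hw0 x)]
    exact (F.wpos 1 one_pos le_rfl x).2
  have hp : ∀ x, 0 < 1 + m x * w 1 x := fun x => by
    have := (abs_lt.1 (hmw x)).1
    linarith
  have hq : ∀ x, 0 < 1 - m x * w 1 x := fun x => by
    have := (abs_lt.1 (hmw x)).2
    linarith
  have htp : ∀ x, 0 < tp (m x) (w 1 x) := fun x => div_pos (hw0 x) (hp x)
  have htm : ∀ x, 0 < tm (m x) (w 1 x) := fun x => div_pos (hw0 x) (hq x)
  obtain ⟨b, hb⟩ : ∃ b : ℝ → ℝ, b = fun x => Real.arctan (tp (m x) (w 1 x)) := ⟨_, rfl⟩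
  obtain ⟨e, he⟩ : ∃ e : ℝ → ℝ, e = fun x => Real.arctan (tm (m x) (w 1 x)) := ⟨_, rfl⟩
  obtain ⟨b1, hb1⟩ : ∃ b1 : ℝ → ℝ, b1 = fun x => (u 1 x - m1 x * w 1 x ^ 2) /
    ((1 + m x * w 1 x) ^ 2 + w 1 x ^ 2) := ⟨_, rfl⟩
  obtain ⟨e1, he1⟩ : ∃ e1 : ℝ → ℝ, e1 = fun x => (u 1 x + m1 x * w 1 x ^ 2) /
    ((1 - m x * w 1 x) ^ 2 + w 1 x ^ 2) := ⟨_, rfl⟩
  have hbm : ∀ x, 0 < b x ∧ b x < π / 2 := fun x => by rw [hb]; exact arc_mem (htp x)
  have hem : ∀ x, 0 < e x ∧ e x < π / 2 := fun x => by rw [he]; exact arc_mem (htm x)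
  have hbp : ∀ x, b (x + 2 * π) = b x := fun x => by
    rw [hb]; simp only; rw [F.mp, F.wper 1 one_pos le_rfl]
  have hep : ∀ x, e (x + 2 * π) = e x := fun x => by
    rw [he]; simp only; rw [F.mp, F.wper 1 one_pos le_rfl]
  have hbd : ∀ x, HasDerivAt b (b1 x) x := fun x => by
    rw [hb, hb1]
    exact deriv_arc (F.md x) (F.wd 1 one_pos le_rfl x) (hp x)
  have hed : ∀ x, HasDerivAt e (e1 x) x := fun x => by
    have h1 := deriv_arc (m := fun x => -m x) (F.md x).neg (F.wd 1 one_pos le_rfl x)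
      (by have := hq x; linarith)
    rw [he, he1]
    refine (h1.congr_deriv ?_).congr_of_eventuallyEq (Eventually.of_forall fun y => ?_)
    · congr 1 <;> ring
    · simp only [tm]
      congr 2
      ring
  have hDp : ∀ x, 0 < (1 + m x * w 1 x) ^ 2 + w 1 x ^ 2 := fun x => by
    have := hw0 x
    positivity
  have hDm : ∀ x, 0 < (1 - m x * w 1 x) ^ 2 + w 1 x ^ 2 := fun x => by
    have := hw0 x
    positivity
  have hb1p : ∀ x, 0 < 1 + b1 x := fun x => by
    rw [hb1]
    have h1 : 1 + (u 1 x - m1 x * w 1 x ^ 2) / ((1 + m x * w 1 x) ^ 2 + w 1 x ^ 2) =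
        ((1 + m x * w 1 x) ^ 2 + w 1 x ^ 2 + u 1 x - m1 x * w 1 x ^ 2) /
          ((1 + m x * w 1 x) ^ 2 + w 1 x ^ 2) := by
      rw [eq_div_iff (hDp x).ne', add_mul, div_mul_cancel₀ _ (hDp x).ne']
      ring
    simp only
    rw [h1]
    exact div_pos (F.posp 1 one_pos le_rfl x) (hDp x)
  have he1p : ∀ x, 0 < 1 - e1 x := fun x => by
    rw [he1]
    have h1 : 1 - (u 1 x + m1 x * w 1 x ^ 2) / ((1 - m x * w 1 x) ^ 2 + w 1 x ^ 2) =
        ((1 - m x * w 1 x) ^ 2 + w 1 x ^ 2 - u 1 x - m1 x * w 1 x ^ 2) /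
          ((1 - m x * w 1 x) ^ 2 + w 1 x ^ 2) := by
      rw [eq_div_iff (hDm x).ne', sub_mul, div_mul_cancel₀ _ (hDm x).ne']
      ring
    simp only
    rw [h1]
    exact div_pos (F.posm 1 one_pos le_rfl x) (hDm x)
  -- the points
  have hPp : ∀ x, circ x + tp (m x) (w 1 x) * tang x = pol (x + b x) (b x) := fun x => by
    rw [hb]; exact pol_plus _ _
  have hPm : ∀ x, circ x - tm (m x) (w 1 x) * tang x = pol (x - e x) (e x) := fun x => by
    rw [he]; exact pol_minus _ _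
  -- monotonicity of `x - e x`
  have hmono : StrictMono (fun x => x - e x) := by
    apply strictMono_of_hasDerivAt_pos (f' := fun x => 1 - e1 x)
    · intro x
      exact (hasDerivAt_id x).sub (hed x)
    · exact he1p
  have heperk : ∀ (x : ℝ) (k : ℤ), e (x + k * (2 * π)) = e x := by
    intro x k
    have : Function.Periodic e (2 * π) := hep
    exact this.int_mul k x
  have hbperk : ∀ (x : ℝ) (k : ℤ), b (x + k * (2 * π)) = b x := by
    intro x k
    have : Function.Periodic b (2 * π) := hbp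
    exact this.int_mul k x
  -- the orbit
  have hkey : ∀ x, b x + e x = π / 2 ∧ e (x + 2 * b x) = b x ∧ b (x + 2 * b x) = e x := by
    intro x
    have hz : Y (pol (x - e x) (e x)) = 1 := by
      rw [← hPm]
      exact (F.pt 1 one_pos le_rfl x).2
    obtain ⟨w', hw', hzn, hn1, hn2⟩ := H4 _ hz
    obtain ⟨x₁, h1, h2⟩ := F.next _ _ hz hw' hn1
    obtain ⟨y, h3, h4⟩ := F.next _ _ hw' hzn hn2
    rw [hPm] at h1 h3
    rw [hPp] at h2 h4
    obtain ⟨h5, k, h6⟩ := pol_inj (hem x).1 (hem x).2 (hem x₁).1 (hem x₁).2 h1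
    have h7 : x = x₁ + k * (2 * π) := by
      apply hmono.injective
      simp only
      rw [heperk x₁ k, h6]
      ring
    have h8 : b x = b x₁ := by rw [h7, hbperk]
    rw [h2] at h3
    obtain ⟨h9, l, h10⟩ := pol_inj (hbm x₁).1 (hbm x₁).2 (hem y).1 (hem y).2 h3
    rw [pol_neg] at h4
    obtain ⟨h11, n, h12⟩ := pol_inj (hem x).1 (hem x).2 (hbm y).1 (hbm y).2 h4
    -- y = x + 2 b x modulo 2 π
    have h13 : x + 2 * b x = y + ((k + l : ℤ) : ℝ) * (2 * π) := by
      push_cast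
      linarith
    have h14 : e (x + 2 * b x) = e y := by rw [h13, heperk]
    have h15 : b (x + 2 * b x) = b y := by rw [h13, hbperk]
    refine ⟨?_, by rw [h14, ← h9, h8], by rw [h15, ← h11]⟩
    have h16 : b x + e x = π / 2 + ((k + l - n : ℤ) : ℝ) * π := by
      push_cast at h13 ⊢
      linarith
    have h17 : k + l - n = 0 := by
      have hpi := Real.pi_pos
      have h18 := hbm x
      have h19 := hem x
      have h20 : ((k + l - n : ℤ) : ℝ) * π < 1 * π := by linarith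
      have h21 : (-1 : ℝ) * π < ((k + l - n : ℤ) : ℝ) * π := by linarith
      have h22 := lt_of_mul_lt_mul_right h20 hpi.le
      have h23 := lt_of_mul_lt_mul_right h21 hpi.le
      have h24 : k + l - n < 1 := by exact_mod_cast h22
      have h25 : -1 < k + l - n := by exact_mod_cast h23
      omega
    rw [h16, h17]
    push_cast
    ring
  have hebx : ∀ x, e x = π / 2 - b x := fun x => by have := (hkey x).1; linarith
  -- `w ^ 2 (1 + m ^ 2) = 1`
  have htb : ∀ x, tp (m x) (w 1 x) = Real.tan (b x) := fun x => by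
    rw [hb]; exact (Real.tan_arctan _).symm
  have hte : ∀ x, tm (m x) (w 1 x) = Real.tan (π / 2 - b x) := fun x => by
    rw [← hebx, he]; exact (Real.tan_arctan _).symm
  have hW : ∀ x, w 1 x ^ 2 * (1 + m x ^ 2) = 1 := by
    intro x
    have h1 : tp (m x) (w 1 x) * tm (m x) (w 1 x) = 1 := by
      rw [htb, hte, Real.tan_pi_div_two_sub]
      have : Real.tan (b x) ≠ 0 := by
        rw [← htb]
        exact (htp x).ne'
      exact mul_inv_cancel₀ this
    have hp' := (hp x).ne'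
    have hq' := (hq x).ne'
    unfold tp tm at h1
    rw [div_mul_div_comm, div_eq_one_iff_eq (mul_ne_zero hp' hq')] at h1
    linear_combination h1
  have hcb : ∀ x, Real.cos (b x) ^ 2 * ((1 + m x * w 1 x) ^ 2 + w 1 x ^ 2) =
      (1 + m x * w 1 x) ^ 2 := by
    intro x
    have h1 : Real.cos (b x) ^ 2 = 1 / (1 + tp (m x) (w 1 x) ^ 2) := by
      rw [hb]
      simp only
      rw [Real.cos_sq_arctan]
    rw [h1]
    have hp' := (hp x).ne'
    unfold tp
    have hd := hDp x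
    have h3 : (1 : ℝ) + (w 1 x / (1 + m x * w 1 x)) ^ 2 =
        ((1 + m x * w 1 x) ^ 2 + w 1 x ^ 2) / (1 + m x * w 1 x) ^ 2 := by
      rw [eq_div_iff (pow_ne_zero 2 hp'), div_pow, add_mul,
        div_mul_cancel₀ _ (pow_ne_zero 2 hp')]
      ring
    rw [h3, one_div_div, div_mul_cancel₀ _ hd.ne']
  have hD2 : ∀ x, (1 + m x * w 1 x) ^ 2 + w 1 x ^ 2 = 2 * (1 + m x * w 1 x) := by
    intro x
    linear_combination hW x
  have hcb2 : ∀ x, 2 * Real.cos (b x) ^ 2 = 1 + m x * w 1 x := by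
    intro x
    have h1 := hcb x
    rw [hD2] at h1
    have hp' := (hp x).ne'
    apply mul_right_cancel₀ hp'
    linear_combination h1
  have hcos2 : ∀ x, Real.cos (2 * b x) = m x * w 1 x := by
    intro x
    rw [Real.cos_two_mul]
    linarith [hcb2 x]
  have hsin2 : ∀ x, w 1 x = Real.sin (2 * b x) := by
    intro x
    have hc : 0 < Real.cos (b x) := Real.cos_pos_of_mem_Ioo
      ⟨by linarith [(hbm x).1, Real.pi_pos], (hbm x).2⟩
    have h1 : Real.sin (b x) = tp (m x) (w 1 x) * Real.cos (b x) := by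
      rw [htb]
      exact (Real.tan_mul_cos hc.ne').symm
    rw [Real.sin_two_mul, h1]
    unfold tp
    have h2 := hcb2 x
    have hp' := (hp x).ne'
    calc w 1 x = (w 1 x / (1 + m x * w 1 x)) * (1 + m x * w 1 x) := (div_mul_cancel₀ _ hp').symm
      _ = (w 1 x / (1 + m x * w 1 x)) * (2 * Real.cos (b x) ^ 2) := by rw [h2]
      _ = _ := by ring
  refine ⟨b, b1, ?_, htb, hte, hsin2⟩
  have hmc : Continuous m := continuous_iff_continuousAt.2 fun x => (F.md x).continuousAt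
  have hwc : Continuous (w 1) := continuous_iff_continuousAt.2
    fun x => (F.wd 1 one_pos le_rfl x).continuousAt
  refine ⟨F.mc, F.md, ?_, hbd, hbm, hbp, ?_, ?_, ?_⟩
  · rw [hb1]
    have h1 := F.uc 1 one_pos le_rfl
    have h2 := F.mc
    refine Continuous.div ?_ ?_ fun x => (hDp x).ne'
    · fun_prop
    · fun_prop
  · intro x
    rw [hcos2, ← hsin2]
  · intro x
    -- derivative of `x + b x = f x - e (f x)`
    have hd1 : HasDerivAt (fun x => x + b x) (1 + b1 x) x := (hasDerivAt_id x).add (hbd x)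
    have hd2 : HasDerivAt (fun x => x + 2 * b x) (1 + 2 * b1 x) x :=
      (hasDerivAt_id x).add ((hbd x).const_mul 2)
    have hd3 : HasDerivAt (fun y => y - e y) (1 - e1 (x + 2 * b x)) (x + 2 * b x) :=
      (hasDerivAt_id _).sub (hed _)
    have hd4 : HasDerivAt (fun x => (x + 2 * b x) - e (x + 2 * b x))
        ((1 - e1 (x + 2 * b x)) * (1 + 2 * b1 x)) x :=
      HasDerivAt.comp (h₂ := fun y => y - e y) (h := fun x => x + 2 * b x) x hd3 hd2
    have hfun : (fun x => (x + 2 * b x) - e (x + 2 * b x)) = fun x => x + b x := by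
      funext y
      rw [(hkey y).2.1]
      ring
    rw [hfun] at hd4
    have h5 := hd1.unique hd4
    have h6 := hb1p x
    have h7 := he1p (x + 2 * b x)
    rw [h5] at h6
    exact (pos_iff_pos_of_mul_pos h6).1 h7
  · intro x
    rw [(hkey x).2.2, hebx]

end Pool.Agent.H97.CT
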