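import Pool.Agent.H97.CT.Stubs

/-! # CT-MONO (helper29) -/

set_option autoImplicit false

open Set Filter Topology MeasureTheory
open scoped Real

namespace Pool.Agent.H97.CT

theorem dPsiC {E m w : ℝ} (hE : 0 < E) (hp : 0 < 1 + m * w) (hm : 0 < 1 - m * w) :
    HasDerivAt (fun w => PsiC E m w) (QC E m w) w := by
  have h1 : HasDerivAt (fun w => 2 * √E * Real.arctan (√E * w))
      (2 * √E * (1 / (1 + (√E * w) ^ 2) * √E)) w := by
    have := ((hasDerivAt_id w).const_mul (√E)).arctan.const_mul (2 * √E)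
    simpa using this
  have h2 : HasDerivAt (fun w => Real.arctan (w / (1 + m * w)))
      (1 / (1 + (w / (1 + m * w)) ^ 2) * ((1 * (1 + m * w) - w * m) / (1 + m * w) ^ 2)) w := by
    have hd : HasDerivAt (fun w => 1 + m * w) m w := by
      simpa using ((hasDerivAt_id w).const_mul m).const_add 1
    exact ((hasDerivAt_id w).div hd hp.ne').arctan
  have h3 : HasDerivAt (fun w => Real.arctan (w / (1 - m * w)))
      (1 / (1 + (w / (1 - m * w)) ^ 2) * ((1 * (1 - m * w) - w * (-m)) / (1 - m * w) ^ 2)) w := by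
    have hd : HasDerivAt (fun w => 1 - m * w) (-m) w := by
      simpa using ((hasDerivAt_id w).const_mul m).const_sub 1
    exact ((hasDerivAt_id w).div hd hm.ne').arctan
  refine ((h1.sub h2).sub h3).congr_deriv ?_
  have e1 : 2 * √E * (1 / (1 + (√E * w) ^ 2) * √E) = 2 * E / (1 + E * w ^ 2) := by
    have hs : √E * √E = E := Real.mul_self_sqrt hE.le
    have h4 : (√E * w) ^ 2 = E * w ^ 2 := by
      rw [mul_pow, sq (√E), hs]
    rw [h4]
    have h5 : 2 * √E * (1 / (1 + E * w ^ 2) * √E) = 2 * (√E * √E) / (1 + E * w ^ 2) := by ring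
    rw [h5, hs]
  have e2 : 1 / (1 + (w / (1 + m * w)) ^ 2) * ((1 * (1 + m * w) - w * m) / (1 + m * w) ^ 2) =
      1 / ((1 + m * w) ^ 2 + w ^ 2) := by
    have h5 : (1 + m * w) ^ 2 + w ^ 2 ≠ 0 := by positivity
    have h6 : 1 + (w / (1 + m * w)) ^ 2 = ((1 + m * w) ^ 2 + w ^ 2) / (1 + m * w) ^ 2 := by
      rw [div_pow, add_div, div_self (pow_ne_zero 2 hp.ne')]
    rw [h6]
    have h7 : (1 * (1 + m * w) - w * m) = 1 := by ring
    rw [h7]
    have h8 : (1 + m * w) ^ 2 ≠ 0 := pow_ne_zero 2 hp.ne'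
    rw [div_mul_div_comm, one_mul, div_mul_cancel₀ _ h8]
  have e3 : 1 / (1 + (w / (1 - m * w)) ^ 2) * ((1 * (1 - m * w) - w * (-m)) / (1 - m * w) ^ 2) =
      1 / ((1 - m * w) ^ 2 + w ^ 2) := by
    have h5 : (1 - m * w) ^ 2 + w ^ 2 ≠ 0 := by positivity
    have h6 : 1 + (w / (1 - m * w)) ^ 2 = ((1 - m * w) ^ 2 + w ^ 2) / (1 - m * w) ^ 2 := by
      rw [div_pow, add_div, div_self (pow_ne_zero 2 hm.ne')]
    rw [h6]
    have h7 : (1 * (1 - m * w) - w * (-m)) = 1 := by ring
    rw [h7]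
    have h8 : (1 - m * w) ^ 2 ≠ 0 := pow_ne_zero 2 hm.ne'
    rw [div_mul_div_comm, one_mul, div_mul_cancel₀ _ h8]
  rw [e1, e2, e3]
  rfl

theorem one_pm {m w : ℝ} (h0 : 0 ≤ w) (h : |m| * w < 1) : 0 < 1 + m * w ∧ 0 < 1 - m * w := by
  have h1 : |m * w| < 1 := by rw [abs_mul, abs_of_nonneg h0]; exact h
  have h2 := abs_lt.1 h1
  constructor <;> linarith

theorem continuousOn_PsiC {X : Type*} [TopologicalSpace X] {S : Set X} {E m w : X → ℝ}
    (hE : ContinuousOn E S) (hm : ContinuousOn m S) (hw : ContinuousOn w S)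
    (h : ∀ x ∈ S, 0 < 1 + m x * w x ∧ 0 < 1 - m x * w x) :
    ContinuousOn (fun x => PsiC (E x) (m x) (w x)) S := by
  unfold PsiC
  have hs : ContinuousOn (fun x => √(E x)) S := hE.sqrt
  have h1 : ContinuousOn (fun x => w x / (1 + m x * w x)) S :=
    hw.div (by fun_prop) fun x hx => (h x hx).1.ne'
  have h2 : ContinuousOn (fun x => w x / (1 - m x * w x)) S :=
    hw.div (by fun_prop) fun x hx => (h x hx).2.ne'
  have a0 : ContinuousOn (fun x => Real.arctan (√(E x) * w x)) S :=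
    Real.continuous_arctan.comp_continuousOn (hs.mul hw)
  have a1 : ContinuousOn (fun x => Real.arctan (w x / (1 + m x * w x))) S :=
    Real.continuous_arctan.comp_continuousOn h1
  have a2 : ContinuousOn (fun x => Real.arctan (w x / (1 - m x * w x))) S :=
    Real.continuous_arctan.comp_continuousOn h2
  exact (((continuousOn_const.mul hs).mul a0).sub a1).sub a2

theorem continuousOn_QC {X : Type*} [TopologicalSpace X] {S : Set X} {E m w : X → ℝ}
    (hE : ContinuousOn E S) (hm : ContinuousOn m S) (hw : ContinuousOn w S)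
    (h0 : ∀ x ∈ S, 0 < E x) (h : ∀ x ∈ S, 0 < 1 + m x * w x ∧ 0 < 1 - m x * w x) :
    ContinuousOn (fun x => QC (E x) (m x) (w x)) S := by
  unfold QC
  refine ((ContinuousOn.div (by fun_prop) (by fun_prop) fun x hx => ?_).sub
    (ContinuousOn.div (by fun_prop) (by fun_prop) fun x hx => ?_)).sub
    (ContinuousOn.div (by fun_prop) (by fun_prop) fun x hx => ?_)
  · have := h0 x hx
    positivity
  · have := (h x hx).1
    positivity
  · have := (h x hx).2
    positivity

theorem PsiC_zero (E m : ℝ) : PsiC E m 0 = 0 := by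
  unfold PsiC
  simp

theorem monoC : S_monoC := by
  intro m m1 w v mc m1c hE hw hv hd hw0 hwp hint
  have hEc : Continuous fun x => EE (m x) (m1 x) := by
    unfold EE
    fun_prop
  have hall : ∀ x ∈ Icc (0 : ℝ) 1 ×ˢ (univ : Set ℝ),
      0 < 1 + m x.2 * w x.1 x.2 ∧ 0 < 1 - m x.2 * w x.1 x.2 := by
    rintro ⟨c, x⟩ ⟨hc', -⟩
    have hc : c ∈ Icc (0 : ℝ) 1 := hc'
    show 0 < 1 + m x * w c x ∧ 0 < 1 - m x * w c x
    rcases hc.1.eq_or_lt with h | h
    · rw [← h, hw0]
      simp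
    · obtain ⟨h1, h2⟩ := hwp c ⟨h, hc.2⟩ x
      exact one_pm h1.le h2
  set P : ℝ → ℝ → ℝ := fun c θ => PsiC (EE (m θ) (m1 θ)) (m θ) (w c θ) with hP
  set D : ℝ → ℝ → ℝ := fun c θ =>
    QC (EE (m θ) (m1 θ)) (m θ) (w c θ) * v c θ with hD
  have hPcont : ContinuousOn (fun x : ℝ × ℝ => P x.1 x.2) (Icc 0 1 ×ˢ univ) :=
    continuousOn_PsiC (hEc.comp continuous_snd).continuousOn (mc.comp continuous_snd).continuousOn
      hw hall
  have hsub : (Ioo (0 : ℝ) 1 ×ˢ (univ : Set ℝ)) ⊆ Icc (0 : ℝ) 1 ×ˢ univ :=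
    prod_mono Ioo_subset_Icc_self subset_rfl
  have hDcont : ContinuousOn (fun x : ℝ × ℝ => D x.1 x.2) (Ioo 0 1 ×ˢ univ) := by
    have hw' := hw.mono hsub
    exact (continuousOn_QC (hEc.comp continuous_snd).continuousOn
      (mc.comp continuous_snd).continuousOn hw' (fun x _ => hE x.2)
      (fun x hx => hall x (hsub hx))).mul hv
  have hPd : ∀ c ∈ Ioo (0 : ℝ) 1, ∀ θ, HasDerivAt (fun c => P c θ) (D c θ) c := by
    intro c hc θ
    obtain ⟨h1, h2⟩ := hall (c, θ) ⟨Ioo_subset_Icc_self hc, mem_univ _⟩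
    exact (dPsiC (hE θ) h1 h2).comp c (hd c hc θ)
  -- slices
  have hPslice : ∀ c ∈ Icc (0 : ℝ) 1, Continuous (P c) := by
    intro c hc
    rw [← continuousOn_univ]
    exact hPcont.comp (f := fun θ : ℝ => (c, θ)) (by fun_prop) (fun θ _ => ⟨hc, mem_univ _⟩)
  have hDslice : ∀ c ∈ Ioo (0 : ℝ) 1, Continuous (D c) := by
    intro c hc
    rw [← continuousOn_univ]
    exact hDcont.comp (f := fun θ : ℝ => (c, θ)) (by fun_prop) (fun θ _ => ⟨hc, mem_univ _⟩)
  set G : ℝ → ℝ := fun c => ∫ θ in (0 : ℝ)..(2 * π), P c θ with hG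
  have hGcont : ContinuousOn G (Icc 0 1) := by
    set pr : ℝ → ℝ := fun c => max 0 (min 1 c) with hpr
    have hprmem : ∀ c, pr c ∈ Icc (0 : ℝ) 1 := fun c =>
      ⟨le_max_left _ _, max_le zero_le_one (min_le_left _ _)⟩
    have hc2 : Continuous (fun x : ℝ × ℝ => P (pr x.1) x.2) := by
      rw [← continuousOn_univ]
      refine hPcont.comp (f := fun x : ℝ × ℝ => (pr x.1, x.2)) (by fun_prop)
        (fun x _ => ⟨hprmem _, mem_univ _⟩)
    have hc3 : Continuous (fun c => ∫ θ in (0 : ℝ)..(2 * π), P (pr c) θ) :=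
      intervalIntegral.continuous_parametric_intervalIntegral_of_continuous' hc2 0 (2 * π)
    refine hc3.continuousOn.congr ?_
    intro c hc
    have : pr c = c := by
      simp only [hpr]
      rw [min_eq_right hc.2, max_eq_right hc.1]
    simp only [hG, this]
  have hGd : ∀ c ∈ Ioo (0 : ℝ) 1, HasDerivAt G (∫ θ in (0 : ℝ)..(2 * π), D c θ) c := by
    intro c hc
    obtain ⟨ε, hε, hball⟩ := Metric.isOpen_iff.1 isOpen_Ioo c hc
    have hcb : Metric.closedBall c (ε / 2) ⊆ Ioo 0 1 := fun x hx =>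
      hball (lt_of_le_of_lt (Metric.mem_closedBall.1 hx) (by linarith))
    have hcomp : IsCompact (Metric.closedBall c (ε / 2) ×ˢ Icc (0 : ℝ) (2 * π)) :=
      (isCompact_closedBall _ _).prod isCompact_Icc
    obtain ⟨K, hK⟩ := hcomp.exists_bound_of_continuousOn
      (hDcont.mono (prod_mono hcb (subset_univ _)))
    have h2pi : (0 : ℝ) ≤ 2 * π := by positivity
    have hmem : Metric.ball c (ε / 2) ∈ 𝓝 c := Metric.ball_mem_nhds _ (by linarith)
    refine (intervalIntegral.hasDerivAt_integral_of_dominated_loc_of_deriv_le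
      (μ := volume) (F := P) (F' := D) (bound := fun _ => K) (a := 0) (b := 2 * π)
      hmem ?_ ?_ ?_ ?_ ?_ ?_).2
    · filter_upwards [hmem] with x hx
      exact (hPslice x (Ioo_subset_Icc_self (hcb (Metric.ball_subset_closedBall hx)))).aestronglyMeasurable
    · exact (hPslice c (Ioo_subset_Icc_self hc)).intervalIntegrable _ _
    · exact (hDslice c hc).aestronglyMeasurable
    · refine Eventually.of_forall fun θ hθ x hx => ?_
      rw [uIoc_of_le h2pi] at hθ
      exact hK (x, θ) ⟨Metric.ball_subset_closedBall hx, ⟨hθ.1.le, hθ.2⟩⟩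
    · exact intervalIntegrable_const
    · refine Eventually.of_forall fun θ _ x hx => ?_
      exact hPd x (hcb (Metric.ball_subset_closedBall hx)) θ
  have hmono : MonotoneOn G (Icc 0 1) := by
    refine monotoneOn_of_deriv_nonneg (convex_Icc _ _) hGcont ?_ ?_
    · intro c hc
      rw [interior_Icc] at hc
      exact (hGd c hc).differentiableAt.differentiableWithinAt
    · intro c hc
      rw [interior_Icc] at hc
      rw [(hGd c hc).deriv]
      exact hint c hc
  have hG0 : G 0 = 0 := by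
    simp only [hG, hP, hw0, PsiC_zero, intervalIntegral.integral_zero]
  have hG1 : 0 ≤ G 1 := by
    rw [← hG0]
    exact hmono (left_mem_Icc.2 zero_le_one) (right_mem_Icc.2 zero_le_one) zero_le_one
  refine ⟨hG1, fun hle c hc => ?_⟩
  have hle' : G 1 ≤ 0 := hle
  have hz : ∀ x ∈ Icc (0 : ℝ) 1, G x = 0 := by
    intro x hx
    apply le_antisymm
    · exact (hmono hx (right_mem_Icc.2 zero_le_one) hx.2).trans hle'
    · rw [← hG0]
      exact hmono (left_mem_Icc.2 zero_le_one) hx hx.1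
  have hev : G =ᶠ[𝓝 c] fun _ => (0 : ℝ) := by
    filter_upwards [isOpen_Ioo.mem_nhds hc] with x hx
    exact hz x (Ioo_subset_Icc_self hx)
  have h0 : HasDerivAt G 0 c := (hasDerivAt_const c (0 : ℝ)).congr_of_eventuallyEq hev
  exact (hGd c hc).unique h0

end Pool.Agent.H97.CT
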