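import Pool.Agent.H97.CT.Stubs
import Pool.Agent.H97.CT.Mono
import Pool.Agent.H97.IN.Geo

/-! # CT-GEO: the conics (helper29) -/

set_option autoImplicit false

open Set MeasureTheory Filter Topology Complex
open scoped Real

namespace Pool.Agent.H97.CT

open Pool.Agent.H97.OB Pool.Agent.H97.OC

theorem range_circ (z : ℂ) : z ∈ range circ ↔ z.re ^ 2 + z.im ^ 2 - 1 = 0 := by
  constructor
  · rintro ⟨θ, rfl⟩
    have h1 : (circ θ).re = Real.cos θ := by
      unfold circ; rw [Complex.exp_ofReal_mul_I_re]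
    have h2 : (circ θ).im = Real.sin θ := by
      unfold circ; rw [Complex.exp_ofReal_mul_I_im]
    rw [h1, h2]
    linarith [Real.cos_sq_add_sin_sq θ]
  · intro h
    have h1 : ‖z‖ = 1 := by
      have h2 : ‖z‖ ^ 2 = 1 := by
        rw [← Complex.normSq_eq_norm_sq, Complex.normSq_apply]
        linarith
      have h3 := norm_nonneg z
      nlinarith
    refine ⟨arg z, ?_⟩
    have h4 := Complex.norm_mul_exp_arg_mul_I z
    rw [h1, Complex.ofReal_one, one_mul] at h4
    exact h4

theorem geoC : S_geoC := by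
  intro Y m m1 G G1 G2 w u v hF hY0 A B C hC hAB hm hk
  have cm : Continuous m := continuous_iff_continuousAt.2 fun x => (hF.md x).continuousAt
  have hq : ∀ x, 0 < A * Real.cos (2 * x) + B * Real.sin (2 * x) + C := by
    intro x
    have h1 : (A * Real.cos (2 * x) + B * Real.sin (2 * x)) ^ 2 < C ^ 2 := by
      have h2 := Real.cos_sq_add_sin_sq (2 * x)
      have h3 : (A * Real.cos (2 * x) + B * Real.sin (2 * x)) ^ 2 +
          (A * Real.sin (2 * x) - B * Real.cos (2 * x)) ^ 2 = A ^ 2 + B ^ 2 := by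
        linear_combination (A ^ 2 + B ^ 2) * h2
      linarith [sq_nonneg (A * Real.sin (2 * x) - B * Real.cos (2 * x))]
    have h4 := abs_lt_of_sq_lt_sq h1 hC.le
    linarith [(abs_lt.1 h4).1]
  have hAC : |A| < C := abs_lt_of_sq_lt_sq (by nlinarith [sq_nonneg B]) hC.le
  have hA' := abs_lt.1 hAC
  refine ⟨C + A, B, C - A, by linarith, by nlinarith, fun c hc0 hc1 => ?_⟩
  rcases hc0.eq_or_lt with rfl | hc
  · refine ⟨0, le_rfl, by norm_num, by norm_num, fun z => ?_⟩
    rw [hY0, range_circ, zero_mul]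
  obtain ⟨k, hk0, hkq⟩ := hk c hc hc1
  have cw : Continuous (w c) :=
    continuous_iff_continuousAt.2 fun x => (hF.wd c hc hc1 x).continuousAt
  have hpm : ∀ x, 0 < 1 + m x * w c x ∧ 0 < 1 - m x * w c x := fun x =>
    one_pm (hF.wpos c hc hc1 x).1.le (hF.wpos c hc hc1 x).2
  have tppos : ∀ x, 0 < tp (m x) (w c x) := fun x => div_pos (hF.wpos c hc hc1 x).1 (hpm x).1
  have ctp : Continuous fun x => tp (m x) (w c x) := by
    unfold tp
    exact Continuous.div (by fun_prop) (by fun_prop) fun x => (hpm x).1.ne'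
  have cb : Continuous fun x => Real.arctan (tp (m x) (w c x)) := Real.continuous_arctan.comp ctp
  have bpos : ∀ x, 0 < Real.arctan (tp (m x) (w c x)) ∧ Real.arctan (tp (m x) (w c x)) < π / 2 :=
    fun x => ⟨Real.arctan_pos.2 (tppos x), Real.arctan_lt_pi_div_two _⟩
  have hsurj : Function.Surjective fun x => x + Real.arctan (tp (m x) (w c x)) := by
    apply (continuous_id.add cb).surjective
    · refine tendsto_atTop_mono (fun x => ?_) tendsto_id
      show x ≤ x + Real.arctan (tp (m x) (w c x))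
      linarith [(bpos x).1]
    · refine tendsto_atBot_mono (fun x => ?_)
        (tendsto_atBot_add_const_right _ (π / 2) tendsto_id)
      show x + Real.arctan (tp (m x) (w c x)) ≤ x + π / 2
      linarith [(bpos x).2]
  -- the curve lies on the conic
  have hsq : ∀ φ, G c φ ^ 2 = (1 - 1 / k * (C + A)) * Real.cos φ ^ 2 +
      2 * (-(1 / k * B)) * (Real.cos φ * Real.sin φ) +
      (1 - 1 / k * (C - A)) * Real.sin φ ^ 2 := by
    intro φ
    have e0 : (1 - 1 / k * (C + A)) * Real.cos φ ^ 2 +
        2 * (-(1 / k * B)) * (Real.cos φ * Real.sin φ) +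
        (1 - 1 / k * (C - A)) * Real.sin φ ^ 2 =
        1 - 1 / k * (A * Real.cos (2 * φ) + B * Real.sin (2 * φ) + C) := by
      have h1 := Real.cos_sq_add_sin_sq φ
      rw [Real.cos_two_mul, Real.sin_two_mul]
      linear_combination (1 - 1 / k * C + 1 / k * A) * h1
    rw [e0]
    obtain ⟨x, rfl⟩ := hsurj φ
    simp only
    rw [hF.plus c hc hc1 x]
    have hw := (hF.wpos c hc hc1 x).1
    have hqx := hq x
    have e1 := hkq x
    have e2 := hm x
    have e3 := Real.cos_sq_add_sin_sq (2 * x)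
    have hcb : 0 < Real.cos (Real.arctan (tp (m x) (w c x))) := Real.cos_arctan_pos _
    have t1 : Real.sin (Real.arctan (tp (m x) (w c x))) * (1 + m x * w c x) =
        w c x * Real.cos (Real.arctan (tp (m x) (w c x))) := by
      have h1 : Real.tan (Real.arctan (tp (m x) (w c x))) = w c x / (1 + m x * w c x) :=
        Real.tan_arctan _
      have h2 := Real.tan_mul_cos hcb.ne'
      rw [h1] at h2
      rw [← h2]
      have := (hpm x).1.ne'
      rw [div_mul_eq_mul_div, div_mul_cancel₀ _ this]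
    have t2 := Real.cos_sq_add_sin_sq (Real.arctan (tp (m x) (w c x)))
    have t3 : A * Real.cos (2 * (x + Real.arctan (tp (m x) (w c x)))) +
        B * Real.sin (2 * (x + Real.arctan (tp (m x) (w c x)))) =
        (2 * Real.cos (Real.arctan (tp (m x) (w c x))) ^ 2 - 1) *
          (A * Real.cos (2 * x) + B * Real.sin (2 * x)) -
        2 * Real.sin (Real.arctan (tp (m x) (w c x))) *
          Real.cos (Real.arctan (tp (m x) (w c x))) *
          (A * Real.sin (2 * x) - B * Real.cos (2 * x)) := by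
      rw [mul_add, Real.cos_add, Real.sin_add,
        Real.cos_two_mul (Real.arctan (tp (m x) (w c x))),
        Real.sin_two_mul (Real.arctan (tp (m x) (w c x)))]
      ring
    rw [t3, ← e2]
    clear t3
    have hpos1 := (hpm x).1
    generalize Real.sin (Real.arctan (tp (m x) (w c x))) = S at *
    generalize Real.cos (Real.arctan (tp (m x) (w c x))) = K at *
    generalize Real.cos (2 * x) = cx at *
    generalize Real.sin (2 * x) = sx at *
    generalize m x = mm at *
    generalize w c x = ww at *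
    obtain ⟨q, hqd⟩ : ∃ q, q = A * cx + B * sx + C := ⟨_, rfl⟩
    rw [← hqd] at e1 e2 hqx
    rw [← hqd]
    have e4 : A * cx + B * sx = q - C := by rw [hqd]; ring
    rw [e4]
    -- the relation `k q = q (q / w² - m² q + 2 C - q)`
    have e5 : mm ^ 2 * q ^ 2 = A ^ 2 + B ^ 2 - (q - C) ^ 2 := by
      rw [← e4]
      have : mm ^ 2 * q ^ 2 = (mm * q) ^ 2 := by ring
      rw [this, e2]
      linear_combination (A ^ 2 + B ^ 2) * e3
    have e6 : k * ww ^ 2 = q - mm ^ 2 * q * ww ^ 2 + (2 * C - q) * ww ^ 2 := by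
      have h1 : q * (k * ww ^ 2) = q * (q - mm ^ 2 * q * ww ^ 2 + (2 * C - q) * ww ^ 2) := by
        linear_combination (-1) * e1 + ww ^ 2 * e5
      exact mul_left_cancel₀ hqx.ne' h1
    have e7 : k * S ^ 2 = (2 * K ^ 2 - 1) * (q - C) - 2 * S * K * (mm * q) + C := by
      have h2 : (1 + mm * ww) ^ 2 * (k * S ^ 2) = (1 + mm * ww) ^ 2 *
          ((2 * K ^ 2 - 1) * (q - C) - 2 * S * K * (mm * q) + C) := by
        have h3 : (1 + mm * ww) ^ 2 * S ^ 2 = ww ^ 2 * K ^ 2 := by
          have : (S * (1 + mm * ww)) ^ 2 = (ww * K) ^ 2 := by rw [t1]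
          linear_combination this
        have h4 : (1 + mm * ww) ^ 2 * ((2 * K ^ 2 - 1) * (q - C) - 2 * S * K * (mm * q) + C) =
            (1 + mm * ww) ^ 2 * K ^ 2 * q - 2 * (1 + mm * ww) * K * (S * (1 + mm * ww)) * (mm * q) +
              (2 * C - q) * ((1 + mm * ww) ^ 2 * S ^ 2) := by
          linear_combination (-(1 + mm * ww) ^ 2) * (2 * C - q) * t2
        rw [h4, h3, t1]
        have h5 : (1 + mm * ww) ^ 2 * (k * S ^ 2) = k * ww ^ 2 * K ^ 2 := by
          linear_combination k * h3
        rw [h5, e6]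
        ring
      exact mul_left_cancel₀ (pow_ne_zero 2 hpos1.ne') h2
    have e8 : 1 / k * ((2 * K ^ 2 - 1) * (q - C) - 2 * S * K * (mm * q) + C) = S ^ 2 := by
      rw [← e7]
      field_simp
    rw [e8]
    linarith
  obtain ⟨d1, d2, d3⟩ := Pool.Agent.H97.IN.Geo.conic (H := G c) (HC := G c) (C := 0)
    (A := 1 - 1 / k * (C + A)) (B := -(1 / k * B)) (D := 1 - 1 / k * (C - A))
    (hF.Gpos c hc hc1) (fun φ => by simp) hsq
  simp only [Complex.zero_re, Complex.zero_im, mul_zero, zero_mul, sub_zero, add_zero, ne_eq,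
    OfNat.ofNat_ne_zero, not_false_eq_true, zero_pow] at d1 d2 d3
  refine ⟨1 / k, by positivity, d1, by linarith [d2, neg_sq (1 / k * B)], fun z => ?_⟩
  rw [hF.leaf c hc hc1, d3]
  constructor
  · intro he
    linear_combination he
  · intro he
    linear_combination he

end Pool.Agent.H97.CT
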