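import Pool.Agent.H97.CT.Stubs

/-!
CT-HALF: the substitution argument on the leaf of 4-periodic orbits.
-/

set_option autoImplicit false

open Set MeasureTheory Filter Topology Complex
open scoped Real

namespace Pool.Agent.H97.CT

open Pool.Agent.H97.OB Pool.Agent.H97.OC

theorem half : S_half := by
  intro m m1 b b1 L
  have hbc : Continuous b := continuous_iff_continuousAt.2 fun x => (L.bd x).continuousAt
  have hmc : Continuous m := continuous_iff_continuousAt.2 fun x => (L.md x).continuousAt
  have hm1c := L.mc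
  have hb1c := L.bc
  have hs : ∀ x, 0 < Real.sin (2 * b x) := fun x =>
    Real.sin_pos_of_pos_of_lt_pi (by linarith [(L.b0 x).1]) (by linarith [(L.b0 x).2])
  have hsc : ∀ x, Real.sin (2 * b x) ^ 2 + Real.cos (2 * b x) ^ 2 = 1 :=
    fun x => Real.sin_sq_add_cos_sq _
  have hsd : ∀ x, HasDerivAt (fun x => Real.sin (2 * b x)) (2 * b1 x * Real.cos (2 * b x)) x :=
    fun x => (((L.bd x).const_mul 2).sin).congr_deriv (by ring)
  have hcd : ∀ x, HasDerivAt (fun x => Real.cos (2 * b x)) (-(2 * b1 x * Real.sin (2 * b x))) x :=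
    fun x => (((L.bd x).const_mul 2).cos).congr_deriv (by ring)
  have hm1 : ∀ x, m1 x * Real.sin (2 * b x) ^ 2 = - (2 * b1 x) := by
    intro x
    have h1 := (L.md x).mul (hsd x)
    have h2 : (fun x => m x * Real.sin (2 * b x)) = fun x => Real.cos (2 * b x) := funext L.mb
    have h3 : m1 x * Real.sin (2 * b x) + m x * (2 * b1 x * Real.cos (2 * b x)) =
        -(2 * b1 x * Real.sin (2 * b x)) := by
      refine HasDerivAt.unique ?_ (hcd x)
      rw [← h2]; exact h1
    have h4 := L.mb x
    have h5 := hsc x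
    linear_combination Real.sin (2 * b x) * h3 - 2 * b1 x * Real.cos (2 * b x) * h4
      - 2 * b1 x * h5
  have hE : ∀ x, EE (m x) (m1 x) * Real.sin (2 * b x) ^ 2 = 1 + 2 * b1 x := by
    intro x
    unfold EE
    linear_combination hsc x - hm1 x + (m x * Real.sin (2 * b x) + Real.cos (2 * b x)) * L.mb x
  have hEp : ∀ x, 0 < EE (m x) (m1 x) := by
    intro x
    have h := L.fpos x
    rw [← hE x] at h
    exact (mul_pos_iff_of_pos_right (pow_pos (hs x) 2)).1 h
  have hsq : ∀ x, √(EE (m x) (m1 x)) * Real.sin (2 * b x) = √(1 + 2 * b1 x) := by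
    intro x
    rw [← hE x, Real.sqrt_mul (hEp x).le, Real.sqrt_sq (hs x).le]
  have hbπ : ∀ x, b (x + π) = b x := by
    intro x
    have h1 := L.bf (x + 2 * b x)
    rw [L.bf x] at h1
    have h2 : x + 2 * b x + 2 * (π / 2 - b x) = x + π := by ring
    rw [h2] at h1
    linarith
  have hmπ : ∀ x, m (x + π) = m x := by
    intro x
    have h1 := L.mb (x + π)
    rw [hbπ x, ← L.mb x] at h1
    exact mul_right_cancel₀ (hs x).ne' h1
  have hsf : ∀ x, Real.sin (2 * b (x + 2 * b x)) = Real.sin (2 * b x) := by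
    intro x
    rw [L.bf x, show 2 * (π / 2 - b x) = π - 2 * b x by ring, Real.sin_pi_sub]
  have hmf : ∀ x, m (x + 2 * b x) = - m x := by
    intro x
    have h1 := L.mb (x + 2 * b x)
    rw [hsf x, L.bf x, show 2 * (π / 2 - b x) = π - 2 * b x by ring, Real.cos_pi_sub,
      ← L.mb x] at h1
    refine mul_right_cancel₀ (hs x).ne' ?_
    rw [h1]; ring
  have hfd : ∀ x, HasDerivAt (fun x => x + 2 * b x) (1 + 2 * b1 x) x :=
    fun x => (hasDerivAt_id' x).add ((L.bd x).const_mul 2)
  have hkf : ∀ x, (1 + 2 * b1 (x + 2 * b x)) * (1 + 2 * b1 x) = 1 := by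
    intro x
    have h1 : HasDerivAt (fun x => b (x + 2 * b x)) (b1 (x + 2 * b x) * (1 + 2 * b1 x)) x :=
      HasDerivAt.comp x (h₂ := b) (h := fun x => x + 2 * b x) (L.bd _) (hfd x)
    have h2 : (fun x => b (x + 2 * b x)) = fun x => π / 2 - b x := funext L.bf
    have h3 : HasDerivAt (fun x => π / 2 - b x) (- b1 x) x := by
      have := (L.bd x).const_sub (π / 2)
      exact this
    rw [h2] at h1
    have h4 := h1.unique h3
    linear_combination 2 * h4
  have hsub : ∀ h : ℝ → ℝ, Continuous h → (∀ x, h (x + 2 * π) = h x) →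
      ∫ x in (0 : ℝ)..(2 * π), h (x + 2 * b x) * (1 + 2 * b1 x) =
        ∫ x in (0 : ℝ)..(2 * π), h x := by
    intro h hc hp
    have h1 := intervalIntegral.integral_comp_mul_deriv (f := fun x => x + 2 * b x)
      (f' := fun x => 1 + 2 * b1 x) (g := h) (a := 0) (b := 2 * π) (fun x _ => hfd x)
      (by fun_prop) hc
    have h2 : 2 * π + 2 * b (2 * π) = (0 + 2 * b 0) + 2 * π := by
      have := L.bper 0
      rw [zero_add] at this
      rw [this]; ring
    have hper : Function.Periodic h (2 * π) := hp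
    have h3 := hper.intervalIntegral_add_eq (0 + 2 * b 0) 0
    simp only [Function.comp_def] at h1
    rw [h2] at h1
    rw [h1, h3, zero_add]
  have hEf : ∀ x, √(EE (m (x + 2 * b x)) (m1 (x + 2 * b x))) * (1 + 2 * b1 x) =
      √(EE (m x) (m1 x)) := by
    intro x
    have h1 := hE (x + 2 * b x)
    rw [hsf x] at h1
    have h2 := hE x
    have h3 := hkf x
    have h4 : EE (m (x + 2 * b x)) (m1 (x + 2 * b x)) * (1 + 2 * b1 x) ^ 2 = EE (m x) (m1 x) := by
      refine mul_right_cancel₀ (pow_pos (hs x) 2).ne' ?_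
      linear_combination (1 + 2 * b1 x) ^ 2 * h1 - h2 + (1 + 2 * b1 x) * h3
    rw [← h4, Real.sqrt_mul (hEp _).le, Real.sqrt_sq (L.fpos x).le]
  have hat : ∀ x, Real.arctan (√(EE (m (x + 2 * b x)) (m1 (x + 2 * b x))) *
      Real.sin (2 * b (x + 2 * b x))) =
      π / 2 - Real.arctan (√(EE (m x) (m1 x)) * Real.sin (2 * b x)) := by
    intro x
    rw [hsq, hsq]
    have h1 : 1 + 2 * b1 (x + 2 * b x) = (1 + 2 * b1 x)⁻¹ :=
      eq_inv_of_mul_eq_one_left (hkf x)
    rw [h1, Real.sqrt_inv, Real.arctan_inv_of_pos (Real.sqrt_pos.2 (L.fpos x))]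
  have hmper : ∀ x, m (x + 2 * π) = m x := by
    intro x
    rw [show x + 2 * π = (x + π) + π by ring, hmπ, hmπ]
  have hm1per : ∀ x, m1 (x + 2 * π) = m1 x := by
    intro x
    have h1 : HasDerivAt (fun y => m (y + 2 * π)) (m1 (x + 2 * π)) x := by
      have := HasDerivAt.comp_add_const x (2 * π) (L.md (x + 2 * π))
      exact this
    have h2 : (fun y => m (y + 2 * π)) = m := funext hmper
    rw [h2] at h1
    exact h1.unique (L.md x)
  have hEc : Continuous fun x => √(EE (m x) (m1 x)) := by
    unfold EE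
    fun_prop
  refine ⟨hEp, hmπ, ?_, ?_⟩
  · -- the integral of m
    have h1 := hsub m hmc hmper
    have h2 : ∫ x in (0 : ℝ)..(2 * π), m x * b1 x = 0 := by
      have h3 : ∀ x ∈ uIcc (0 : ℝ) (2 * π),
          HasDerivAt (fun x => Real.log (Real.sin (2 * b x)) / 2) (m x * b1 x) x := by
        intro x _
        refine (((hsd x).log (hs x).ne').div_const 2).congr_deriv ?_
        have h4 := L.mb x
        have h5 := (hs x).ne'
        field_simp
        linear_combination - b1 x * h4
      rw [intervalIntegral.integral_eq_sub_of_hasDerivAt h3 ((hmc.mul hb1c).intervalIntegrable _ _)]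
      have := L.bper 0
      rw [zero_add] at this
      rw [this]; ring
    have h3 : ∫ x in (0 : ℝ)..(2 * π), m (x + 2 * b x) * (1 + 2 * b1 x) =
        ∫ x in (0 : ℝ)..(2 * π), (- m x - 2 * (m x * b1 x)) := by
      refine intervalIntegral.integral_congr fun x _ => ?_
      simp only [hmf x]
      ring
    have h4 : ∫ x in (0 : ℝ)..(2 * π), (- m x - 2 * (m x * b1 x)) =
        (∫ x in (0 : ℝ)..(2 * π), - m x) - ∫ x in (0 : ℝ)..(2 * π), 2 * (m x * b1 x) :=
      intervalIntegral.integral_sub (hmc.neg.intervalIntegrable _ _)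
        (((hmc.mul hb1c).const_mul 2).intervalIntegrable _ _)
    rw [h3, h4, intervalIntegral.integral_neg, intervalIntegral.integral_const_mul, h2] at h1
    linarith
  · set F : ℝ → ℝ := fun x => 2 * √(EE (m x) (m1 x)) *
      Real.arctan (√(EE (m x) (m1 x)) * Real.sin (2 * b x)) with hF
    have hFc : Continuous F := by
      rw [hF]
      exact (continuous_const.mul hEc).mul
        (Real.continuous_arctan.comp (hEc.mul (Real.continuous_sin.comp (continuous_const.mul hbc))))
    have hFp : ∀ x, F (x + 2 * π) = F x := by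
      intro x
      simp only [hF, hmper, hm1per, L.bper]
    have h1 := hsub F hFc hFp
    have h2 : ∫ x in (0 : ℝ)..(2 * π), F (x + 2 * b x) * (1 + 2 * b1 x) =
        ∫ x in (0 : ℝ)..(2 * π), (π * √(EE (m x) (m1 x)) - F x) := by
      refine intervalIntegral.integral_congr fun x _ => ?_
      simp only [hF]
      rw [hat x]
      linear_combination 2 * (π / 2 - Real.arctan (√(EE (m x) (m1 x)) * Real.sin (2 * b x))) *
        hEf x
    rw [h2, intervalIntegral.integral_sub ((hEc.const_mul π).intervalIntegrable _ _)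
      (hFc.intervalIntegrable _ _), intervalIntegral.integral_const_mul] at h1
    rw [intervalIntegral.integral_sub (hFc.intervalIntegrable _ _)
      (continuous_const.intervalIntegrable _ _), intervalIntegral.integral_const]
    simp only [smul_eq_mul]
    linarith

end Pool.Agent.H97.CT
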