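import Pool.Agent.H97.CT.Stubs
import Pool.Agent.H97.CT.Mono
import Pool.Agent.H97.IN.Hopf

/-! # CT-HOPF: the integrated identity on one leaf (helper29) -/

set_option autoImplicit false

open Set MeasureTheory Filter Topology
open scoped Real

namespace Pool.Agent.H97.CT

open Pool.Agent.H97.IN (hopf3_int)

/-- the algebra behind the identity -/
theorem alg {A B W D D' X X' Y E N v : ℝ} (hW : W ≠ 0) (hD : D ≠ 0) (hD' : D' ≠ 0) (hX : X ≠ 0)
    (hX' : X' ≠ 0) (hY : Y ≠ 0) (hA : A ^ 2 = D - W) (hB : B ^ 2 = D' - W) (hYE : Y = 1 + E * W)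
    (hN : 2 * N ^ 2 = A ^ 2 * X' * Y + B ^ 2 * X * Y - 2 * X * X') :
    2 * N ^ 2 / (W * (X * X') * Y) * v = (2 * E / Y - 1 / D - 1 / D') * v +
      (B ^ 2 / W * v * ((D' - X') / D') / X' - A ^ 2 / W * v * ((X - D) / D) / X) := by
  have h1 : A ^ 2 / W * v * ((X - D) / D) / X = v * (1 / W - 1 / D) - v * (A ^ 2 / (W * X)) := by
    have e1 : A ^ 2 / W * v * ((X - D) / D) / X = v * (A ^ 2 / (W * D)) - v * (A ^ 2 / (W * X)) := by
      field_simp
    have e2 : A ^ 2 / (W * D) = 1 / W - 1 / D := by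
      rw [hA]
      field_simp
    rw [e1, e2]
  have h2 : B ^ 2 / W * v * ((D' - X') / D') / X' =
      v * (B ^ 2 / (W * X')) - v * (1 / W - 1 / D') := by
    have e1 : B ^ 2 / W * v * ((D' - X') / D') / X' =
        v * (B ^ 2 / (W * X')) - v * (B ^ 2 / (W * D')) := by
      field_simp
    have e2 : B ^ 2 / (W * D') = 1 / W - 1 / D' := by
      rw [hB]
      field_simp
    rw [e1, e2]
  have h3 : 2 * N ^ 2 / (W * (X * X') * Y) =
      A ^ 2 / (W * X) + B ^ 2 / (W * X') - 2 / (W * Y) := by
    rw [hN]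
    field_simp
  have h4 : 2 * E / Y = 2 / W - 2 / (W * Y) := by
    field_simp
    rw [hYE]
    ring
  rw [h1, h2, h3, h4]
  ring

theorem hopfC : S_hopfC := by
  intro m m1 w u v G G1 G2 cm1 md mp cu cv cG1 cG2 wd wpos wper Gpos Gper G2per Gd posp posm
    plus minus G2p G2m
  have cm : Continuous m := continuous_iff_continuousAt.2 fun x => (md x).continuousAt
  have cw : Continuous w := continuous_iff_continuousAt.2 fun x => (wd x).continuousAt
  have cG : Continuous G := continuous_iff_continuousAt.2 fun x => (Gd x).continuousAt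
  have hpm : ∀ x, 0 < 1 + m x * w x ∧ 0 < 1 - m x * w x := fun x =>
    one_pm (wpos x).1.le (wpos x).2
  have hD : ∀ x, 0 < (1 + m x * w x) ^ 2 + w x ^ 2 := fun x => by
    have := (hpm x).1
    positivity
  have hD' : ∀ x, 0 < (1 - m x * w x) ^ 2 + w x ^ 2 := fun x => by
    have := (hpm x).2
    positivity
  set b : ℝ → ℝ := fun x => Real.arctan (tp (m x) (w x)) with hb
  set e : ℝ → ℝ := fun x => Real.arctan (tm (m x) (w x)) with he
  set b1 : ℝ → ℝ := fun x => (u x - m1 x * w x ^ 2) / ((1 + m x * w x) ^ 2 + w x ^ 2) with hb1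
  set e1 : ℝ → ℝ := fun x => (u x + m1 x * w x ^ 2) / ((1 - m x * w x) ^ 2 + w x ^ 2) with he1
  have tppos : ∀ x, 0 < tp (m x) (w x) := fun x => div_pos (wpos x).1 (hpm x).1
  have tmpos : ∀ x, 0 < tm (m x) (w x) := fun x => div_pos (wpos x).1 (hpm x).2
  -- derivatives
  have bd : ∀ x, HasDerivAt b (b1 x) x := by
    intro x
    have hmw : HasDerivAt (fun x => 1 + m x * w x) (m1 x * w x + m x * u x) x :=
      ((md x).mul (wd x)).const_add 1
    have h := ((wd x).div hmw (hpm x).1.ne').arctan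
    refine h.congr_deriv ?_
    have h1 := (hpm x).1.ne'
    have h2 := (hD x).ne'
    have h3 : 1 + (w x / (1 + m x * w x)) ^ 2 =
        ((1 + m x * w x) ^ 2 + w x ^ 2) / (1 + m x * w x) ^ 2 := by
      rw [div_pow, add_div, div_self (pow_ne_zero 2 h1)]
    have h4 : u x * (1 + m x * w x) - w x * (m1 x * w x + m x * u x) = u x - m1 x * w x ^ 2 := by
      ring
    show 1 / (1 + (w x / (1 + m x * w x)) ^ 2) *
      ((u x * (1 + m x * w x) - w x * (m1 x * w x + m x * u x)) / (1 + m x * w x) ^ 2) =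
      (u x - m1 x * w x ^ 2) / ((1 + m x * w x) ^ 2 + w x ^ 2)
    rw [h3, h4]
    rw [one_div_div, div_mul_div_comm, mul_comm ((1 + m x * w x) ^ 2),
      mul_div_mul_right _ _ (pow_ne_zero 2 h1)]
  have ed : ∀ x, HasDerivAt e (e1 x) x := by
    intro x
    have hmw : HasDerivAt (fun x => 1 - m x * w x) (-(m1 x * w x + m x * u x)) x :=
      ((md x).mul (wd x)).const_sub 1
    have h := ((wd x).div hmw (hpm x).2.ne').arctan
    refine h.congr_deriv ?_
    have h1 := (hpm x).2.ne'
    have h2 := (hD' x).ne'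
    have h3 : 1 + (w x / (1 - m x * w x)) ^ 2 =
        ((1 - m x * w x) ^ 2 + w x ^ 2) / (1 - m x * w x) ^ 2 := by
      rw [div_pow, add_div, div_self (pow_ne_zero 2 h1)]
    have h4 : u x * (1 - m x * w x) - w x * -(m1 x * w x + m x * u x) = u x + m1 x * w x ^ 2 := by
      ring
    show 1 / (1 + (w x / (1 - m x * w x)) ^ 2) *
      ((u x * (1 - m x * w x) - w x * -(m1 x * w x + m x * u x)) / (1 - m x * w x) ^ 2) =
      (u x + m1 x * w x ^ 2) / ((1 - m x * w x) ^ 2 + w x ^ 2)
    rw [h3, h4]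
    rw [one_div_div, div_mul_div_comm, mul_comm ((1 - m x * w x) ^ 2),
      mul_div_mul_right _ _ (pow_ne_zero 2 h1)]
  have cb : Continuous b := continuous_iff_continuousAt.2 fun x => (bd x).continuousAt
  have ce : Continuous e := continuous_iff_continuousAt.2 fun x => (ed x).continuousAt
  have cb1 : Continuous b1 := Continuous.div (by fun_prop) (by fun_prop) fun x => (hD x).ne'
  have ce1 : Continuous e1 := Continuous.div (by fun_prop) (by fun_prop) fun x => (hD' x).ne'
  have bpos : ∀ x, 0 < b x ∧ b x < π / 2 := fun x =>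
    ⟨Real.arctan_pos.2 (tppos x), Real.arctan_lt_pi_div_two _⟩
  have epos : ∀ x, 0 < e x ∧ e x < π / 2 := fun x =>
    ⟨Real.arctan_pos.2 (tmpos x), Real.arctan_lt_pi_div_two _⟩
  -- `G < 1`
  have hsurj : Function.Surjective fun x => x + b x := by
    apply (continuous_id.add cb).surjective
    · refine tendsto_atTop_mono (fun x => ?_) tendsto_id
      show x ≤ x + b x
      linarith [(bpos x).1]
    · refine tendsto_atBot_mono (fun x => ?_)
        (tendsto_atBot_add_const_right _ (π / 2) tendsto_id)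
      show x + b x ≤ x + π / 2
      linarith [(bpos x).2]
  have sbpos : ∀ x, 0 < Real.sin (b x) := fun x =>
    Real.sin_pos_of_pos_of_lt_pi (bpos x).1 (by linarith [(bpos x).2, Real.pi_pos])
  have cbpos : ∀ x, 0 < Real.cos (b x) := fun x =>
    Real.cos_pos_of_mem_Ioo ⟨by linarith [(bpos x).1, Real.pi_pos], (bpos x).2⟩
  have sepos : ∀ x, 0 < Real.sin (e x) := fun x =>
    Real.sin_pos_of_pos_of_lt_pi (epos x).1 (by linarith [(epos x).2, Real.pi_pos])
  have cepos : ∀ x, 0 < Real.cos (e x) := fun x =>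
    Real.cos_pos_of_mem_Ioo ⟨by linarith [(epos x).1, Real.pi_pos], (epos x).2⟩
  have hG1 : ∀ φ, 1 - G φ ^ 2 ≠ 0 := by
    intro φ
    obtain ⟨x, rfl⟩ := hsurj φ
    simp only
    have h1 : G (x + b x) = Real.cos (b x) := plus x
    rw [h1]
    have h2 := Real.sin_sq_add_cos_sq (b x)
    have h3 : 1 - Real.cos (b x) ^ 2 = Real.sin (b x) ^ 2 := by linarith
    rw [h3]
    exact pow_ne_zero 2 (sbpos x).ne'
  have G1per : ∀ φ, G1 (φ + 2 * π) = G1 φ := fun φ => by
    have h1 : HasDerivAt (fun y => G (y + 2 * π)) (G1 (φ + 2 * π)) φ :=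
      (Gd (φ + 2 * π)).comp_add_const φ (2 * π)
    have h3 : (fun y => G (y + 2 * π)) = G := funext Gper
    rw [h3] at h1
    exact h1.unique (Gd φ)
  set g : ℝ → ℝ := fun φ => -(G φ ^ 2 * G1 φ * G2 φ) / (1 - G φ ^ 2) ^ 2 with hg
  have cg : Continuous g :=
    Continuous.div (by fun_prop) (by fun_prop) fun φ => pow_ne_zero 2 (hG1 φ)
  have gper : ∀ φ, g (φ + 2 * π) = g φ := fun φ => by simp only [hg, Gper, G1per, G2per]
  have b0 : b (2 * π) = b 0 := by
    have h1 := wper 0
    have h2 := mp 0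
    rw [zero_add] at h1 h2
    simp only [hb, h1, h2]
  have e0 : e (2 * π) = e 0 := by
    have h1 := wper 0
    have h2 := mp 0
    rw [zero_add] at h1 h2
    simp only [he, h1, h2]
  have dp : ∀ x, HasDerivAt (fun x => x + b x) (1 + b1 x) x := fun x => (hasDerivAt_id x).add (bd x)
  have dm : ∀ x, HasDerivAt (fun x => x - e x) (1 - e1 x) x := fun x => (hasDerivAt_id x).sub (ed x)
  have ip := hopf3_int dp (by fun_prop) cg gper (by simp only [b0]; ring)
  have im := hopf3_int dm (by fun_prop) cg gper (by simp only [e0]; ring)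
  have cgp : Continuous fun x => g (x + b x) * (1 + b1 x) := by fun_prop
  have cgm : Continuous fun x => g (x - e x) * (1 - e1 x) := by fun_prop
  -- derivatives of the relations
  have r1 : ∀ x, G1 (x + b x) * (1 + b1 x) = -Real.sin (b x) * b1 x := by
    intro x
    have A : HasDerivAt (fun x => Real.cos (b x)) (-Real.sin (b x) * b1 x) x := (bd x).cos
    have B : HasDerivAt (fun x => G (x + b x)) (G1 (x + b x) * (1 + b1 x)) x :=
      (Gd (x + b x)).comp x (dp x)
    have hf : (fun x => G (x + b x)) = fun x => Real.cos (b x) := funext plus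
    rw [hf] at B
    exact B.unique A
  have r2 : ∀ x, G1 (x - e x) * (1 - e1 x) = -Real.sin (e x) * e1 x := by
    intro x
    have A : HasDerivAt (fun x => Real.cos (e x)) (-Real.sin (e x) * e1 x) x := (ed x).cos
    have B : HasDerivAt (fun x => G (x - e x)) (G1 (x - e x) * (1 - e1 x)) x :=
      (Gd (x - e x)).comp x (dm x)
    have hf : (fun x => G (x - e x)) = fun x => Real.cos (e x) := funext minus
    rw [hf] at B
    exact B.unique A
  have hpt : ∀ x, NC (m x) (m1 x) (w x) (u x) * v x =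
      QC (EE (m x) (m1 x)) (m x) (w x) * v x +
        (g (x - e x) * (1 - e1 x) - g (x + b x) * (1 + b1 x)) := by
    intro x
    have hw := (wpos x).1
    have hA := (hpm x).1
    have hB := (hpm x).2
    have hXp := posp x
    have hXm := posm x
    have f1 : g (x + b x) * (1 + b1 x) = (1 + m x * w x) ^ 2 / w x ^ 2 * v x *
        ((((1 + m x * w x) ^ 2 + w x ^ 2 + u x - m1 x * w x ^ 2) -
          ((1 + m x * w x) ^ 2 + w x ^ 2)) / ((1 + m x * w x) ^ 2 + w x ^ 2)) /
        ((1 + m x * w x) ^ 2 + w x ^ 2 + u x - m1 x * w x ^ 2) := by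
      have t1 : Real.sin (b x) = w x / (1 + m x * w x) * Real.cos (b x) := by
        have h1 : Real.tan (b x) = w x / (1 + m x * w x) := Real.tan_arctan _
        rw [← h1, Real.tan_mul_cos (cbpos x).ne']
      have t2 : 1 - Real.cos (b x) ^ 2 = Real.sin (b x) ^ 2 := by
        have := Real.sin_sq_add_cos_sq (b x); linarith
      have t3 : g (x + b x) * (1 + b1 x) = -(Real.cos (b x) ^ 2 * (G1 (x + b x) * (1 + b1 x)) *
          G2 (x + b x)) / (Real.sin (b x) ^ 2) ^ 2 := by
        have h1 : G (x + b x) = Real.cos (b x) := plus x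
        simp only [hg]
        rw [h1, t2]
        ring
      have t4 : G2 (x + b x) = v x * Real.sin (b x) /
          ((1 + m x * w x) ^ 2 + w x ^ 2 + u x - m1 x * w x ^ 2) := by
        rw [eq_div_iff hXp.ne']
        exact G2p x
      have t5 : b1 x = (((1 + m x * w x) ^ 2 + w x ^ 2 + u x - m1 x * w x ^ 2) -
          ((1 + m x * w x) ^ 2 + w x ^ 2)) / ((1 + m x * w x) ^ 2 + w x ^ 2) := by
        simp only [hb1]
        congr 1
        ring
      rw [t3, r1 x, t4, ← t5]
      generalize (1 + m x * w x) ^ 2 + w x ^ 2 + u x - m1 x * w x ^ 2 = X at *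
      have hs := (sbpos x).ne'
      have hc := (cbpos x).ne'
      have hw0 := hw.ne'
      have hA0 := hA.ne'
      have hX0 := hXp.ne'
      have t6 : (1 + m x * w x) ^ 2 / w x ^ 2 = Real.cos (b x) ^ 2 / Real.sin (b x) ^ 2 := by
        rw [div_eq_div_iff (pow_ne_zero 2 hw0) (pow_ne_zero 2 hs), t1]
        rw [mul_pow, div_pow]
        rw [← mul_assoc, mul_div_cancel₀ _ (pow_ne_zero 2 hA0), mul_comm]
      rw [t6]
      generalize Real.sin (b x) = S at *
      generalize Real.cos (b x) = Cc at *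
      generalize b1 x = bb at *
      field_simp
    have f2 : g (x - e x) * (1 - e1 x) = (1 - m x * w x) ^ 2 / w x ^ 2 * v x *
        ((((1 - m x * w x) ^ 2 + w x ^ 2) -
          ((1 - m x * w x) ^ 2 + w x ^ 2 - u x - m1 x * w x ^ 2)) /
            ((1 - m x * w x) ^ 2 + w x ^ 2)) /
        ((1 - m x * w x) ^ 2 + w x ^ 2 - u x - m1 x * w x ^ 2) := by
      have t1 : Real.sin (e x) = w x / (1 - m x * w x) * Real.cos (e x) := by
        have h1 : Real.tan (e x) = w x / (1 - m x * w x) := Real.tan_arctan _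
        rw [← h1, Real.tan_mul_cos (cepos x).ne']
      have t2 : 1 - Real.cos (e x) ^ 2 = Real.sin (e x) ^ 2 := by
        have := Real.sin_sq_add_cos_sq (e x); linarith
      have t3 : g (x - e x) * (1 - e1 x) = -(Real.cos (e x) ^ 2 * (G1 (x - e x) * (1 - e1 x)) *
          G2 (x - e x)) / (Real.sin (e x) ^ 2) ^ 2 := by
        have h1 : G (x - e x) = Real.cos (e x) := minus x
        simp only [hg]
        rw [h1, t2]
        ring
      have t4 : G2 (x - e x) = v x * Real.sin (e x) /
          ((1 - m x * w x) ^ 2 + w x ^ 2 - u x - m1 x * w x ^ 2) := by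
        rw [eq_div_iff hXm.ne']
        exact G2m x
      have t5 : e1 x = (((1 - m x * w x) ^ 2 + w x ^ 2) -
          ((1 - m x * w x) ^ 2 + w x ^ 2 - u x - m1 x * w x ^ 2)) /
            ((1 - m x * w x) ^ 2 + w x ^ 2) := by
        simp only [he1]
        congr 1
        ring
      rw [t3, r2 x, t4, ← t5]
      generalize (1 - m x * w x) ^ 2 + w x ^ 2 - u x - m1 x * w x ^ 2 = X at *
      have hs := (sepos x).ne'
      have hc := (cepos x).ne'
      have hw0 := hw.ne'
      have hA0 := hB.ne'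
      have hX0 := hXm.ne'
      have t6 : (1 - m x * w x) ^ 2 / w x ^ 2 = Real.cos (e x) ^ 2 / Real.sin (e x) ^ 2 := by
        rw [div_eq_div_iff (pow_ne_zero 2 hw0) (pow_ne_zero 2 hs), t1]
        rw [mul_pow, div_pow]
        rw [← mul_assoc, mul_div_cancel₀ _ (pow_ne_zero 2 hA0), mul_comm]
      rw [t6]
      generalize Real.sin (e x) = S at *
      generalize Real.cos (e x) = Cc at *
      generalize e1 x = bb at *
      field_simp
    rw [f1, f2]
    unfold NC QC
    have hY : 1 + EE (m x) (m1 x) * w x ^ 2 ≠ 0 := by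
      have h1 : ((1 + m x * w x) ^ 2 + w x ^ 2 + u x - m1 x * w x ^ 2) +
          ((1 - m x * w x) ^ 2 + w x ^ 2 - u x - m1 x * w x ^ 2) =
          2 * (1 + EE (m x) (m1 x) * w x ^ 2) := by
        unfold EE; ring
      have : 0 < 1 + EE (m x) (m1 x) * w x ^ 2 := by linarith
      exact this.ne'
    refine alg (pow_ne_zero 2 hw.ne') (hD x).ne' (hD' x).ne' hXp.ne' hXm.ne' hY (by ring)
      (by ring) rfl ?_
    unfold EE
    ring
  have hQ : Continuous fun x => QC (EE (m x) (m1 x)) (m x) (w x) * v x := by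
    refine Continuous.mul ?_ cv
    unfold QC
    have hY : ∀ x, 1 + EE (m x) (m1 x) * w x ^ 2 ≠ 0 := by
      intro x
      have h1 : ((1 + m x * w x) ^ 2 + w x ^ 2 + u x - m1 x * w x ^ 2) +
          ((1 - m x * w x) ^ 2 + w x ^ 2 - u x - m1 x * w x ^ 2) =
          2 * (1 + EE (m x) (m1 x) * w x ^ 2) := by
        unfold EE; ring
      have : 0 < 1 + EE (m x) (m1 x) * w x ^ 2 := by linarith [posp x, posm x]
      exact this.ne'
    have hEc : Continuous fun x => EE (m x) (m1 x) := by
      unfold EE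
      fun_prop
    exact ((Continuous.div (by fun_prop) (by fun_prop) hY).sub
      (Continuous.div (by fun_prop) (by fun_prop) fun x => (hD x).ne')).sub
      (Continuous.div (by fun_prop) (by fun_prop) fun x => (hD' x).ne')
  have hcd : Continuous fun x => g (x - e x) * (1 - e1 x) - g (x + b x) * (1 + b1 x) := cgm.sub cgp
  have hsub := intervalIntegral.integral_sub (cgm.intervalIntegrable (μ := volume) 0 (2 * π))
    (cgp.intervalIntegrable (μ := volume) 0 (2 * π))
  rw [ip, im, sub_self] at hsub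
  have hadd := intervalIntegral.integral_add (hQ.intervalIntegrable (μ := volume) 0 (2 * π))
    (hcd.intervalIntegrable (μ := volume) 0 (2 * π))
  rw [hsub, add_zero] at hadd
  rw [intervalIntegral.integral_congr (f := fun x => NC (m x) (m1 x) (w x) (u x) * v x)
    (fun x _ => hpt x)]
  exact hadd.symm

end Pool.Agent.H97.CT
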