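import Pool.Agent.H97.CT.Stubs
import Pool.Agent.H97.CT.Mono

/-! # CT-INEQ: the Hopf inequality and its equality case (helper29) -/

set_option autoImplicit false

open Set MeasureTheory Filter Topology Complex
open scoped Real

namespace Pool.Agent.H97.CT

open Pool.Agent.H97.OB Pool.Agent.H97.OC

namespace FolC

variable {Y : ℂ → ℝ} {m m1 : ℝ → ℝ} {G G1 G2 w u v : ℝ → ℝ → ℝ}

lemma v_cont (hF : FolC Y m m1 G G1 G2 w u v) {c : ℝ} (h0 : 0 < c) (h1 : c < 1) :
    Continuous (v c) := by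
  have h2 : Continuous fun x : ℝ => (fun q : ℝ × ℝ => v q.1 q.2) (c, x) := by
    rw [← continuousOn_univ]
    refine hF.vc.comp (Continuous.continuousOn (by fun_prop)) fun x _ => ?_
    exact ⟨⟨h0, h1⟩, mem_univ _⟩
  exact h2

lemma v_per (hF : FolC Y m m1 G G1 G2 w u v) {c : ℝ} (h0 : 0 < c) (h1 : c < 1) (x : ℝ) :
    v c (x + 2 * π) = v c x := by
  have h2 := hF.wv c h0 h1 (x + 2 * π)
  have h3 : HasDerivAt (fun c => w c x) (v c (x + 2 * π)) c := by
    refine h2.congr_of_eventuallyEq ?_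
    filter_upwards [lt_mem_nhds h0, gt_mem_nhds h1] with c' hc' hc''
    exact (hF.wper c' hc' hc''.le x).symm
  exact h3.unique (hF.wv c h0 h1 x)

lemma u_per (hF : FolC Y m m1 G G1 G2 w u v) {c : ℝ} (h0 : 0 < c) (h1 : c ≤ 1) (x : ℝ) :
    u c (x + 2 * π) = u c x := by
  have h2 := (hF.wd c h0 h1 (x + 2 * π)).comp_add_const x (2 * π)
  have h3 : HasDerivAt (w c) (u c (x + 2 * π)) x := by
    refine h2.congr_of_eventuallyEq (Eventually.of_forall fun y => ?_)
    exact (hF.wper c h0 h1 y).symm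
  exact h3.unique (hF.wd c h0 h1 x)

lemma w_cont (hF : FolC Y m m1 G G1 G2 w u v) {c : ℝ} (h0 : 0 < c) (h1 : c ≤ 1) :
    Continuous (w c) :=
  continuous_iff_continuousAt.2 fun x => (hF.wd c h0 h1 x).continuousAt

lemma m_cont (hF : FolC Y m m1 G G1 G2 w u v) : Continuous m :=
  continuous_iff_continuousAt.2 fun x => (hF.md x).continuousAt

/-- the identity on a leaf -/
lemma hopf_leaf (H : S_hopfC) (hF : FolC Y m m1 G G1 G2 w u v) {c : ℝ} (h0 : 0 < c)
    (h1 : c < 1) :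
    ∫ x in (0 : ℝ)..(2 * π), QC (EE (m x) (m1 x)) (m x) (w c x) * v c x =
      ∫ x in (0 : ℝ)..(2 * π), NC (m x) (m1 x) (w c x) (u c x) * v c x :=
  H m m1 (w c) (u c) (v c) (G c) (G1 c) (G2 c) hF.mc hF.md hF.mp (hF.uc c h0 h1.le)
    (hF.v_cont h0 h1) (hF.G1c c h0 h1.le) (hF.G2c c h0 h1.le) (hF.wd c h0 h1.le)
    (hF.wpos c h0 h1.le) (hF.wper c h0 h1.le) (hF.Gpos c h0 h1.le) (hF.Gper c h0 h1.le)
    (hF.G2per c h0 h1.le)
    (hF.Gd c h0 h1.le) (hF.posp c h0 h1.le) (hF.posm c h0 h1.le) (hF.plus c h0 h1.le)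
    (hF.minus c h0 h1.le) (hF.G2plus c h0 h1) (hF.G2minus c h0 h1)

end FolC

theorem ineqC (h1 : S_hopfC) (h2 : S_monoC) : S_ineqC := by
  intro Y m m1 G G1 G2 w u v hF hE
  have cm := hF.m_cont
  have cm1 := hF.mc
  have hden : ∀ c ∈ Ioo (0 : ℝ) 1, ∀ x,
      0 < w c x ^ 2 * (((1 + m x * w c x) ^ 2 + w c x ^ 2 + u c x - m1 x * w c x ^ 2) *
      ((1 - m x * w c x) ^ 2 + w c x ^ 2 - u c x - m1 x * w c x ^ 2)) *
        (1 + EE (m x) (m1 x) * w c x ^ 2) := by
    intro c hc x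
    have a1 := (hF.wpos c hc.1 hc.2.le x).1
    have a2 := hF.posp c hc.1 hc.2.le x
    have a3 := hF.posm c hc.1 hc.2.le x
    have a4 := hE x
    have a5 : 0 < 1 + EE (m x) (m1 x) * w c x ^ 2 := by positivity
    exact mul_pos (mul_pos (pow_pos a1 2) (mul_pos a2 a3)) a5
  have hnn : ∀ c ∈ Ioo (0 : ℝ) 1, ∀ x,
      0 ≤ NC (m x) (m1 x) (w c x) (u c x) * v c x := by
    intro c hc x
    refine mul_nonneg ?_ (hF.vpos c hc.1 hc.2 x).le
    unfold NC
    exact div_nonneg (by positivity) (hden c hc x).le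
  have key := h2 m m1 w v cm cm1 hE hF.wc hF.vc (fun c hc x => hF.wv c hc.1 hc.2 x) hF.w0
    (fun c hc x => hF.wpos c hc.1 hc.2 x)
    (fun c hc => by
      rw [hF.hopf_leaf h1 hc.1 hc.2]
      exact intervalIntegral.integral_nonneg (by positivity) fun x _ => hnn c hc x)
  refine ⟨key.1, fun hle c hc x₀ => ?_⟩
  have h3 := key.2 hle c hc
  rw [hF.hopf_leaf h1 hc.1 hc.2] at h3
  have cw := hF.w_cont hc.1 hc.2.le
  have cu := hF.uc c hc.1 hc.2.le
  have cv := hF.v_cont hc.1 hc.2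
  have hcont : Continuous fun x =>
      NC (m x) (m1 x) (w c x) (u c x) * v c x := by
    unfold NC EE
    refine Continuous.mul (Continuous.div (by fun_prop) (by fun_prop) fun x => ?_) cv
    exact (hden c hc x).ne'
  have hper : Function.Periodic (fun x =>
      NC (m x) (m1 x) (w c x) (u c x) * v c x) (2 * π) := by
    intro x
    simp only [hF.mp x, hF.m1p x, hF.wper c hc.1 hc.2.le x, hF.u_per hc.1 hc.2.le x,
      hF.v_per hc.1 hc.2 x]
  have hzero : NC (m x₀) (m1 x₀) (w c x₀) (u c x₀) * v c x₀ = 0 := by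
    by_contra hne
    have hpos := lt_of_le_of_ne (hnn c hc x₀) (Ne.symm hne)
    have h5 := hper.intervalIntegral_add_eq (x₀ - π) 0
    rw [zero_add, h3] at h5
    have h6 := intervalIntegral.integral_pos (a := x₀ - π) (b := x₀ - π + 2 * π)
      (by linarith [Real.pi_pos]) hcont.continuousOn (fun x _ => hnn c hc x)
      ⟨x₀, ⟨by linarith [Real.pi_pos], by linarith [Real.pi_pos]⟩, hpos⟩
    rw [h5] at h6
    exact lt_irrefl _ h6
  have hv := (hF.vpos c hc.1 hc.2 x₀).ne'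
  have hN := (mul_eq_zero.1 hzero).resolve_right hv
  unfold NC at hN
  have h7 := (div_eq_zero_iff.1 hN).resolve_right (hden c hc x₀).ne'
  have h9 := (mul_eq_zero.1 h7).resolve_left (two_ne_zero)
  exact pow_eq_zero_iff (two_ne_zero) |>.1 h9

end Pool.Agent.H97.CT
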