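import Pool.Agent.H97.CT.Stubs

set_option autoImplicit false

open Set MeasureTheory Filter Topology Complex
open scoped Real

namespace Pool.Agent.H97.CT

open Pool.Agent.H97.OB Pool.Agent.H97.OC

/-- `q` -/
noncomputable def qf (A B C x : ℝ) : ℝ := A * Real.cos (2 * x) + B * Real.sin (2 * x) + C

theorem qf_pos {A B C : ℝ} (hC : 0 < C) (h : A ^ 2 + B ^ 2 < C ^ 2) (x : ℝ) : 0 < qf A B C x := by
  unfold qf
  have h1 := Real.sin_sq_add_cos_sq (2 * x)
  have h2 : (A * Real.cos (2 * x) + B * Real.sin (2 * x)) ^ 2 ≤ A ^ 2 + B ^ 2 := by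
    nlinarith [sq_nonneg (A * Real.sin (2 * x) - B * Real.cos (2 * x))]
  have h3 := abs_lt_of_sq_lt_sq (h2.trans_lt h) hC.le
  have := (abs_lt.1 h3).1
  linarith

theorem qf_deriv (A B C x : ℝ) : HasDerivAt (qf A B C)
    (-2 * (A * Real.sin (2 * x) - B * Real.cos (2 * x))) x := by
  have h1 : HasDerivAt (fun y : ℝ => 2 * y) 2 x := by
    simpa using (hasDerivAt_id x).const_mul (2 : ℝ)
  have h2 : HasDerivAt (fun y => A * Real.cos (2 * y) + B * Real.sin (2 * y) + C)
      (A * (-Real.sin (2 * x) * 2) + B * (Real.cos (2 * x) * 2)) x :=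
    ((h1.cos.const_mul A).add (h1.sin.const_mul B)).add_const C
  exact h2.congr_deriv (by ring)

theorem leafC : S_leafC := by
  intro m m1 w u A B C hC hABC hm hE hwc hwpos hwd hu
  set q := qf A B C with hq
  obtain ⟨κ, hκ⟩ : ∃ κ : ℝ, κ = C ^ 2 - A ^ 2 - B ^ 2 := ⟨_, rfl⟩
  have hκ0 : 0 < κ := by rw [hκ]; linarith
  have hqpos : ∀ x, 0 < q x := qf_pos hC hABC
  have hmq : ∀ x, m x * q x = A * Real.sin (2 * x) - B * Real.cos (2 * x) := hm
  have hEq : ∀ x, EE (m x) (m1 x) * q x ^ 2 = κ := fun x => by rw [hκ]; exact hE x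
  have hqd : ∀ x, HasDerivAt q (-2 * (m x * q x)) x := fun x => by
    rw [hmq]; exact qf_deriv A B C x
  -- constancy for `c < 1`
  have hconst : ∀ c ∈ Ioo (0 : ℝ) 1, ∀ x, q x / w c x ^ 2 + κ / q x = q 0 / w c 0 ^ 2 + κ / q 0 := by
    intro c hc x
    have hd : ∀ y, HasDerivAt (fun y => q y / w c y ^ 2 + κ / q y) 0 y := by
      intro y
      have hw := hwpos c hc.1 hc.2.le y
      have hqy := hqpos y
      have h0 : HasDerivAt (fun y => w c y ^ 2) (2 * w c y * u c y) y := by
        have := (hwd c hc.1 hc.2.le y).pow 2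
        refine this.congr_deriv ?_
        push_cast
        ring
      have h1 : HasDerivAt (fun y => q y / w c y ^ 2) ((-2 * (m y * q y) * w c y ^ 2 -
          q y * (2 * w c y * u c y)) / (w c y ^ 2) ^ 2) y := (hqd y).div h0 (by positivity)
      have h2 : HasDerivAt (fun y => κ / q y) ((0 * q y - κ * (-2 * (m y * q y))) / q y ^ 2) y :=
        (hasDerivAt_const y κ).div (hqd y) hqy.ne'
      have h3 : HasDerivAt (fun y => q y / w c y ^ 2 + κ / q y) _ y := h1.add h2
      refine h3.congr_deriv ?_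
      have e1 := hu c hc y
      have e2 := hEq y
      have hu' : u c y = -(m y * w c y) + m y * EE (m y) (m1 y) * w c y ^ 3 := by linarith
      have hE' : EE (m y) (m1 y) = κ / q y ^ 2 := by
        rw [eq_div_iff (by positivity)]; exact e2
      rw [hu', hE']
      field_simp
      ring
    exact is_const_of_deriv_eq_zero (fun y => (hd y).differentiableAt) (fun y => (hd y).deriv) x 0
  -- for all `c`
  have hall : ∀ c, 0 < c → c ≤ 1 → ∀ x, q x / w c x ^ 2 + κ / q x = q 0 / w c 0 ^ 2 + κ / q 0 := by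
    intro c h0 h1 x
    rcases h1.lt_or_eq with h1 | rfl
    · exact hconst c ⟨h0, h1⟩ x
    · have hcw : ∀ y, Tendsto (fun c => w c y) (𝓝[Ioo 0 1] (1 : ℝ)) (𝓝 (w 1 y)) := by
        intro y
        have h2 : ContinuousWithinAt (fun x : ℝ × ℝ => w x.1 x.2) (Icc 0 1 ×ˢ univ) (1, y) :=
          hwc (1, y) ⟨right_mem_Icc.2 zero_le_one, mem_univ _⟩
        have h3 : Tendsto (fun c : ℝ => (c, y)) (𝓝[Ioo 0 1] (1 : ℝ))
            (𝓝[Icc (0 : ℝ) 1 ×ˢ univ] ((1 : ℝ), y)) := by
          refine tendsto_nhdsWithin_iff.2 ⟨?_, ?_⟩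
          · refine Tendsto.mono_left ?_ nhdsWithin_le_nhds
            exact (Continuous.prodMk continuous_id continuous_const).tendsto 1
          · filter_upwards [self_mem_nhdsWithin] with c hc
            exact ⟨Ioo_subset_Icc_self hc, mem_univ _⟩
        exact h2.tendsto.comp h3
      have hne : (𝓝[Ioo 0 1] (1 : ℝ)).NeBot := by
        rw [← mem_closure_iff_nhdsWithin_neBot, closure_Ioo (by norm_num)]
        exact right_mem_Icc.2 zero_le_one
      have h4 : ∀ y, Tendsto (fun c => q y / w c y ^ 2 + κ / q y) (𝓝[Ioo 0 1] (1 : ℝ))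
          (𝓝 (q y / w 1 y ^ 2 + κ / q y)) := by
        intro y
        have hw := hwpos 1 one_pos le_rfl y
        exact (tendsto_const_nhds.div ((hcw y).pow 2) (by positivity)).add tendsto_const_nhds
      refine tendsto_nhds_unique (h4 x) ((h4 0).congr' ?_)
      filter_upwards [self_mem_nhdsWithin] with c hc
      exact (hconst c hc x).symm
  intro c h0 h1
  have hw0 := hwpos c h0 h1 0
  have hq0 := hqpos 0
  refine ⟨q 0 / w c 0 ^ 2 + κ / q 0, by positivity, fun x => ?_⟩
  have hw := hwpos c h0 h1 x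
  have hqx := hqpos x
  rw [← hall c h0 h1 x, ← hκ]
  show q x ^ 2 = w c x ^ 2 * ((q x / w c x ^ 2 + κ / q x) * q x - κ)
  field_simp
  ring

end Pool.Agent.H97.CT
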