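import Pool.Agent.H97.CT.Stubs

/-!
# CT-POL: the polar description of a collar of the unit circle
-/

set_option autoImplicit false

open Set MeasureTheory Filter Topology Complex
open scoped Real

namespace Pool.Agent.H97.CT

open Pool.Agent.H97.OB Pool.Agent.H97.OC

namespace Pol

/-- a point of the tangent line in polar coordinates -/
lemma pol (x b : ℝ) (hb : 0 < Real.cos b) :
    circ x + (Real.tan b : ℝ) * tang x = exp (((x + b : ℝ) : ℂ) * I) / ((Real.cos b : ℝ) : ℂ) := by
  have hc : ((Real.cos b : ℝ) : ℂ) ≠ 0 := by exact_mod_cast hb.ne'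
  have e1 : exp (((x + b : ℝ) : ℂ) * I) = exp (x * I) * exp (b * I) := by
    rw [← exp_add]; congr 1; push_cast; ring
  have e2 : exp (b * I) = ((Real.cos b : ℝ) : ℂ) + ((Real.sin b : ℝ) : ℂ) * I := by
    rw [exp_mul_I, ← ofReal_cos, ← ofReal_sin]
  rw [e1, e2, Real.tan_eq_sin_div_cos]
  unfold circ tang
  push_cast
  push_cast at hc
  field_simp

lemma alg (a w K : ℝ) (ha : a ≠ 0) :
    1 / (1 + (w / a) ^ 2) * (K / a ^ 2) = K / (a ^ 2 + w ^ 2) := by
  rw [div_mul_div_comm, one_mul]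
  congr 1
  field_simp

/-- derivative of the forward angle -/
lemma dfwd {m w : ℝ → ℝ} {m' w' x : ℝ} (hm : HasDerivAt m m' x) (hw : HasDerivAt w w' x)
    (h : 1 + m x * w x ≠ 0) :
    HasDerivAt (fun x => Real.arctan (tp (m x) (w x)))
      ((w' - m' * w x ^ 2) / ((1 + m x * w x) ^ 2 + w x ^ 2)) x := by
  have h1 : HasDerivAt (fun x => 1 + m x * w x) (m' * w x + m x * w') x :=
    (hm.mul hw).const_add 1
  have h2 := (hw.div h1 h).arctan
  refine (h2.congr_deriv ?_)
  simp only [Pi.div_apply]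
  rw [alg _ _ _ h]
  congr 1
  ring

/-- derivative of the backward angle -/
lemma dbwd {m w : ℝ → ℝ} {m' w' x : ℝ} (hm : HasDerivAt m m' x) (hw : HasDerivAt w w' x)
    (h : 1 - m x * w x ≠ 0) :
    HasDerivAt (fun x => Real.arctan (tm (m x) (w x)))
      ((w' + m' * w x ^ 2) / ((1 - m x * w x) ^ 2 + w x ^ 2)) x := by
  have h1 : HasDerivAt (fun x => 1 - m x * w x) (-(m' * w x + m x * w')) x :=
    (hm.mul hw).const_sub 1
  have h2 := (hw.div h1 h).arctan
  refine (h2.congr_deriv ?_)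
  simp only [Pi.div_apply]
  rw [alg _ _ _ h]
  congr 1
  ring

/-- a periodic `C¹` function `b` with `1 + ε b'` never zero -/
lemma key {b g : ℝ → ℝ} (hb : ∀ x, HasDerivAt b (g x) x) (hg : Continuous g)
    (hper : ∀ x, b (x + 2 * π) = b x) (ε : ℝ) (hne : ∀ x, 1 + ε * g x ≠ 0) :
    ∀ x, 0 < 1 + ε * g x := by
  intro x
  obtain ⟨ξ, -, hξ⟩ := exists_hasDerivAt_eq_zero (f := b) (f' := g) (a := 0) (b := 2 * π)
    (by positivity)
    (continuous_iff_continuousAt.2 fun x => (hb x).continuousAt).continuousOn (by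
      have := hper 0
      rw [zero_add] at this
      exact this.symm) (fun x _ => hb x)
  by_contra hcon
  push Not at hcon
  have hc : Continuous fun x => 1 + ε * g x := by fun_prop
  obtain ⟨y, hy⟩ := mem_range_of_exists_le_of_exists_ge hc ⟨x, hcon⟩
    ⟨ξ, by rw [hξ]; norm_num⟩
  exact hne y hy

end Pol

open Pol in
theorem pol : S_pol := by
  intro Hrad Y m m1 w u v hsit T
  obtain ⟨G, G1, G2, b1, b2, b3, b4, b5, b6, b7, b8, b9, b10⟩ := Hrad circ (fun _ => 1) Y hsit
  have hmc : Continuous m := continuous_iff_continuousAt.2 fun x => (T.md x).continuousAt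
  have hwc : ∀ c, 0 < c → c ≤ 1 → Continuous (w c) := fun c h0 h1 =>
    continuous_iff_continuousAt.2 fun x => (T.wd c h0 h1 x).continuousAt
  have hpp : ∀ c, 0 < c → c ≤ 1 → ∀ x, 0 < 1 + m x * w c x ∧ 0 < 1 - m x * w c x := by
    intro c h0 h1 x
    obtain ⟨h2, h3⟩ := T.wpos c h0 h1 x
    have h4 : |m x * w c x| < 1 := by rwa [abs_mul, abs_of_pos h2]
    rw [abs_lt] at h4
    constructor <;> linarith
  have htp : ∀ c, 0 < c → c ≤ 1 → ∀ x, 0 < tp (m x) (w c x) ∧ 0 < tm (m x) (w c x) := by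
    intro c h0 h1 x
    have h2 := (T.wpos c h0 h1 x).1
    obtain ⟨h3, h4⟩ := hpp c h0 h1 x
    unfold tp tm
    constructor <;> positivity
  have hsin : ∀ t : ℝ, 0 < t → 0 < Real.sin (Real.arctan t) := by
    intro t ht
    have h1 : 0 < Real.arctan t := Real.arctan_pos.2 ht
    have h2 := Real.arctan_lt_pi_div_two t
    exact Real.sin_pos_of_pos_of_lt_pi h1 (by linarith [Real.pi_pos])
  have hplus : ∀ c, 0 < c → c ≤ 1 → ∀ x,
      G c (x + Real.arctan (tp (m x) (w c x))) = Real.cos (Real.arctan (tp (m x) (w c x))) := by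
    intro c h0 h1 x
    have h2 := (T.pt c h0 h1 x).1
    have h3 := Pol.pol x (Real.arctan (tp (m x) (w c x))) (Real.cos_arctan_pos _)
    rw [Real.tan_arctan] at h3
    rw [h3] at h2
    exact (b3 c h0 h1 _ _ (Real.cos_arctan_pos _) h2).symm
  have hminus : ∀ c, 0 < c → c ≤ 1 → ∀ x,
      G c (x - Real.arctan (tm (m x) (w c x))) = Real.cos (Real.arctan (tm (m x) (w c x))) := by
    intro c h0 h1 x
    have h2 := (T.pt c h0 h1 x).2
    have h3 := Pol.pol x (-Real.arctan (tm (m x) (w c x))) (by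
      rw [Real.cos_neg]; exact Real.cos_arctan_pos _)
    rw [Real.tan_neg, Real.tan_arctan, Real.cos_neg] at h3
    have h4 : circ x - (tm (m x) (w c x) : ℝ) * tang x =
        circ x + ((-tm (m x) (w c x) : ℝ) : ℂ) * tang x := by push_cast; ring
    rw [h4, h3] at h2
    rw [sub_eq_add_neg]
    exact (b3 c h0 h1 _ _ (Real.cos_arctan_pos _) h2).symm
  -- derivatives in `x`
  have hbx : ∀ c, 0 < c → c ≤ 1 → ∀ x, HasDerivAt (fun x => Real.arctan (tp (m x) (w c x)))
      ((u c x - m1 x * w c x ^ 2) / ((1 + m x * w c x) ^ 2 + w c x ^ 2)) x :=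
    fun c h0 h1 x => dfwd (T.md x) (T.wd c h0 h1 x) (hpp c h0 h1 x).1.ne'
  have hex : ∀ c, 0 < c → c ≤ 1 → ∀ x, HasDerivAt (fun x => Real.arctan (tm (m x) (w c x)))
      ((u c x + m1 x * w c x ^ 2) / ((1 - m x * w c x) ^ 2 + w c x ^ 2)) x :=
    fun c h0 h1 x => dbwd (T.md x) (T.wd c h0 h1 x) (hpp c h0 h1 x).2.ne'
  have dplus : ∀ c, 0 < c → c ≤ 1 → ∀ x,
      (G1 c (x + Real.arctan (tp (m x) (w c x))) + Real.sin (Real.arctan (tp (m x) (w c x)))) *
        (1 + (u c x - m1 x * w c x ^ 2) / ((1 + m x * w c x) ^ 2 + w c x ^ 2)) =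
        Real.sin (Real.arctan (tp (m x) (w c x))) := by
    intro c h0 h1 x
    have a1 : HasDerivAt (fun x => G c (x + Real.arctan (tp (m x) (w c x)))) _ x :=
      HasDerivAt.comp (h₂ := G c) x (b6 c h0 h1 _) ((hasDerivAt_id x).add (hbx c h0 h1 x))
    have a2 := (hbx c h0 h1 x).cos
    have a3 : (fun x => G c (x + Real.arctan (tp (m x) (w c x)))) =
        fun x => Real.cos (Real.arctan (tp (m x) (w c x))) := funext fun x => hplus c h0 h1 x
    rw [a3] at a1
    have := a1.unique a2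
    linear_combination this
  have dminus : ∀ c, 0 < c → c ≤ 1 → ∀ x,
      (-G1 c (x - Real.arctan (tm (m x) (w c x))) + Real.sin (Real.arctan (tm (m x) (w c x)))) *
        (1 - (u c x + m1 x * w c x ^ 2) / ((1 - m x * w c x) ^ 2 + w c x ^ 2)) =
        Real.sin (Real.arctan (tm (m x) (w c x))) := by
    intro c h0 h1 x
    have a1 : HasDerivAt (fun x => G c (x - Real.arctan (tm (m x) (w c x)))) _ x :=
      HasDerivAt.comp (h₂ := G c) x (b6 c h0 h1 _) ((hasDerivAt_id x).sub (hex c h0 h1 x))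
    have a2 := (hex c h0 h1 x).cos
    have a3 : (fun x => G c (x - Real.arctan (tm (m x) (w c x)))) =
        fun x => Real.cos (Real.arctan (tm (m x) (w c x))) := funext fun x => hminus c h0 h1 x
    rw [a3] at a1
    have := a1.unique a2
    linear_combination -this
  have hD : ∀ c, 0 < c → c ≤ 1 → ∀ x, 0 < (1 + m x * w c x) ^ 2 + w c x ^ 2 := by
    intro c h0 h1 x
    have := (T.wpos c h0 h1 x).1
    positivity
  have hD' : ∀ c, 0 < c → c ≤ 1 → ∀ x, 0 < (1 - m x * w c x) ^ 2 + w c x ^ 2 := by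
    intro c h0 h1 x
    have := (T.wpos c h0 h1 x).1
    positivity
  have hbp : ∀ c, 0 < c → c ≤ 1 → ∀ x,
      0 < 1 + (u c x - m1 x * w c x ^ 2) / ((1 + m x * w c x) ^ 2 + w c x ^ 2) := by
    intro c h0 h1 x
    have c1 := hwc c h0 h1
    have c2 := T.uc c h0 h1
    have c3 := T.mc
    have := key (b := fun x => Real.arctan (tp (m x) (w c x)))
      (g := fun x => (u c x - m1 x * w c x ^ 2) / ((1 + m x * w c x) ^ 2 + w c x ^ 2))
      (hbx c h0 h1) (Continuous.div (by fun_prop) (by fun_prop) fun x => (hD c h0 h1 x).ne')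
      (fun x => by rw [T.mp, T.wper c h0 h1]) 1 (fun x hx => by
        rw [one_mul] at hx
        have h2 := dplus c h0 h1 x
        rw [hx, mul_zero] at h2
        exact (hsin _ (htp c h0 h1 x).1).ne h2) x
    rwa [one_mul] at this
  have hep : ∀ c, 0 < c → c ≤ 1 → ∀ x,
      0 < 1 - (u c x + m1 x * w c x ^ 2) / ((1 - m x * w c x) ^ 2 + w c x ^ 2) := by
    intro c h0 h1 x
    have c1 := hwc c h0 h1
    have c2 := T.uc c h0 h1
    have c3 := T.mc
    have := key (b := fun x => Real.arctan (tm (m x) (w c x)))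
      (g := fun x => (u c x + m1 x * w c x ^ 2) / ((1 - m x * w c x) ^ 2 + w c x ^ 2))
      (hex c h0 h1) (Continuous.div (by fun_prop) (by fun_prop) fun x => (hD' c h0 h1 x).ne')
      (fun x => by rw [T.mp, T.wper c h0 h1]) (-1) (fun x hx => by
        rw [neg_one_mul, ← sub_eq_add_neg] at hx
        have h2 := dminus c h0 h1 x
        rw [hx, mul_zero] at h2
        exact (hsin _ (htp c h0 h1 x).2).ne h2) x
    rwa [neg_one_mul, ← sub_eq_add_neg] at this
  have eX : ∀ c, 0 < c → c ≤ 1 → ∀ x,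
      1 + (u c x - m1 x * w c x ^ 2) / ((1 + m x * w c x) ^ 2 + w c x ^ 2) =
      ((1 + m x * w c x) ^ 2 + w c x ^ 2 + u c x - m1 x * w c x ^ 2) /
        ((1 + m x * w c x) ^ 2 + w c x ^ 2) := by
    intro c h0 h1 x
    rw [one_add_div (hD c h0 h1 x).ne']
    congr 1
    ring
  have eX' : ∀ c, 0 < c → c ≤ 1 → ∀ x,
      1 - (u c x + m1 x * w c x ^ 2) / ((1 - m x * w c x) ^ 2 + w c x ^ 2) =
      ((1 - m x * w c x) ^ 2 + w c x ^ 2 - u c x - m1 x * w c x ^ 2) /
        ((1 - m x * w c x) ^ 2 + w c x ^ 2) := by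
    intro c h0 h1 x
    rw [one_sub_div (hD' c h0 h1 x).ne']
    congr 1
    ring
  have posp : ∀ c, 0 < c → c ≤ 1 → ∀ x,
      0 < (1 + m x * w c x) ^ 2 + w c x ^ 2 + u c x - m1 x * w c x ^ 2 := by
    intro c h0 h1 x
    have h2 := hbp c h0 h1 x
    rw [eX c h0 h1 x] at h2
    exact (div_pos_iff_of_pos_right (hD c h0 h1 x)).1 h2
  have posm : ∀ c, 0 < c → c ≤ 1 → ∀ x,
      0 < (1 - m x * w c x) ^ 2 + w c x ^ 2 - u c x - m1 x * w c x ^ 2 := by
    intro c h0 h1 x
    have h2 := hep c h0 h1 x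
    rw [eX' c h0 h1 x] at h2
    exact (div_pos_iff_of_pos_right (hD' c h0 h1 x)).1 h2
  -- derivatives in `c`
  have hbc : ∀ c, 0 < c → c < 1 → ∀ x, HasDerivAt (fun c => Real.arctan (tp (m x) (w c x)))
      (v c x / ((1 + m x * w c x) ^ 2 + w c x ^ 2)) c := by
    intro c h0 h1 x
    have := dfwd (m := fun _ => m x) (w := fun c => w c x) (hasDerivAt_const c (m x))
      (T.wv c h0 h1 x) (hpp c h0 h1.le x).1.ne'
    refine this.congr_deriv ?_
    rw [zero_mul, sub_zero]
  have hec : ∀ c, 0 < c → c < 1 → ∀ x, HasDerivAt (fun c => Real.arctan (tm (m x) (w c x)))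
      (v c x / ((1 - m x * w c x) ^ 2 + w c x ^ 2)) c := by
    intro c h0 h1 x
    have := dbwd (m := fun _ => m x) (w := fun c => w c x) (hasDerivAt_const c (m x))
      (T.wv c h0 h1 x) (hpp c h0 h1.le x).2.ne'
    refine this.congr_deriv ?_
    rw [zero_mul, add_zero]
  have cplus : ∀ c, 0 < c → c < 1 → ∀ x, G2 c (x + Real.arctan (tp (m x) (w c x))) =
      (G1 c (x + Real.arctan (tp (m x) (w c x))) + Real.sin (Real.arctan (tp (m x) (w c x)))) *
        (v c x / ((1 + m x * w c x) ^ 2 + w c x ^ 2)) := by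
    intro c h0 h1 x
    have hσ := hbc c h0 h1 x
    have a0 : HasDerivAt (fun c => ((c, x + Real.arctan (tp (m x) (w c x))) : ℝ × ℝ))
        (1, v c x / ((1 + m x * w c x) ^ 2 + w c x ^ 2)) c :=
      (hasDerivAt_id c).prodMk (hσ.const_add x)
    have a1 : HasDerivAt (fun c => G c (x + Real.arctan (tp (m x) (w c x)))) _ c :=
      HasFDerivAt.comp_hasDerivAt
        (f := fun c => ((c, x + Real.arctan (tp (m x) (w c x))) : ℝ × ℝ)) c
        (b10 c h0 h1 (x + Real.arctan (tp (m x) (w c x)))) a0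
    have a2 := hσ.cos
    have a3 : (fun c => G c (x + Real.arctan (tp (m x) (w c x)))) =ᶠ[𝓝 c]
        fun c => Real.cos (Real.arctan (tp (m x) (w c x))) := by
      filter_upwards [lt_mem_nhds h0, gt_mem_nhds h1] with c' hc hc'
      exact hplus c' hc hc'.le x
    have := a1.unique (a2.congr_of_eventuallyEq a3)
    simp only [_root_.add_apply, _root_.smul_apply,
      ContinuousLinearMap.coe_fst', ContinuousLinearMap.coe_snd', smul_eq_mul] at this
    linear_combination -this
  have cminus : ∀ c, 0 < c → c < 1 → ∀ x, G2 c (x - Real.arctan (tm (m x) (w c x))) =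
      (-G1 c (x - Real.arctan (tm (m x) (w c x))) + Real.sin (Real.arctan (tm (m x) (w c x)))) *
        (v c x / ((1 - m x * w c x) ^ 2 + w c x ^ 2)) := by
    intro c h0 h1 x
    have hσ := hec c h0 h1 x
    have a0 : HasDerivAt (fun c => ((c, x - Real.arctan (tm (m x) (w c x))) : ℝ × ℝ))
        (1, -(v c x / ((1 - m x * w c x) ^ 2 + w c x ^ 2))) c :=
      (hasDerivAt_id c).prodMk (hσ.const_sub x)
    have a1 : HasDerivAt (fun c => G c (x - Real.arctan (tm (m x) (w c x)))) _ c :=
      HasFDerivAt.comp_hasDerivAt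
        (f := fun c => ((c, x - Real.arctan (tm (m x) (w c x))) : ℝ × ℝ)) c
        (b10 c h0 h1 (x - Real.arctan (tm (m x) (w c x)))) a0
    have a2 := hσ.cos
    have a3 : (fun c => G c (x - Real.arctan (tm (m x) (w c x)))) =ᶠ[𝓝 c]
        fun c => Real.cos (Real.arctan (tm (m x) (w c x))) := by
      filter_upwards [lt_mem_nhds h0, gt_mem_nhds h1] with c' hc hc'
      exact hminus c' hc hc'.le x
    have := a1.unique (a2.congr_of_eventuallyEq a3)
    simp only [_root_.add_apply, _root_.smul_apply,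
      ContinuousLinearMap.coe_fst', ContinuousLinearMap.coe_snd', smul_eq_mul] at this
    linear_combination -this
  have G2plus : ∀ c, 0 < c → c < 1 → ∀ x,
      G2 c (x + Real.arctan (tp (m x) (w c x))) *
        ((1 + m x * w c x) ^ 2 + w c x ^ 2 + u c x - m1 x * w c x ^ 2) =
        v c x * Real.sin (Real.arctan (tp (m x) (w c x))) := by
    intro c h0 h1 x
    have e1 := cplus c h0 h1 x
    have e2 := dplus c h0 h1.le x
    rw [eX c h0 h1.le x] at e2
    have e3 := (hD c h0 h1.le x).ne'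
    rw [e1]
    have e4 : v c x * Real.sin (Real.arctan (tp (m x) (w c x))) = v c x *
      ((G1 c (x + Real.arctan (tp (m x) (w c x))) + Real.sin (Real.arctan (tp (m x) (w c x)))) *
        (((1 + m x * w c x) ^ 2 + w c x ^ 2 + u c x - m1 x * w c x ^ 2) /
        ((1 + m x * w c x) ^ 2 + w c x ^ 2))) := by rw [e2]
    rw [e4]
    ring
  have G2minus : ∀ c, 0 < c → c < 1 → ∀ x,
      G2 c (x - Real.arctan (tm (m x) (w c x))) *
        ((1 - m x * w c x) ^ 2 + w c x ^ 2 - u c x - m1 x * w c x ^ 2) =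
        v c x * Real.sin (Real.arctan (tm (m x) (w c x))) := by
    intro c h0 h1 x
    have e1 := cminus c h0 h1 x
    have e2 := dminus c h0 h1.le x
    rw [eX' c h0 h1.le x] at e2
    have e3 := (hD' c h0 h1.le x).ne'
    rw [e1]
    have e4 : v c x * Real.sin (Real.arctan (tm (m x) (w c x))) = v c x *
      ((-G1 c (x - Real.arctan (tm (m x) (w c x))) + Real.sin (Real.arctan (tm (m x) (w c x)))) *
        (((1 - m x * w c x) ^ 2 + w c x ^ 2 - u c x - m1 x * w c x ^ 2) /
        ((1 - m x * w c x) ^ 2 + w c x ^ 2))) := by rw [e2]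
    rw [e4]
    ring
  refine ⟨G, G1, G2, ?_⟩
  exact
    { mc := T.mc
      md := T.md
      mp := T.mp
      m1p := T.m1p
      leaf := b1
      Gpos := b2
      Gper := b4
      G2per := b5
      Gd := b6
      G1c := b7
      G2c := b8
      wc := T.wc
      w0 := T.w0
      wpos := T.wpos
      wper := T.wper
      wd := T.wd
      uc := T.uc
      posp := posp
      posm := posm
      wv := T.wv
      vc := T.vc
      vpos := by
        intro c h0 h1 x
        have e1 := G2plus c h0 h1 x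
        have e2 := mul_pos (b9 c h0 h1.le (x + Real.arctan (tp (m x) (w c x))))
          (posp c h0 h1.le x)
        rw [e1] at e2
        exact (pos_iff_pos_of_mul_pos e2).2 (hsin _ (htp c h0 h1.le x).1)
      plus := hplus
      minus := hminus
      G2plus := G2plus
      G2minus := G2minus
      pt := T.pt
      next := by
        intro z w' hz hw hn
        obtain ⟨θ, s, τ, hs, hτ, ez, ew⟩ := hn
        refine ⟨θ, ?_, ?_⟩
        · have h1 : Y (circ θ - ((-s : ℝ) : ℂ) * tang θ) = 1 := by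
            rw [← hz, ez]
            congr 1
            push_cast
            ring
          have h2 := T.un 1 one_pos le_rfl θ (-s) (by linarith) h1
          rw [ez, ← h2]
          push_cast
          ring
        · have h1 : Y (circ θ + (τ : ℂ) * tang θ) = 1 := by rw [← hw, ew]
          have h2 := T.up 1 one_pos le_rfl θ τ hτ h1
          rw [ew, ← h2] }

end Pool.Agent.H97.CT
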