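import Pool.Agent.H97.CT.Stubs
import Pool.Agent.H97.OC.Sector
import Pool.Agent.H97.OC.SuppIneq
import Pool.Agent.H97.OC.Equi
import Pool.Agent.H97.OC.BS

set_option autoImplicit false

open Set MeasureTheory Filter Topology Complex
open scoped Real

namespace Pool.Agent.H97.CT

open Pool.Agent.H97.OB Pool.Agent.H97.OC

theorem Sant.per_deriv {f f' : ℝ → ℝ} {T : ℝ} (hf : ∀ x, HasDerivAt f (f' x) x)
    (hper : ∀ x, f (x + T) = f x) (x : ℝ) : f' (x + T) = f' x := by
  have h1 : HasDerivAt (fun y => f (y + T)) (f' (x + T)) x := (hf (x + T)).comp_add_const x T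
  have h2 : (fun y => f (y + T)) = f := funext hper
  rw [h2] at h1
  exact h1.unique (hf x)

theorem Sant.shift {f : ℝ → ℝ} (hper : ∀ x, f (x + 2 * π) = f x) :
    ∫ x in (0 : ℝ)..(2 * π), f (x + π) = ∫ x in (0 : ℝ)..(2 * π), f x := by
  rw [intervalIntegral.integral_comp_add_right]
  have h1 : Function.Periodic f (2 * π) := hper
  have h2 := h1.intervalIntegral_add_eq π 0
  rw [zero_add] at h2 ⊢
  rw [← h2, add_comm]

theorem sant : S_sant := by
  intro g g1 r hr hg hg1 hgpos hrpos hgper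
  have hg1per : ∀ x, g1 (x + π) = g1 x := Sant.per_deriv hg hgper
  have hrper : ∀ x, r (x + π) = r x := by
    intro x
    have h1 := Sant.per_deriv hg1 hg1per x
    rw [hgper] at h1
    linarith
  have h2π : ∀ x : ℝ, x + 2 * π = (x + π) + π := fun x => by ring
  have hgc : Continuous g := continuous_iff_continuousAt.2 fun x => (hg x).continuousAt
  set γ : ℝ → ℂ := fun θ => ((g θ : ℂ) + (g1 θ : ℂ) * I) * exp (θ * I) with hγ
  have hγd : ∀ θ, HasDerivAt γ (r θ * (Complex.I * Complex.exp (θ * Complex.I))) θ := by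
    intro θ
    have h1 : HasDerivAt (fun x : ℝ => (x : ℂ) * I) (1 * I) θ :=
      (Complex.ofRealCLM.hasDerivAt (x := θ)).mul_const I
    have h2 := h1.cexp
    have h3 : HasDerivAt (fun x : ℝ => (g x : ℂ) + (g1 x : ℂ) * I)
        ((g1 θ : ℂ) + ((r θ - g θ : ℝ) : ℂ) * I) θ :=
      ((hg θ).ofReal_comp).add (((hg1 θ).ofReal_comp).mul_const I)
    refine (h3.mul h2).congr_deriv ?_
    push_cast
    linear_combination (g1 θ : ℂ) * exp (θ * I) * Complex.I_sq
  have hγper : ∀ θ, γ (θ + 2 * π) = γ θ := by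
    intro θ
    have h1 : ((θ + 2 * π : ℝ) : ℂ) * I = θ * I + 2 * π * I := by push_cast; ring
    simp only [hγ]
    rw [h1, Complex.exp_add, Complex.exp_two_pi_mul_I, mul_one, h2π, hgper, hgper, hg1per, hg1per]
  obtain ⟨O, hO, hbs⟩ := bs_of (sector supp_ineq) equi γ r hr hrpos hγd hγper
  set h : ℝ → ℝ := fun θ => (O * exp (-(θ * I))).re with hh
  have hre : ∀ θ : ℝ, ((γ θ - O) * exp (-(θ * I))).re = g θ - h θ := by
    intro θ
    have h1 : (γ θ - O) * exp (-(θ * I)) = ((g θ : ℂ) + (g1 θ : ℂ) * I) - O * exp (-(θ * I)) := by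
      simp only [hγ]
      have : exp (θ * I) * exp (-(θ * I)) = 1 := by rw [← exp_add]; simp
      linear_combination ((g θ : ℂ) + (g1 θ : ℂ) * I) * this
    rw [h1, Complex.sub_re]
    simp [hh]
  simp only [hre] at hO hbs
  have hhper : ∀ θ, h (θ + π) = -h θ := by
    intro θ
    simp only [hh]
    have h1 : -(((θ + π : ℝ) : ℂ) * I) = -(θ * I) + -(π * I) := by push_cast; ring
    rw [h1, Complex.exp_add, Complex.exp_neg (π * I), Complex.exp_pi_mul_I]
    simp
  have hhc : Continuous h := by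
    simp only [hh]
    fun_prop
  have hO' : ∀ θ, 0 < g θ + h θ := by
    intro θ
    have := hO (θ + π)
    rw [hgper, hhper] at this
    linarith
  -- the first integral
  have hI1 : ∫ θ in (0 : ℝ)..(2 * π), r θ * (g θ - h θ) =
      ∫ θ in (0 : ℝ)..(2 * π), r θ * g θ := by
    have h1 : ∫ θ in (0 : ℝ)..(2 * π), r θ * h θ = 0 := by
      have h2 := Sant.shift (f := fun θ => r θ * h θ) (fun x => by
        rw [h2π, hrper, hrper, hhper, hhper, neg_neg])
      simp only [hrper, hhper, mul_neg] at h2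
      rw [intervalIntegral.integral_neg] at h2
      linarith
    have h3 : (fun θ => r θ * (g θ - h θ)) = fun θ => r θ * g θ - r θ * h θ := by
      funext θ; ring
    have i1 : IntervalIntegrable (fun θ => r θ * g θ) volume 0 (2 * π) :=
      (hr.mul hgc).intervalIntegrable _ _
    have i2 : IntervalIntegrable (fun θ => r θ * h θ) volume 0 (2 * π) :=
      (hr.mul hhc).intervalIntegrable _ _
    rw [h3, intervalIntegral.integral_sub i1 i2, h1, sub_zero]
  -- the second integral
  have hcm : Continuous fun θ => 1 / (g θ - h θ) ^ 2 :=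
    continuous_const.div ((hgc.sub hhc).pow 2) fun θ => (pow_pos (hO θ) 2).ne'
  have hcp : Continuous fun θ => 1 / (g θ + h θ) ^ 2 :=
    continuous_const.div ((hgc.add hhc).pow 2) fun θ => (pow_pos (hO' θ) 2).ne'
  have hcg : Continuous fun θ => 1 / g θ ^ 2 :=
    continuous_const.div (hgc.pow 2) fun θ => (pow_pos (hgpos θ) 2).ne'
  have hI2 : ∫ θ in (0 : ℝ)..(2 * π), 1 / g θ ^ 2 ≤
      ∫ θ in (0 : ℝ)..(2 * π), 1 / (g θ - h θ) ^ 2 := by
    have h1 : ∫ θ in (0 : ℝ)..(2 * π), 1 / (g θ + h θ) ^ 2 =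
        ∫ θ in (0 : ℝ)..(2 * π), 1 / (g θ - h θ) ^ 2 := by
      have h2 := Sant.shift (f := fun θ => 1 / (g θ - h θ) ^ 2) (fun x => by
        rw [h2π, hgper, hgper, hhper, hhper, neg_neg])
      simp only [hgper, hhper, sub_neg_eq_add] at h2
      exact h2
    have h3 : ∫ θ in (0 : ℝ)..(2 * π), 2 * (1 / g θ ^ 2) ≤
        ∫ θ in (0 : ℝ)..(2 * π), (1 / (g θ - h θ) ^ 2 + 1 / (g θ + h θ) ^ 2) := by
      refine intervalIntegral.integral_mono_on (by positivity)
        ((continuous_const.mul hcg).intervalIntegrable _ _)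
        ((hcm.add hcp).intervalIntegrable _ _) fun θ _ => ?_
      have a1 := hO θ
      have a2 := hO' θ
      have a3 := hgpos θ
      have a4 : 0 < (g θ - h θ) ^ 2 * (g θ + h θ) ^ 2 := by positivity
      rw [div_add_div _ _ (by positivity) (by positivity), mul_one_div,
        div_le_div_iff₀ (by positivity) a4]
      have a5 : h θ ^ 2 ≤ g θ ^ 2 := by nlinarith
      have a6 : 0 ≤ h θ ^ 2 := sq_nonneg _
      have a7 : (g θ - h θ) ^ 2 * (g θ + h θ) ^ 2 = (g θ ^ 2 - h θ ^ 2) ^ 2 := by ring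
      rw [a7]
      nlinarith [mul_nonneg a6 (sub_nonneg.2 a5)]
    rw [intervalIntegral.integral_const_mul, intervalIntegral.integral_add
      (hcm.intervalIntegrable _ _) (hcp.intervalIntegrable _ _), h1] at h3
    linarith
  rw [hI1] at hbs
  have hpos : 0 ≤ ∫ θ in (0 : ℝ)..(2 * π), r θ * g θ :=
    intervalIntegral.integral_nonneg (by positivity) fun θ _ => (mul_pos (hrpos θ) (hgpos θ)).le
  exact (mul_le_mul_of_nonneg_left hI2 hpos).trans hbs

end Pool.Agent.H97.CT
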