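import Pool.Agent.H97.CT.Stubs

set_option autoImplicit false

open Set MeasureTheory Filter Topology Complex
open scoped Real

namespace Pool.Agent.H97.CT

open Pool.Agent.H97.OB Pool.Agent.H97.OC

theorem circ_deriv (θ : ℝ) : HasDerivAt circ (tang θ) θ := by
  have h1 : HasDerivAt (fun x : ℝ => (x : ℂ) * I) (1 * I) θ :=
    (Complex.ofRealCLM.hasDerivAt (x := θ)).mul_const I
  have h2 := h1.cexp
  unfold circ tang
  convert h2 using 1
  ring

theorem circ_mul (θ : ℝ) : circ θ * exp (-(θ * I)) = 1 := by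
  unfold circ
  rw [← Complex.exp_add, add_neg_cancel, Complex.exp_zero]

theorem sit : S_sit := by
  intro Y hs hY
  refine ⟨⟨continuous_const, fun _ => one_pos, fun θ => ?_, fun θ => ?_⟩, fun θ => ?_, hY, hs⟩
  · simpa using circ_deriv θ
  · unfold circ
    have h1 : ((θ + 2 * π : ℝ) : ℂ) * I = θ * I + 2 * π * I := by push_cast; ring
    rw [h1, Complex.exp_add, Complex.exp_two_pi_mul_I, mul_one]
  · unfold sp
    rw [circ_mul]
    norm_num

end Pool.Agent.H97.CT
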