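import Pool.Agent.H97.CT.Stubs
import Pool.Agent.H97.OC.Impl

/-!
# CT-TAN: the tangent lengths of the leaves
-/

set_option autoImplicit false

open Set MeasureTheory Filter Topology Complex
open scoped Real

namespace Pool.Agent.H97.CT

open Pool.Agent.H97.OB Pool.Agent.H97.OC

namespace TanP

/-- the harmonic mean -/
noncomputable def wF (T S : ℝ → ℝ → ℝ) (c x : ℝ) : ℝ := 2 * (T c x * S c x) / (T c x + S c x)

/-- its derivative -/
noncomputable def dF (T T' S S' : ℝ → ℝ → ℝ) (c x : ℝ) : ℝ :=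
  (2 * (T' c x * S c x + T c x * S' c x) * (T c x + S c x) - 2 * (T c x * S c x) * (T' c x + S' c x)) /
    (T c x + S c x) ^ 2

noncomputable def mF (T S : ℝ → ℝ → ℝ) (x : ℝ) : ℝ := (1 / T 1 x - 1 / S 1 x) / 2

noncomputable def m1F (T T' S S' : ℝ → ℝ → ℝ) (x : ℝ) : ℝ :=
  (-T' 1 x / T 1 x ^ 2 - -S' 1 x / S 1 x ^ 2) / 2

/-- analytic properties of a tangent length -/
structure Len (T Tx Tv : ℝ → ℝ → ℝ) : Prop where
  cont : ContinuousOn (fun q : ℝ × ℝ => T q.1 q.2) (Icc 0 1 ×ˢ univ)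
  zero : ∀ x, T 0 x = 0
  pos : ∀ c, 0 < c → c ≤ 1 → ∀ x, 0 < T c x
  per : ∀ c x, T c (x + 2 * π) = T c x
  dx : ∀ c, 0 < c → c ≤ 1 → ∀ x, HasDerivAt (T c) (Tx c x) x
  dxc : ∀ c, 0 < c → c ≤ 1 → Continuous (Tx c)
  dv : ∀ c, 0 < c → c < 1 → ∀ x, HasDerivAt (fun c => T c x) (Tv c x) c
  dvc : ContinuousOn (fun q : ℝ × ℝ => Tv q.1 q.2) (Ioo 0 1 ×ˢ univ)

theorem Len.c {T Tx Tv : ℝ → ℝ → ℝ} (h : Len T Tx Tv) {c : ℝ} (h0 : 0 < c) (h1 : c ≤ 1) :
    Continuous (T c) :=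
  continuous_iff_continuousAt.2 fun x => (h.dx c h0 h1 x).continuousAt

theorem Len.cIoo {T Tx Tv : ℝ → ℝ → ℝ} (h : Len T Tx Tv) :
    ContinuousOn (fun q : ℝ × ℝ => T q.1 q.2) (Ioo 0 1 ×ˢ univ) :=
  h.cont.mono (prod_mono Ioo_subset_Icc_self subset_rfl)

variable {T Tx Tv S Sx Sv : ℝ → ℝ → ℝ}

theorem wF_pos (hT : Len T Tx Tv) (hS : Len S Sx Sv) {c : ℝ} (h0 : 0 < c) (h1 : c ≤ 1) (x : ℝ) :
    0 < wF T S c x := by
  have := hT.pos c h0 h1 x
  have := hS.pos c h0 h1 x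
  unfold wF
  positivity

theorem inv_wF (hT : Len T Tx Tv) (hS : Len S Sx Sv) {c : ℝ} (h0 : 0 < c) (h1 : c ≤ 1) (x : ℝ) :
    1 / wF T S c x = (1 / T c x + 1 / S c x) / 2 := by
  have a := hT.pos c h0 h1 x
  have b := hS.pos c h0 h1 x
  unfold wF
  field_simp
  ring

theorem wF_cont (hT : Len T Tx Tv) (hS : Len S Sx Sv) :
    ContinuousOn (fun q : ℝ × ℝ => wF T S q.1 q.2) (Icc 0 1 ×ˢ univ) := by
  rintro ⟨c, x⟩ hq
  rcases eq_or_lt_of_le hq.1.1 with h0 | h0
  · simp only at h0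
    subst h0
    have e0 : wF T S 0 x = 0 := by unfold wF; rw [hT.zero, hS.zero]; simp
    have h1 : Tendsto (fun q : ℝ × ℝ => 2 * T q.1 q.2) (𝓝[Icc 0 1 ×ˢ univ] ((0 : ℝ), x)) (𝓝 0) := by
      have := (hT.cont ((0 : ℝ), x) hq).const_mul 2
      have h2 : (2 : ℝ) * T 0 x = 0 := by rw [hT.zero, mul_zero]
      unfold ContinuousWithinAt at this
      simpa only [h2] using this
    show Tendsto _ _ (𝓝 (wF T S 0 x))
    rw [e0]
    refine tendsto_of_tendsto_of_tendsto_of_le_of_le' tendsto_const_nhds h1 ?_ ?_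
    · filter_upwards [self_mem_nhdsWithin] with q hq'
      rcases eq_or_lt_of_le hq'.1.1 with h3 | h3
      · have : wF T S q.1 q.2 = 0 := by unfold wF; rw [← h3, hT.zero, hS.zero]; simp
        rw [this]
      · exact (wF_pos hT hS h3 hq'.1.2 _).le
    · filter_upwards [self_mem_nhdsWithin] with q hq'
      rcases eq_or_lt_of_le hq'.1.1 with h3 | h3
      · have : wF T S q.1 q.2 = 0 := by unfold wF; rw [← h3, hT.zero, hS.zero]; simp
        rw [this, ← h3, hT.zero, mul_zero]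
      · have a := hT.pos q.1 h3 hq'.1.2 q.2
        have b := hS.pos q.1 h3 hq'.1.2 q.2
        unfold wF
        rw [div_le_iff₀ (by positivity)]
        nlinarith [mul_pos a a, mul_pos a b]
  · have a := hT.pos c h0 hq.1.2 x
    have b := hS.pos c h0 hq.1.2 x
    have h1 := hT.cont (c, x) hq
    have h2 := hS.cont (c, x) hq
    exact ((h1.mul h2).const_mul 2).div (h1.add h2) (by simp only; positivity)

theorem wF_dx (hT : Len T Tx Tv) (hS : Len S Sx Sv) {c : ℝ} (h0 : 0 < c) (h1 : c ≤ 1) (x : ℝ) :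
    HasDerivAt (wF T S c) (dF T Tx S Sx c x) x := by
  have a := hT.pos c h0 h1 x
  have b := hS.pos c h0 h1 x
  have h1' := hT.dx c h0 h1 x
  have h2' := hS.dx c h0 h1 x
  exact (((h1'.mul h2').const_mul 2).div (h1'.add h2') (by positivity))

theorem wF_dv (hT : Len T Tx Tv) (hS : Len S Sx Sv) {c : ℝ} (h0 : 0 < c) (h1 : c < 1) (x : ℝ) :
    HasDerivAt (fun c => wF T S c x) (dF T Tv S Sv c x) c := by
  have a := hT.pos c h0 h1.le x
  have b := hS.pos c h0 h1.le x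
  have h1' := hT.dv c h0 h1 x
  have h2' := hS.dv c h0 h1 x
  exact (((h1'.mul h2').const_mul 2).div (h1'.add h2') (by positivity))

theorem dF_cx (hT : Len T Tx Tv) (hS : Len S Sx Sv) {c : ℝ} (h0 : 0 < c) (h1 : c ≤ 1) :
    Continuous (dF T Tx S Sx c) := by
  have a := hT.c h0 h1
  have b := hS.c h0 h1
  have a' := hT.dxc c h0 h1
  have b' := hS.dxc c h0 h1
  unfold dF
  refine Continuous.div (by fun_prop) (by fun_prop) fun x => ?_
  have := hT.pos c h0 h1 x
  have := hS.pos c h0 h1 x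
  positivity

theorem dF_cv (hT : Len T Tx Tv) (hS : Len S Sx Sv) :
    ContinuousOn (fun q : ℝ × ℝ => dF T Tv S Sv q.1 q.2) (Ioo 0 1 ×ˢ univ) := by
  have a := hT.cIoo
  have b := hS.cIoo
  have a' := hT.dvc
  have b' := hS.dvc
  unfold dF
  refine ContinuousOn.div ?_ ((a.add b).pow 2) fun q hq => ?_
  · exact (((continuousOn_const.mul ((a'.mul b).add (a.mul b'))).mul (a.add b)).sub
      ((continuousOn_const.mul (a.mul b)).mul (a'.add b')))
  · have := hT.pos q.1 hq.1.1 hq.1.2.le q.2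
    have := hS.pos q.1 hq.1.1 hq.1.2.le q.2
    positivity

theorem mF_d (hT : Len T Tx Tv) (hS : Len S Sx Sv) (x : ℝ) :
    HasDerivAt (mF T S) (m1F T Tx S Sx x) x := by
  have a := hT.pos 1 one_pos le_rfl x
  have b := hS.pos 1 one_pos le_rfl x
  have h1' := (hT.dx 1 one_pos le_rfl x).inv a.ne'
  have h2' := (hS.dx 1 one_pos le_rfl x).inv b.ne'
  have h3 := (h1'.sub h2').div_const 2
  refine h3.congr_of_eventuallyEq (Eventually.of_forall fun y => ?_)
  simp only [mF, Pi.sub_apply, Pi.inv_apply, one_div]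

theorem m1F_c (hT : Len T Tx Tv) (hS : Len S Sx Sv) : Continuous (m1F T Tx S Sx) := by
  have a := hT.c one_pos le_rfl
  have b := hS.c one_pos le_rfl
  have a' := hT.dxc 1 one_pos le_rfl
  have b' := hS.dxc 1 one_pos le_rfl
  unfold m1F
  refine ((a'.neg.div (a.pow 2) fun x => ?_).sub (b'.neg.div (b.pow 2) fun x => ?_)).div_const 2
  · exact (pow_pos (hT.pos 1 one_pos le_rfl x) 2).ne'
  · exact (pow_pos (hS.pos 1 one_pos le_rfl x) 2).ne'

theorem rel (hT : Len T Tx Tv) (hS : Len S Sx Sv) {μ : ℝ → ℝ}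
    (hμ : ∀ c, 0 < c → c ≤ 1 → ∀ x, 1 / T c x = 2 * μ x + 1 / S c x) {c : ℝ} (h0 : 0 < c) (h1 : c ≤ 1)
    (x : ℝ) : 1 / T c x = 1 / wF T S c x + mF T S x ∧ 1 / S c x = 1 / wF T S c x - mF T S x := by
  have e1 := inv_wF hT hS h0 h1 x
  have e2 := hμ c h0 h1 x
  have e3 := hμ 1 one_pos le_rfl x
  rw [e1]
  unfold mF
  constructor <;> linarith

theorem tp_eq (hT : Len T Tx Tv) (hS : Len S Sx Sv) {μ : ℝ → ℝ}
    (hμ : ∀ c, 0 < c → c ≤ 1 → ∀ x, 1 / T c x = 2 * μ x + 1 / S c x) {c : ℝ} (h0 : 0 < c) (h1 : c ≤ 1)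
    (x : ℝ) : |mF T S x| * wF T S c x < 1 ∧ tp (mF T S x) (wF T S c x) = T c x ∧
      tm (mF T S x) (wF T S c x) = S c x := by
  obtain ⟨e1, e2⟩ := rel hT hS hμ h0 h1 x
  have a := hT.pos c h0 h1 x
  have b := hS.pos c h0 h1 x
  have hw := wF_pos hT hS h0 h1 x
  have p1 : 1 + mF T S x * wF T S c x = wF T S c x / T c x := by
    have : wF T S c x / T c x = wF T S c x * (1 / T c x) := by ring
    rw [this, e1]
    field_simp
  have p2 : 1 - mF T S x * wF T S c x = wF T S c x / S c x := by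
    have : wF T S c x / S c x = wF T S c x * (1 / S c x) := by ring
    rw [this, e2]
    field_simp
  have q1 : 0 < 1 + mF T S x * wF T S c x := by rw [p1]; positivity
  have q2 : 0 < 1 - mF T S x * wF T S c x := by rw [p2]; positivity
  refine ⟨?_, ?_, ?_⟩
  · rw [← abs_of_pos hw, ← abs_mul, abs_lt]
    constructor <;> linarith
  · unfold tp
    rw [p1]
    field_simp
  · unfold tm
    rw [p2]
    field_simp

end TanP

open TanP

theorem P_circ_per (x s : ℝ) : P circ (x + 2 * π) s = P circ x s := by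
  have h : exp (((x + 2 * π : ℝ) : ℂ) * I) = exp (x * I) := by
    push_cast
    rw [add_mul, Complex.exp_add, Complex.exp_two_pi_mul_I, mul_one]
  unfold P circ tang
  rw [h]

theorem conj_P (x s : ℝ) : (starRingEnd ℂ) (circ x - s * tang x) = P circ (-x) s := by
  unfold P circ tang
  rw [map_sub, map_mul, map_mul, conj_ofReal, conj_I, ← exp_conj, map_mul, conj_ofReal, conj_I]
  have : ((-x : ℝ) : ℂ) * I = x * -I := by push_cast; ring
  rw [this]
  ring

/-- the forward tangent length of a collar of the circle -/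
theorem len {Y : ℂ → ℝ} {ρ : ℝ → ℝ} (h : Sit circ ρ Y) :
    Len (Sit.sg circ Y) (fun c θ => -(fderiv ℝ Y (Sit.Z circ Y c θ) (ρ θ * tang θ - S circ Y c θ * exp (θ * I)) /
        fderiv ℝ Y (Sit.Z circ Y c θ) (tang θ))) (fun c θ => 1 / fderiv ℝ Y (Sit.Z circ Y c θ) (tang θ)) where
  cont := h.sg_continuousOn
  zero := fun x => by unfold Sit.sg; simp
  pos := fun c h0 h1 x => by rw [Sit.sg_pos' h0]; exact (h.S_spec h0 h1 x).1
  per := fun c x => by
    unfold Sit.sg S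
    simp only [P_circ_per]
  dx := fun c h0 h1 x => by
    have : Sit.sg circ Y c = fun θ => S circ Y c θ := funext fun θ => Sit.sg_pos' h0 θ
    rw [this]
    exact h.S_deriv_right h0 h1 x
  dxc := fun c h0 h1 => by
    have hi : Continuous fun θ : ℝ => ((c, θ) : ℝ × ℝ) := continuous_const.prodMk continuous_id
    have hm : ∀ θ : ℝ, ((c, θ) : ℝ × ℝ) ∈ (Ioc 0 1 ×ˢ univ : Set (ℝ × ℝ)) :=
      fun θ => ⟨⟨h0, h1⟩, mem_univ _⟩
    have k1 : Continuous fun θ => fderiv ℝ Y (Sit.Z circ Y c θ) :=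
      h.fderiv_Z_continuousOn.comp_continuous hi hm
    have k2 : Continuous fun θ => S circ Y c θ := h.S_continuousOn.comp_continuous hi hm
    have k3 : Continuous fun θ : ℝ => (ρ θ : ℂ) * tang θ - S circ Y c θ * exp (θ * I) := by
      have h1 := h.oval.cont
      have h2 := tang_continuous
      fun_prop
    refine ((k1.clm_apply k3).div (k1.clm_apply tang_continuous) fun θ => ?_).neg
    exact (h.beta_pos h0 h1 θ).ne'
  dv := fun c h0 h1 x => by
    refine (h.S_deriv_left h0 h1 x).congr_of_eventuallyEq ?_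
    filter_upwards [lt_mem_nhds h0] with c' hc'
    exact Sit.sg_pos' hc' x
  dvc := h.Sc_continuousOn.mono (prod_mono Ioo_subset_Ioc_self subset_rfl)

/-- the reflection `x ↦ -x` -/
theorem len_neg {T Tx Tv : ℝ → ℝ → ℝ} (h : Len T Tx Tv) :
    Len (fun c x => T c (-x)) (fun c x => -Tx c (-x)) (fun c x => Tv c (-x)) where
  cont := h.cont.comp (continuous_fst.prodMk continuous_snd.neg).continuousOn
    fun q hq => ⟨hq.1, mem_univ _⟩
  zero := fun x => h.zero _
  pos := fun c h0 h1 x => h.pos c h0 h1 _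
  per := fun c x => by
    have := h.per c (-(x + 2 * π))
    rw [← this]
    congr 1
    ring
  dx := fun c h0 h1 x => by
    have h1' := (h.dx c h0 h1 (-x)).comp x (hasDerivAt_neg x)
    refine h1'.congr_deriv ?_
    ring
  dxc := fun c h0 h1 => ((h.dxc c h0 h1).comp continuous_neg).neg
  dv := fun c h0 h1 x => h.dv c h0 h1 _
  dvc := h.dvc.comp (continuous_fst.prodMk continuous_snd.neg).continuousOn
    fun q hq => ⟨hq.1, mem_univ _⟩

theorem tan_data : S_tan := by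
  intro Hsit Hconj H2 Y hY hσ
  set Y' : ℂ → ℝ := fun z => Y ((starRingEnd ℂ) z) with hY'
  have h := Hsit Y H2 hY
  have h' := Hsit Y' H2 (Hconj Y hY)
  obtain ⟨T, hT⟩ : ∃ T, T = Sit.sg circ Y := ⟨_, rfl⟩
  obtain ⟨R, hR⟩ : ∃ R : ℝ → ℝ → ℝ, R = fun c x => Sit.sg circ Y' c (-x) := ⟨_, rfl⟩
  obtain ⟨Tx, Tv, L1⟩ : ∃ Tx Tv, Len T Tx Tv := ⟨_, _, by rw [hT]; exact len h⟩
  obtain ⟨Rx, Rv, L2⟩ : ∃ Rx Rv, Len R Rx Rv := ⟨_, _, by rw [hR]; exact len_neg (len h')⟩
  -- the points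
  have pT : ∀ c, 0 < c → c ≤ 1 → ∀ x, Y (circ x + T c x * tang x) = c := by
    intro c h0 h1 x
    have := (h.S_spec h0 h1 x).2
    rw [hT, Sit.sg_pos' h0]
    exact this
  have pR : ∀ c, 0 < c → c ≤ 1 → ∀ x, Y (circ x - R c x * tang x) = c := by
    intro c h0 h1 x
    have e := (h'.S_spec h0 h1 (-x)).2
    rw [hR]
    simp only
    rw [Sit.sg_pos' h0]
    have e2 : Y' ((starRingEnd ℂ) (circ x - (S circ Y' c (-x) : ℝ) * tang x)) = c := by
      rw [conj_P]; exact e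
    rw [hY'] at e2
    simp only [Complex.conj_conj] at e2
    exact e2
  choose μ hμ' using hσ
  have hμ : ∀ c, 0 < c → c ≤ 1 → ∀ x, 1 / T c x = 2 * μ x + 1 / R c x := by
    intro c h0 h1 x
    refine hμ' x (R c x) (T c x) (L2.pos c h0 h1 x) (L1.pos c h0 h1 x) ?_ ?_
    · rw [pT c h0 h1, pR c h0 h1]
    · rw [pT c h0 h1]; exact h1
  refine ⟨mF T R, m1F T Tx R Rx, wF T R, dF T Tx R Rx, dF T Tv R Rv, ?_⟩
  have hmd := mF_d L1 L2
  have hmp : ∀ x, mF T R (x + 2 * π) = mF T R x := by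
    intro x
    unfold mF
    rw [L1.per, L2.per]
  exact
    { mc := m1F_c L1 L2
      md := hmd
      mp := hmp
      m1p := fun x => by
        have e1 := (hmd (x + 2 * π)).comp_add_const x (2 * π)
        have e2 : (fun y => mF T R (y + 2 * π)) = mF T R := funext hmp
        rw [e2] at e1
        exact e1.unique (hmd x)
      wc := wF_cont L1 L2
      w0 := fun x => by
        unfold wF
        rw [L1.zero, L2.zero]; simp
      wpos := fun c h0 h1 x => ⟨wF_pos L1 L2 h0 h1 x, (tp_eq L1 L2 hμ h0 h1 x).1⟩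
      wper := fun c h0 h1 x => by
        unfold wF
        rw [L1.per, L2.per]
      wd := fun c h0 h1 x => wF_dx L1 L2 h0 h1 x
      uc := fun c h0 h1 => dF_cx L1 L2 h0 h1
      wv := fun c h0 h1 x => wF_dv L1 L2 h0 h1 x
      vc := dF_cv L1 L2
      pt := fun c h0 h1 x => by
        obtain ⟨-, e1, e2⟩ := tp_eq L1 L2 hμ h0 h1 x
        rw [e1, e2]
        exact ⟨pT c h0 h1 x, pR c h0 h1 x⟩
      up := fun c h0 h1 x s hs hc => by
        obtain ⟨-, e1, e2⟩ := tp_eq L1 L2 hμ h0 h1 x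
        rw [e1, hT, Sit.sg_pos' h0]
        exact h.S_unique h0 h1 hs hc
      un := fun c h0 h1 x s hs hc => by
        obtain ⟨-, e1, e2⟩ := tp_eq L1 L2 hμ h0 h1 x
        rw [e2, hR]
        simp only
        rw [Sit.sg_pos' h0]
        refine h'.S_unique h0 h1 hs ?_
        rw [← conj_P, hY']
        simp only [Complex.conj_conj]
        exact hc }

end Pool.Agent.H97.CT
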