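import Pool.Agent.H97.CT.Main
import Pool.Agent.H97.CT.Bsc
import Pool.Agent.H97.CT.Conj
import Pool.Agent.H97.CT.Four
import Pool.Agent.H97.CT.Geo
import Pool.Agent.H97.CT.Half
import Pool.Agent.H97.CT.Hopf
import Pool.Agent.H97.CT.Ineq
import Pool.Agent.H97.CT.Leaf
import Pool.Agent.H97.CT.Mono
import Pool.Agent.H97.CT.Pol
import Pool.Agent.H97.CT.Sant
import Pool.Agent.H97.CT.Sit
import Pool.Agent.H97.CT.Tan
import Pool.Agent.H97.IN.Rad

/-!
# Collars of the unit circle with arbitrary projective involutions: the theorem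
-/

set_option autoImplicit false

open Set Complex
open scoped Real

namespace Pool.Agent.H97.CT

open Pool.Agent.H97.OB Pool.Agent.H97.OC

theorem circle_projective {Y : ℂ → ℝ} (hY : IsCollar circ Y)
    (hσ : ∀ θ, SigmaProjective circ Y θ) (h4 : OuterLeafSymmetricFourPeriodic circ Y) :
    ∃ a b d : ℝ, 0 < a ∧ b ^ 2 < a * d ∧ ∀ c : ℝ, 0 ≤ c → c ≤ 1 → ∃ l : ℝ, 0 ≤ l ∧
      0 < 1 - l * a ∧ (l * b) ^ 2 < (1 - l * a) * (1 - l * d) ∧
      ∀ z : ℂ, Y z = c ↔
        z.re ^ 2 + z.im ^ 2 - 1 = l * (a * z.re ^ 2 + 2 * b * z.re * z.im + d * z.im ^ 2) :=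
  circle_rigidity sit conj_collar tan_data pol Pool.Agent.H97.IN.rad (ineqC hopfC monoC) four half
    sant bsC leafC geoC hY hσ h4

end Pool.Agent.H97.CT
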