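import Pool.Agent.H97.CT.Stubs
import Pool.Agent.H97.OC.Second

/-!
# Collars of the unit circle with arbitrary projective involutions: assembly
-/

set_option autoImplicit false

open Set MeasureTheory Filter Topology Complex
open scoped Real

namespace Pool.Agent.H97.CT

open Pool.Agent.H97.OB Pool.Agent.H97.OC

theorem circle_rigidity (Hsit : S_sit) (Hconj : S_conj) (Htan : S_tan) (Hpol : S_pol)
    (Hrad : Pool.Agent.H97.IN.S_rad) (Hineq : S_ineqC) (Hfour : S_four) (Hhalf : S_half)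
    (Hsant : S_sant) (Hbs : S_bsC) (Hleaf : S_leafC) (Hgeo : S_geoC) {Y : ℂ → ℝ}
    (hY : IsCollar circ Y) (hσ : ∀ θ, SigmaProjective circ Y θ)
    (h4 : OuterLeafSymmetricFourPeriodic circ Y) :
    ∃ a b d : ℝ, 0 < a ∧ b ^ 2 < a * d ∧ ∀ c : ℝ, 0 ≤ c → c ≤ 1 → ∃ l : ℝ, 0 ≤ l ∧
      0 < 1 - l * a ∧ (l * b) ^ 2 < (1 - l * a) * (1 - l * d) ∧
      ∀ z : ℂ, Y z = c ↔
        z.re ^ 2 + z.im ^ 2 - 1 = l * (a * z.re ^ 2 + 2 * b * z.re * z.im + d * z.im ^ 2) := by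
  obtain ⟨m, m1, w, u, v, hT⟩ := Htan Hsit Hconj second Y hY hσ
  obtain ⟨G, G1, G2, hF⟩ := Hpol Hrad Y m m1 w u v (Hsit Y second hY) hT
  obtain ⟨b, b1, hL, htp, htm, hw⟩ := Hfour Y m m1 G G1 G2 w u v hF h4
  obtain ⟨hE, hmp, hm0, hint⟩ := Hhalf m m1 b b1 hL
  obtain ⟨hI1, hI2⟩ := Hineq Y m m1 G G1 G2 w u v hF hE
  obtain ⟨hB1, hB2⟩ := Hbs Hsant m m1 hF.mc hF.md hmp hm0 hE
  have hPsi : (∫ x in (0 : ℝ)..(2 * π), PsiC (EE (m x) (m1 x)) (m x) (w 1 x)) =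
      π / 2 * ((∫ x in (0 : ℝ)..(2 * π), √(EE (m x) (m1 x))) - 2 * π) := by
    rw [← hint]
    refine intervalIntegral.integral_congr fun x _ => ?_
    have e1 : Real.arctan (w 1 x / (1 + m x * w 1 x)) = b x := by
      have h1 : w 1 x / (1 + m x * w 1 x) = Real.tan (b x) := htp x
      rw [h1, Real.arctan_tan (by linarith [(hL.b0 x).1, Real.pi_pos]) (hL.b0 x).2]
    have e2 : Real.arctan (w 1 x / (1 - m x * w 1 x)) = π / 2 - b x := by
      have h1 : w 1 x / (1 - m x * w 1 x) = Real.tan (π / 2 - b x) := htm x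
      rw [h1, Real.arctan_tan (by linarith [(hL.b0 x).2, Real.pi_pos]) (by linarith [(hL.b0 x).1])]
    simp only [PsiC]
    rw [e1, e2, hw x]
    ring
  have hge : 2 * π ≤ ∫ x in (0 : ℝ)..(2 * π), √(EE (m x) (m1 x)) := by
    rw [hPsi] at hI1
    by_contra hcon
    push Not at hcon
    have : π / 2 * ((∫ x in (0 : ℝ)..(2 * π), √(EE (m x) (m1 x))) - 2 * π) < 0 :=
      mul_neg_of_pos_of_neg (by positivity) (by linarith)
    linarith
  obtain ⟨A, B, C, hC, hABC, hm, hEq⟩ := hB2 hge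
  have hle : (∫ x in (0 : ℝ)..(2 * π), PsiC (EE (m x) (m1 x)) (m x) (w 1 x)) ≤ 0 := by
    rw [hPsi]
    exact mul_nonpos_of_nonneg_of_nonpos (by positivity) (by linarith)
  have heq := hI2 hle
  have hleaf := Hleaf m m1 w u A B C hC hABC hm hEq hF.wc
    (fun c h0 h1 x => (hF.wpos c h0 h1 x).1) hF.wd heq
  exact Hgeo Y m m1 G G1 G2 w u v hF hY.leaf_zero A B C hC hABC hm hleaf

end Pool.Agent.H97.CT
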