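import Pool.Agent.H97.CT.Defs
import Pool.Agent.H97.IN.Stubs2
import Pool.Agent.H97.OC.Polar

/-!
Statements of the lemmas of project CT (MP_ae5b4e_an: Q1 for `γ` the unit circle and arbitrary
projective involutions).  Each `S_x` is to be proved as `theorem x : S_x` in its own file
`Pool/Agent/H97/CT/X.lean` (names in the task list).
-/

set_option autoImplicit false

open Set MeasureTheory Filter Topology Complex
open scoped Real

namespace Pool.Agent.H97.CT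

open Pool.Agent.H97.OB Pool.Agent.H97.OC

/-! ### Geometry of the collar -/

/-- Tangent lengths of the leaves: on the tangent line at `circ x` the leaf `{Y = c}` has exactly the
points with signed distances `tp (m x) (w c x)` and `-tm (m x) (w c x)`. -/
structure Tan (Y : ℂ → ℝ) (m m1 : ℝ → ℝ) (w u v : ℝ → ℝ → ℝ) : Prop where
  mc : Continuous m1
  md : ∀ x, HasDerivAt m (m1 x) x
  mp : ∀ x, m (x + 2 * π) = m x
  m1p : ∀ x, m1 (x + 2 * π) = m1 x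
  wc : ContinuousOn (fun x : ℝ × ℝ => w x.1 x.2) (Icc 0 1 ×ˢ univ)
  w0 : ∀ x, w 0 x = 0
  wpos : ∀ c, 0 < c → c ≤ 1 → ∀ x, 0 < w c x ∧ |m x| * w c x < 1
  wper : ∀ c, 0 < c → c ≤ 1 → ∀ x, w c (x + 2 * π) = w c x
  wd : ∀ c, 0 < c → c ≤ 1 → ∀ x, HasDerivAt (w c) (u c x) x
  uc : ∀ c, 0 < c → c ≤ 1 → Continuous (u c)
  wv : ∀ c, 0 < c → c < 1 → ∀ x, HasDerivAt (fun c => w c x) (v c x) c
  vc : ContinuousOn (fun x : ℝ × ℝ => v x.1 x.2) (Ioo 0 1 ×ˢ univ)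
  pt : ∀ c, 0 < c → c ≤ 1 → ∀ x, Y (circ x + tp (m x) (w c x) * tang x) = c ∧
    Y (circ x - tm (m x) (w c x) * tang x) = c
  up : ∀ c, 0 < c → c ≤ 1 → ∀ x s : ℝ, 0 < s → Y (circ x + s * tang x) = c →
    s = tp (m x) (w c x)
  un : ∀ c, 0 < c → c ≤ 1 → ∀ x s : ℝ, 0 < s → Y (circ x - s * tang x) = c →
    s = tm (m x) (w c x)

/-- CT-SIT: `Sit circ 1 Y` for a collar of the unit circle (`sp circ = 1`, `sq circ = 0`; `second` is
`Pool.Agent.H97.OC.second` in `OC/Second.lean`). -/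
def S_sit : Prop := ∀ Y : ℂ → ℝ, S_second2 → IsCollar circ Y → Sit circ (fun _ => 1) Y

/-- CT-CONJ: the reflected collar (to get the tangent lengths in the negative direction:
`conj (circ x - s tang x) = circ (-x) + s tang (-x)`). -/
def S_conj : Prop := ∀ Y : ℂ → ℝ, IsCollar circ Y →
  IsCollar circ (fun z => Y ((starRingEnd ℂ) z))

/-- CT-TAN.
Proof.  Let `t c x = S circ Y c x` (the forward tangent length, `OC/Impl.lean`: `S_spec`, `S_unique`,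
`S_deriv_right`, `S_deriv_left`, `sg_continuousOn`, `Sc_continuousOn`) and
`s c x = S circ (Y ∘ conj) c (-x)`.  By `SigmaProjective`, `1 / t = 2 m + 1 / s` with `m` depending on
`x` only; so `m x = (1 / t 1 x - 1 / s 1 x) / 2` is `C¹` and periodic.  Put `1 / w = 1 / t - m =
1 / s + m = (1 / t + 1 / s) / 2`, that is `w = 2 t s / (t + s)` (`0` for `c = 0`); then
`t = w / (1 + m w)`, `s = w / (1 - m w)`, `1 / w > |m|`. -/
def S_tan : Prop := S_sit → S_conj → S_second2 → ∀ Y : ℂ → ℝ, IsCollar circ Y →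
  (∀ θ, SigmaProjective circ Y θ) → ∃ (m m1 : ℝ → ℝ) (w u v : ℝ → ℝ → ℝ), Tan Y m m1 w u v

/-- CT-POL: the polar description (compare `Pool/Agent/H97/IN/Sig.lean`; `S_rad` is proved in
`Pool/Agent/H97/IN/Rad.lean` as `rad`).
Proof.  `circ x + tan b • tang x = exp ((x + b) i) / cos b`, so with `b = arctan tp`, `e = arctan tm`
we have `plus`, `minus` by uniqueness on rays.  Differentiating them in `x`:
`b' = (u - m1 w²) / ((1 + m w)² + w²)`, `e' = (u + m1 w²) / ((1 - m w)² + w²)`,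
`(G1 (x + b) + sin b) (1 + b') = sin b > 0` and `(G1 (x - e) - sin e) (1 - e') = -sin e < 0`; so
`1 + b'`, `1 - e'` never vanish, are continuous and have mean value `1` over a period: they are
positive (`posp`, `posm` are `1 + b'`, `1 - e'` times `(1 ± m w)² + w²`).  Differentiating in `c`
(`0 < c < 1`, joint differentiability of `G`): `G2 (x + b) (1 + b') = sin b ∂b/∂c`,
`∂b/∂c = v / ((1 + m w)² + w²)`, the same for `e`; `G2 > 0` gives `v > 0`.  `next`: from `up`, `un`. -/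
def S_pol : Prop := Pool.Agent.H97.IN.S_rad → ∀ (Y : ℂ → ℝ) (m m1 : ℝ → ℝ) (w u v : ℝ → ℝ → ℝ),
  Sit circ (fun _ => 1) Y → Tan Y m m1 w u v → ∃ G G1 G2 : ℝ → ℝ → ℝ, FolC Y m m1 G G1 G2 w u v

/-! ### The Hopf inequality -/

/-- CT-HOPF: the integrated identity on one leaf (compare `Pool/Agent/H97/IN/Hopf.lean`).
Proof.  Let `b = arctan tp`, `e = arctan tm`, `D = (1 + m w)² + w²`, `D' = (1 - m w)² + w²`,
`X = D + u - m1 w²`, `X' = D' - u - m1 w²`, so `1 + b' = X / D`, `1 - e' = X' / D'`,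
`X + X' = 2 (1 + E w²)`.  The function `F = -G² G1 G2 / (1 - G²)²` is continuous and `2 π`-periodic
(`0 < G < 1` everywhere: every `φ` is `x + b x` modulo nothing, as `x ↦ x + b x` is onto).  By the
substitutions `φ = x + b x`, `φ = x - e x`: `∫ F (x + b) (1 + b') = ∫ F (x - e) (1 - e')`.  From
`plus`: `G1 (x + b) (1 + b') = -sin b b'`, so
`F (x + b) (1 + b') = cot² b * (v / D) * b' / (1 + b') = (1 + m w)² / w² * (v / D) * (1 - D / X)`,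
and `F (x - e) (1 - e') = (1 - m w)² / w² * (v / D') * (D' / X' - 1)`.  Hence
`∫ (v / w²) [(1 + m w)² / D + (1 - m w)² / D'] = ∫ (v / w²) [(1 + m w)² / X + (1 - m w)² / X']`, where
`(1 ± m w)² / D = 1 - w² / D`, and
`(1 + m w)² / X + (1 - m w)² / X' = 4 / (X + X') + ((1 + m w) X' - (1 - m w) X)² / (X X' (X + X'))`,
`(1 + m w) X' - (1 - m w) X = -2 (u + m w - m E w³)`; subtract `∫ (v / w²) * 2 / (1 + E w²)`. -/
def S_hopfC : Prop := ∀ (m m1 w u v G G1 G2 : ℝ → ℝ),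
  Continuous m1 → (∀ x, HasDerivAt m (m1 x) x) → (∀ x, m (x + 2 * π) = m x) →
  Continuous u → Continuous v → Continuous G1 → Continuous G2 →
  (∀ x, HasDerivAt w (u x) x) → (∀ x, 0 < w x ∧ |m x| * w x < 1) → (∀ x, w (x + 2 * π) = w x) →
  (∀ φ, 0 < G φ) →
  (∀ φ, G (φ + 2 * π) = G φ) → (∀ φ, G2 (φ + 2 * π) = G2 φ) → (∀ φ, HasDerivAt G (G1 φ) φ) →
  (∀ x, 0 < (1 + m x * w x) ^ 2 + w x ^ 2 + u x - m1 x * w x ^ 2) →
  (∀ x, 0 < (1 - m x * w x) ^ 2 + w x ^ 2 - u x - m1 x * w x ^ 2) →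
  (∀ x, G (x + Real.arctan (tp (m x) (w x))) = Real.cos (Real.arctan (tp (m x) (w x)))) →
  (∀ x, G (x - Real.arctan (tm (m x) (w x))) = Real.cos (Real.arctan (tm (m x) (w x)))) →
  (∀ x, G2 (x + Real.arctan (tp (m x) (w x))) *
      ((1 + m x * w x) ^ 2 + w x ^ 2 + u x - m1 x * w x ^ 2) =
      v x * Real.sin (Real.arctan (tp (m x) (w x)))) →
  (∀ x, G2 (x - Real.arctan (tm (m x) (w x))) *
      ((1 - m x * w x) ^ 2 + w x ^ 2 - u x - m1 x * w x ^ 2) =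
      v x * Real.sin (Real.arctan (tm (m x) (w x)))) →
  ∫ x in (0 : ℝ)..(2 * π), QC (EE (m x) (m1 x)) (m x) (w x) * v x =
    ∫ x in (0 : ℝ)..(2 * π), NC (m x) (m1 x) (w x) (u x) * v x

/-- CT-MONO: monotonicity of `c ↦ ∫ PsiC (w c x) dx` and the equality case (copy of
`Pool/Agent/H97/IN/Mono.lean`; `d/dw PsiC = QC` for `|m| w < 1`, `w ≥ 0`). -/
def S_monoC : Prop := ∀ (m m1 : ℝ → ℝ) (w v : ℝ → ℝ → ℝ), Continuous m → Continuous m1 →
  (∀ x, 0 < EE (m x) (m1 x)) →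
  ContinuousOn (fun x : ℝ × ℝ => w x.1 x.2) (Icc 0 1 ×ˢ univ) →
  ContinuousOn (fun x : ℝ × ℝ => v x.1 x.2) (Ioo 0 1 ×ˢ univ) →
  (∀ c ∈ Ioo (0 : ℝ) 1, ∀ x, HasDerivAt (fun c => w c x) (v c x) c) →
  (∀ x, w 0 x = 0) → (∀ c ∈ Ioc (0 : ℝ) 1, ∀ x, 0 < w c x ∧ |m x| * w c x < 1) →
  (∀ c ∈ Ioo (0 : ℝ) 1,
    0 ≤ ∫ x in (0 : ℝ)..(2 * π), QC (EE (m x) (m1 x)) (m x) (w c x) * v c x) →
  0 ≤ (∫ x in (0 : ℝ)..(2 * π), PsiC (EE (m x) (m1 x)) (m x) (w 1 x)) ∧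
  ((∫ x in (0 : ℝ)..(2 * π), PsiC (EE (m x) (m1 x)) (m x) (w 1 x)) ≤ 0 →
    ∀ c ∈ Ioo (0 : ℝ) 1,
      ∫ x in (0 : ℝ)..(2 * π), QC (EE (m x) (m1 x)) (m x) (w c x) * v c x = 0)

/-- CT-INEQ: the Hopf functional of a foliated collar is nonnegative, with the equality case (from
S_hopfC and S_monoC, compare `Pool/Agent/H97/IN/Ineq.lean`; `NC v ≥ 0` is continuous, `v > 0`, and
`NC = 0` only if `u + m w - m E w³ = 0`). -/
def S_ineqC : Prop := ∀ (Y : ℂ → ℝ) (m m1 : ℝ → ℝ) (G G1 G2 w u v : ℝ → ℝ → ℝ),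
  FolC Y m m1 G G1 G2 w u v → (∀ x, 0 < EE (m x) (m1 x)) →
  0 ≤ (∫ x in (0 : ℝ)..(2 * π), PsiC (EE (m x) (m1 x)) (m x) (w 1 x)) ∧
  ((∫ x in (0 : ℝ)..(2 * π), PsiC (EE (m x) (m1 x)) (m x) (w 1 x)) ≤ 0 →
    ∀ c ∈ Ioo (0 : ℝ) 1, ∀ x,
      u c x + m x * w c x - m x * EE (m x) (m1 x) * w c x ^ 3 = 0)

/-! ### The leaf of 4-periodic orbits -/

/-- Data of the leaf of symmetric quadrilaterals: `b` is the polar angle of the forward point. -/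
structure Leaf4 (m m1 b b1 : ℝ → ℝ) : Prop where
  mc : Continuous m1
  md : ∀ x, HasDerivAt m (m1 x) x
  bc : Continuous b1
  bd : ∀ x, HasDerivAt b (b1 x) x
  b0 : ∀ x, 0 < b x ∧ b x < π / 2
  bper : ∀ x, b (x + 2 * π) = b x
  mb : ∀ x, m x * Real.sin (2 * b x) = Real.cos (2 * b x)
  fpos : ∀ x, 0 < 1 + 2 * b1 x
  bf : ∀ x, b (x + 2 * b x) = π / 2 - b x

/-- CT-FOUR.
Proof.  `b x = arctan (tp (m x) (w 1 x))`, `e x = arctan (tm (m x) (w 1 x))`.  For given `x` let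
`z = circ x - tm tang x = exp ((x - e x) i) / cos (e x)`.  By `FolC.next` (and since `x ↦ x - e x`,
`x ↦ x + b x` are strictly increasing, commute with the shift by `2 π` and are onto; polar angles
determine the leaf point) the next point is `w' = circ x + tp tang x`, and there is `y` with
`w' = circ y - tm tang y`, `-z = circ y + tp tang y`.  Moduli: `b x = e y` and `b y = e x`; polar
angles: `x + b x = y - e y + 2 π k` and `y + b y = x - e x + π + 2 π l`.  Replace `y` by `y + 2 π k`: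
`y = x + 2 b x`, and adding, `b x + e y + b y + e x = π + 2 π n`; the left-hand side is in `(0, 2 π)`, so
`b x + e x = π / 2`.  So `tp tm = 1`, which gives `w² (1 + m²) = 1`, `w = sin (2 b)`, `m = cot (2 b)`,
and `bf`.  `fpos`: `(x + b x)' = (y - e y)' y'` with `y = x + 2 b x`, both factors `(x + b)'`,
`(y - e)'` positive (`posp`, `posm`). -/
def S_four : Prop := ∀ (Y : ℂ → ℝ) (m m1 : ℝ → ℝ) (G G1 G2 w u v : ℝ → ℝ → ℝ),
  FolC Y m m1 G G1 G2 w u v → OuterLeafSymmetricFourPeriodic circ Y →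
  ∃ b b1 : ℝ → ℝ, Leaf4 m m1 b b1 ∧ (∀ x, tp (m x) (w 1 x) = Real.tan (b x)) ∧
    (∀ x, tm (m x) (w 1 x) = Real.tan (π / 2 - b x)) ∧ ∀ x, w 1 x = Real.sin (2 * b x)

/-- CT-HALF.
Proof.  `m = cot (2 b)`, so `m1 = -2 b1 / sin² (2 b)` and `E = (1 + 2 b1) / sin² (2 b) > 0`.  Put
`f x = x + 2 b x`, `f' = 1 + 2 b1`; `f (f x) = x + π`, so `b (x + π) = b x`, `m (x + π) = m x`,
`f' (f x) f' x = 1`, `m (f x) = -m x`.  `f` maps a period onto a period, so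
`∫ m = ∫ m (f x) f' x = -∫ m (1 + 2 b1)` and `∫ m b1 = ∫ cot (2 b) b1 = 0` (derivative of
`log (sin (2 b)) / 2`), whence `∫ m = 0`.  With `k = f' x`, `√E = √k / sin (2 b)`, `√E w = √k`:
`PsiC = 2 √E arctan √k - π / 2`, and `∫ 2 √E arctan √k` is, by the substitution `x ↦ f x`, equal to
`∫ 2 (1 / (√k sin (2 b))) arctan (1 / √k) k = ∫ 2 √E (π / 2 - arctan √k)`; the mean of the two is
`(π / 2) ∫ √E`. -/
def S_half : Prop := ∀ m m1 b b1 : ℝ → ℝ, Leaf4 m m1 b b1 →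
  (∀ x, 0 < EE (m x) (m1 x)) ∧ (∀ x, m (x + π) = m x) ∧ (∫ x in (0 : ℝ)..(2 * π), m x) = 0 ∧
  ∫ x in (0 : ℝ)..(2 * π), (2 * √(EE (m x) (m1 x)) *
      Real.arctan (√(EE (m x) (m1 x)) * Real.sin (2 * b x)) - π / 2) =
    π / 2 * ((∫ x in (0 : ℝ)..(2 * π), √(EE (m x) (m1 x))) - 2 * π)

/-- CT-SANT: Blaschke-Santaló for a centrally symmetric body with support function `g`.
Proof.  Apply `Pool.Agent.H97.OC.bs` (`OC/BS.lean`, `S_bs`) to `γ θ = (g θ + g1 θ i) exp (θ i)`, whose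
derivative is `r θ (i exp (θ i))`: there is `O` with `g θ - ⟨O, e θ⟩ > 0` and
`∫ r (g - ⟨O, e⟩) ∫ 1 / (g - ⟨O, e⟩)² ≤ 4 π²`; `∫ r ⟨O, e⟩ = 0` and
`∫ 1 / (g - ⟨O, e⟩)² = ∫ (1 / (g - ⟨O, e⟩)² + 1 / (g + ⟨O, e⟩)²) / 2 ≥ ∫ 1 / g²` (shift by `π`). -/
def S_sant : Prop := ∀ g g1 r : ℝ → ℝ, Continuous r → (∀ x, HasDerivAt g (g1 x) x) →
  (∀ x, HasDerivAt g1 (r x - g x) x) → (∀ x, 0 < g x) → (∀ x, 0 < r x) →
  (∀ x, g (x + π) = g x) →
  (∫ x in (0 : ℝ)..(2 * π), r x * g x) * (∫ x in (0 : ℝ)..(2 * π), 1 / g x ^ 2) ≤ 4 * π ^ 2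

/-- CT-BSC.
Proof.  `g x = exp (-∫₀ˣ m)` is `π`-periodic, `g' = -m g`, `g'' = (m² - m1) g`, so `g + g'' = E g`.
By S_sant and Cauchy-Schwarz `(∫ √E)² ≤ (∫ E g²) (∫ g⁻²) ≤ 4 π²`.  If `∫ √E = 2 π` there is equality
in Cauchy-Schwarz, so `E g² = κ g⁻²`, `κ > 0` (continuity).  Put `q = g²`: `q' = -2 m q`,
`E q² = κ`; the function `I = m² q + q + κ / q` has derivative `0` (use `m1 = 1 + m² - κ / q²`), and
`q'' = 2 m² q - 2 q + 2 κ / q = 2 I - 4 q`, so `q = C + A cos 2x + B sin 2x` with `C = I / 2`, and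
`q'² / 4 + q² + κ = 2 C q` gives `κ = C² - A² - B²`. -/
def S_bsC : Prop := S_sant → ∀ m m1 : ℝ → ℝ, Continuous m1 → (∀ x, HasDerivAt m (m1 x) x) →
  (∀ x, m (x + π) = m x) → (∫ x in (0 : ℝ)..(2 * π), m x) = 0 → (∀ x, 0 < EE (m x) (m1 x)) →
  (∫ x in (0 : ℝ)..(2 * π), √(EE (m x) (m1 x))) ≤ 2 * π ∧
  (2 * π ≤ (∫ x in (0 : ℝ)..(2 * π), √(EE (m x) (m1 x))) →
    ∃ A B C : ℝ, 0 < C ∧ A ^ 2 + B ^ 2 < C ^ 2 ∧
      (∀ x, m x * (A * Real.cos (2 * x) + B * Real.sin (2 * x) + C) =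
        A * Real.sin (2 * x) - B * Real.cos (2 * x)) ∧
      ∀ x, EE (m x) (m1 x) * (A * Real.cos (2 * x) + B * Real.sin (2 * x) + C) ^ 2 =
        C ^ 2 - A ^ 2 - B ^ 2)

/-! ### Conclusion -/

/-- CT-LEAF: the equality case on the leaves.
Proof.  With `q = A cos 2x + B sin 2x + C > 0`, `κ = C² - A² - B² > 0`: `q' = -2 m q`, `E = κ / q²`,
and for `0 < c < 1` the function `q / w² + κ / q` has derivative `0` (by the equation for `u`), so it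
is a constant `k`, that is `q² = w² (k q - κ)`; `k > 0`.  For `c = 1` by continuity of `w` in `c`. -/
def S_leafC : Prop := ∀ (m m1 : ℝ → ℝ) (w u : ℝ → ℝ → ℝ) (A B C : ℝ), 0 < C →
  A ^ 2 + B ^ 2 < C ^ 2 →
  (∀ x, m x * (A * Real.cos (2 * x) + B * Real.sin (2 * x) + C) =
    A * Real.sin (2 * x) - B * Real.cos (2 * x)) →
  (∀ x, EE (m x) (m1 x) * (A * Real.cos (2 * x) + B * Real.sin (2 * x) + C) ^ 2 =
    C ^ 2 - A ^ 2 - B ^ 2) →
  ContinuousOn (fun x : ℝ × ℝ => w x.1 x.2) (Icc 0 1 ×ˢ univ) →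
  (∀ c, 0 < c → c ≤ 1 → ∀ x, 0 < w c x) →
  (∀ c, 0 < c → c ≤ 1 → ∀ x, HasDerivAt (w c) (u c x) x) →
  (∀ c ∈ Ioo (0 : ℝ) 1, ∀ x,
    u c x + m x * w c x - m x * EE (m x) (m1 x) * w c x ^ 3 = 0) →
  ∀ c, 0 < c → c ≤ 1 → ∃ k : ℝ, 0 < k ∧
    ∀ x, (A * Real.cos (2 * x) + B * Real.sin (2 * x) + C) ^ 2 =
      w c x ^ 2 * (k * (A * Real.cos (2 * x) + B * Real.sin (2 * x) + C) - (C ^ 2 - A ^ 2 - B ^ 2))

/-- CT-GEO: conclusion.  `a = C + A`, `b = B`, `d = C - A`, `l = 1 / k` (`l = 0` for `c = 0`).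
Proof.  `n z = a z.re² + 2 b z.re z.im + d z.im²` is `q x` at `circ x`, and
`n (circ x + t tang x) = q + t q' + t² (2 C - q)`, `q' = -2 m q`.  For a point
`z = circ x + tp tang x` of the leaf, `1 / tp = 1 / w + m`, so `k (|z|² - 1) = n z` is equivalent to
`q / w² - m² q + 2 C - q = k`, which follows from `q² = w² (k q - κ)` and `m² q² = A² + B² - (q - C)²`.
Every leaf point has the form `exp (φ i) / G c φ` and every `φ` is `x + arctan tp` for some `x`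
(continuity), so the leaf lies on the conic; `|z|² (k - n (exp (φ i))) = k > 0` shows that
`k - n > 0` on the circle (positive definiteness) and that each ray meets the conic once, which gives
the converse. -/
def S_geoC : Prop := ∀ (Y : ℂ → ℝ) (m m1 : ℝ → ℝ) (G G1 G2 w u v : ℝ → ℝ → ℝ),
  FolC Y m m1 G G1 G2 w u v → (∀ z, Y z = 0 ↔ z ∈ range circ) →
  ∀ A B C : ℝ, 0 < C → A ^ 2 + B ^ 2 < C ^ 2 →
  (∀ x, m x * (A * Real.cos (2 * x) + B * Real.sin (2 * x) + C) =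
    A * Real.sin (2 * x) - B * Real.cos (2 * x)) →
  (∀ c, 0 < c → c ≤ 1 → ∃ k : ℝ, 0 < k ∧
    ∀ x, (A * Real.cos (2 * x) + B * Real.sin (2 * x) + C) ^ 2 =
      w c x ^ 2 * (k * (A * Real.cos (2 * x) + B * Real.sin (2 * x) + C) -
        (C ^ 2 - A ^ 2 - B ^ 2))) →
  ∃ a b d : ℝ, 0 < a ∧ b ^ 2 < a * d ∧ ∀ c : ℝ, 0 ≤ c → c ≤ 1 → ∃ l : ℝ, 0 ≤ l ∧
    0 < 1 - l * a ∧ (l * b) ^ 2 < (1 - l * a) * (1 - l * d) ∧
    ∀ z : ℂ, Y z = c ↔
      z.re ^ 2 + z.im ^ 2 - 1 = l * (a * z.re ^ 2 + 2 * b * z.re * z.im + d * z.im ^ 2)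

end Pool.Agent.H97.CT
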